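import Mathlib.Topology.Sheaves.Presheaf
import Mathlib.Tactic.Monotonicity.Lemmas
import Mathlib.Combinatorics.Matroid.Basic
import Mathlib.Analysis.LocallyConvex.HahnBanach
import Mathlib.Analysis.SpecialFunctions.SmoothTransition
import Mathlib.Analysis.Calculus.LineDeriv.IntegrationByParts
import Mathlib.Analysis.Complex.JensenFormula
import Mathlib.Analysis.Fourier.AddCircle
import Mathlib.RingTheory.PiTensorProduct
import Mathlib.Order.CompletePartialOrder

-- ======== part 0: formerly Pool.Agent.MP_26d9d0_an.h12.Sub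
section MrgPart0

set_option autoImplicit false

open Filter Topology Metric Real Set

namespace Pool.Agent.MP_26d9d0_an.H12

/-- `f` is continuous near `x` and has the submean property on small circles around `x`. -/
def SHAt (f : ℂ → ℝ) (x : ℂ) : Prop :=
  (∀ᶠ y in 𝓝 x, ContinuousAt f y) ∧ ∀ᶠ r in 𝓝[>] (0 : ℝ), f x ≤ circleAverage f x r

lemma ev_ball {P : ℂ → Prop} {x : ℂ} (h : ∀ᶠ y in 𝓝 x, P y) :
    ∀ᶠ r in 𝓝[>] (0 : ℝ), 0 < r ∧ ∀ y ∈ closedBall x r, P y := by
  obtain ⟨ε, hε, hP⟩ := Metric.eventually_nhds_iff.1 h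
  filter_upwards [Ioo_mem_nhdsGT hε] with r hr
  exact ⟨hr.1, fun y hy => hP (lt_of_le_of_lt hy hr.2)⟩

lemma ci_of {E : Type*} [NormedAddCommGroup E] {f : ℂ → E} {x : ℂ} {r : ℝ} (hr : 0 ≤ r)
    (h : ∀ y ∈ closedBall x r, ContinuousAt f y) : CircleIntegrable f x r :=
  ContinuousOn.circleIntegrable hr fun y hy =>
    (h y (sphere_subset_closedBall hy)).continuousWithinAt

lemma avg_mono {f g : ℂ → ℝ} {x : ℂ} {r : ℝ} (hr : 0 ≤ r) (hf : CircleIntegrable f x r)
    (hg : CircleIntegrable g x r) (h : ∀ y ∈ sphere x r, f y ≤ g y) :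
    circleAverage f x r ≤ circleAverage g x r :=
  circleAverage_mono hf hg (by rwa [abs_of_nonneg hr])

lemma SHAt.cont {f : ℂ → ℝ} {x : ℂ} (h : SHAt f x) : ContinuousAt f x := h.1.self_of_nhds

lemma SHAt.const (a : ℝ) (x : ℂ) : SHAt (fun _ => a) x :=
  ⟨Eventually.of_forall fun _ => continuousAt_const,
    Eventually.of_forall fun r => by rw [circleAverage_const]⟩

lemma SHAt.add {f g : ℂ → ℝ} {x : ℂ} (hf : SHAt f x) (hg : SHAt g x) :
    SHAt (fun z => f z + g z) x := by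
  refine ⟨by filter_upwards [hf.1, hg.1] with y h1 h2 using h1.add h2, ?_⟩
  filter_upwards [hf.2, hg.2, ev_ball hf.1, ev_ball hg.1] with r h1 h2 h3 h4
  rw [circleAverage_fun_add (ci_of h3.1.le h3.2) (ci_of h4.1.le h4.2)]
  linarith

lemma avg_mul (a : ℝ) (f : ℂ → ℝ) (x : ℂ) (r : ℝ) :
    circleAverage (fun z => a * f z) x r = a * circleAverage f x r :=
  circleAverage_fun_smul (a := a) (f := f)

lemma SHAt.const_mul {f : ℂ → ℝ} {x : ℂ} (hf : SHAt f x) {a : ℝ} (ha : 0 ≤ a) :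
    SHAt (fun z => a * f z) x := by
  refine ⟨by filter_upwards [hf.1] with y h1 using continuousAt_const.mul h1, ?_⟩
  filter_upwards [hf.2] with r h1
  rw [avg_mul]
  exact mul_le_mul_of_nonneg_left h1 ha

lemma SHAt.of_le {f g : ℂ → ℝ} {x : ℂ} (hf : SHAt f x) (hg : ∀ᶠ y in 𝓝 x, ContinuousAt g y)
    (hle : ∀ᶠ y in 𝓝 x, f y ≤ g y) (hx : g x ≤ f x) : SHAt g x := by
  refine ⟨hg, ?_⟩
  filter_upwards [hf.2, ev_ball hf.1, ev_ball hg, ev_ball hle] with r h1 h2 h3 h4
  exact hx.trans (h1.trans (avg_mono h2.1.le (ci_of h2.1.le h2.2) (ci_of h3.1.le h3.2)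
    fun y hy => h4.2 y (sphere_subset_closedBall hy)))

lemma SHAt.congr {f g : ℂ → ℝ} {x : ℂ} (hf : SHAt f x) (h : f =ᶠ[𝓝 x] g) : SHAt g x := by
  refine hf.of_le ?_ (h.mono fun y hy => hy.le) h.self_of_nhds.ge
  filter_upwards [hf.1, h.eventually_nhds] with y h1 h2 using h1.congr h2

lemma SHAt.max {f g : ℂ → ℝ} {x : ℂ} (hf : SHAt f x) (hg : SHAt g x) :
    SHAt (fun z => max (f z) (g z)) x := by
  have hc : ∀ᶠ y in 𝓝 x, ContinuousAt (fun z => Max.max (f z) (g z)) y := by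
    filter_upwards [hf.1, hg.1] with y h1 h2 using h1.max h2
  rcases le_total (f x) (g x) with h | h
  · exact hg.of_le hc (Eventually.of_forall fun y => le_max_right _ _) (max_le h le_rfl)
  · exact hf.of_le hc (Eventually.of_forall fun y => le_max_left _ _) (max_le le_rfl h)

lemma SHAt.sum {ι : Type*} (s : Finset ι) {f : ι → ℂ → ℝ} {x : ℂ} (h : ∀ i ∈ s, SHAt (f i) x) :
    SHAt (fun z => ∑ i ∈ s, f i z) x := by
  classical
  induction s using Finset.induction_on with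
  | empty => simpa using SHAt.const 0 x
  | insert a s ha ih =>
    simp only [Finset.sum_insert ha]
    exact (h a (Finset.mem_insert_self _ _)).add
      (ih fun i hi => h i (Finset.mem_insert_of_mem hi))

lemma avg_re {P : ℂ → ℂ} {x : ℂ} {r : ℝ} (hr : 0 ≤ r)
    (hP : ∀ y ∈ closedBall x r, DifferentiableAt ℂ P y) :
    circleAverage (fun z => (P z).re) x r = (P x).re := by
  have h1 : circleAverage P x r = P x := by
    apply circleAverage_of_differentiable_on_off_countable countable_empty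
    · rw [abs_of_nonneg hr]; exact fun y hy => (hP y hy).continuousAt.continuousWithinAt
    · rw [abs_of_nonneg hr]; exact fun y hy => hP y (ball_subset_closedBall hy.1)
  have h2 := Complex.reCLM.circleAverage_comp_comm (ci_of hr fun y hy => (hP y hy).continuousAt)
  rw [h1] at h2
  exact h2

lemma SHAt.re {P : ℂ → ℂ} {x : ℂ} (hP : ∀ᶠ y in 𝓝 x, DifferentiableAt ℂ P y) (a : ℝ) :
    SHAt (fun z => a * (P z).re) x := by
  refine ⟨by
    filter_upwards [hP] with y hy using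
      continuousAt_const.mul (Complex.continuous_re.continuousAt.comp hy.continuousAt), ?_⟩
  filter_upwards [ev_ball hP] with r hr
  rw [avg_mul, avg_re hr.1.le hr.2]

lemma SHAt.log_norm {P : ℂ → ℂ} {x : ℂ} (hP : ∀ᶠ y in 𝓝 x, DifferentiableAt ℂ P y)
    (hx : P x ≠ 0) (a : ℝ) : SHAt (fun z => a * Real.log ‖P z‖) x := by
  have h0 : ∀ᶠ y in 𝓝 x, P y ≠ 0 := hP.self_of_nhds.continuousAt.eventually_ne hx
  have ha : ∀ᶠ y in 𝓝 x, AnalyticAt ℂ P y :=
    (Complex.analyticAt_iff_eventually_differentiableAt.2 hP).eventually_analyticAt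
  refine ⟨by
    filter_upwards [hP, h0] with y hy h1 using
      continuousAt_const.mul (hy.continuousAt.norm.log (norm_ne_zero_iff.2 h1)), ?_⟩
  filter_upwards [ev_ball ha, ev_ball h0] with r hr h1
  rw [avg_mul, AnalyticOnNhd.circleAverage_log_norm_of_ne_zero]
  · rw [abs_of_pos hr.1]; exact hr.2
  · rw [abs_of_pos hr.1]; exact h1.2

lemma SHAt.posLog_norm {P : ℂ → ℂ} {x : ℂ} (hP : ∀ᶠ y in 𝓝 x, DifferentiableAt ℂ P y) :
    SHAt (fun z => posLog ‖P z‖) x := by
  have hc : ∀ᶠ y in 𝓝 x, ContinuousAt (fun z => posLog ‖P z‖) y := by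
    filter_upwards [hP] with y hy using continuous_posLog.continuousAt.comp hy.continuousAt.norm
  rcases le_or_gt ‖P x‖ 1 with h | h
  · refine (SHAt.const 0 x).of_le hc (Eventually.of_forall fun y => posLog_nonneg) ?_
    exact ((posLog_eq_zero_iff _).2 (by rwa [abs_norm])).le
  · have hx : P x ≠ 0 := by
      intro h0; rw [h0, norm_zero] at h; linarith
    refine (SHAt.log_norm hP hx 1).of_le hc (Eventually.of_forall fun y => ?_) ?_
    · simp [posLog]
    · rw [posLog_eq_log (by rw [abs_norm]; exact h.le), one_mul]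

lemma avg_norm_sq (x : ℂ) {r : ℝ} (hr : 0 ≤ r) :
    circleAverage (fun z => ‖z‖ ^ 2) x r = ‖x‖ ^ 2 + r ^ 2 := by
  have h1 : circleAverage (fun z => ‖z‖ ^ 2) x r = circleAverage
      (fun z => ((‖x‖ ^ 2 + r ^ 2 : ℝ) + 2 * (starRingEnd ℂ) x * (z - x) : ℂ).re) x r := by
    apply circleAverage_congr_sphere
    intro z hz
    rw [abs_of_nonneg hr, mem_sphere, dist_eq_norm] at hz
    have h2 : ‖z - x‖ ^ 2 = r ^ 2 := by rw [hz]
    rw [Complex.sq_norm, Complex.normSq_apply] at h2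
    simp only [Complex.add_re, Complex.ofReal_re, Complex.sq_norm, Complex.normSq_apply]
    simp at h2 ⊢
    nlinarith
  rw [h1, avg_re hr (fun y _ => by fun_prop)]
  simp only [sub_self, mul_zero, add_zero, Complex.ofReal_re]

/-- Maximum principle on a closed disc. -/
lemma max_disc {f : ℂ → ℝ} {c : ℂ} {r m : ℝ} (hc : ContinuousOn f (closedBall c r))
    (hs : ∀ x ∈ ball c r, SHAt f x) (hm : ∀ x ∈ sphere c r, f x ≤ m) :
    ∀ x ∈ closedBall c r, f x ≤ m := by
  intro x hx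
  have key : ∀ ε > 0, f x ≤ m + ε * (‖c‖ + r) ^ 2 := by
    intro ε hε
    obtain ⟨y, hy, hmax⟩ := (isCompact_closedBall c r).exists_isMaxOn ⟨x, hx⟩
      (f := fun z => f z + ε * ‖z‖ ^ 2) (hc.add (by fun_prop))
    have hys : y ∈ sphere c r := by
      by_contra hn
      have hyb : y ∈ ball c r := lt_of_le_of_ne hy hn
      have h1 := hs y hyb
      obtain ⟨s, h2, h3, h4⟩ := (h1.2.and ((ev_ball h1.1).and
        (ev_ball (isOpen_ball.mem_nhds hyb)))).exists
      have i1 := ci_of h3.1.le h3.2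
      have i2 : CircleIntegrable (fun z : ℂ => ε * ‖z‖ ^ 2) y s :=
        ci_of h3.1.le fun _ _ => by fun_prop
      have h5 := circleAverage_mono_on_of_le_circle (i1.add i2) (a := f y + ε * ‖y‖ ^ 2)
        (fun z hz => hmax (ball_subset_closedBall (h4.2 z
          (sphere_subset_closedBall (by rwa [abs_of_pos h3.1] at hz)))))
      rw [circleAverage_add i1 i2, avg_mul, avg_norm_sq y h3.1.le] at h5
      have := mul_pos hε (pow_pos h3.1 2)
      nlinarith
    have h1 : f x + ε * ‖x‖ ^ 2 ≤ f y + ε * ‖y‖ ^ 2 := hmax hx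
    have h2 : ‖y‖ ≤ ‖c‖ + r := by
      have := norm_le_norm_add_norm_sub' y c
      have h3 : ‖y - c‖ = r := by simpa [dist_eq_norm] using hys
      linarith
    have h3 : ‖y‖ ^ 2 ≤ (‖c‖ + r) ^ 2 := by gcongr
    have h4 := hm y hys
    have h5 : 0 ≤ ε * ‖x‖ ^ 2 := by positivity
    nlinarith
  refine le_of_forall_pos_le_add fun η hη => ?_
  have hD : 0 < (‖c‖ + r) ^ 2 + 1 := by positivity
  refine (key (η / ((‖c‖ + r) ^ 2 + 1)) (by positivity)).trans ?_
  rw [div_mul_eq_mul_div, add_le_add_iff_left, div_le_iff₀ hD]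
  nlinarith

/-- Approximation on a circle by real parts of entire functions. -/
lemma exists_entire {g : ℂ → ℝ} {c : ℂ} {r ε : ℝ} (hr : 0 < r) (hε : 0 < ε)
    (hg : ContinuousOn g (sphere c r)) :
    ∃ P : ℂ → ℂ, Differentiable ℂ P ∧ ∀ z ∈ sphere c r, g z ≤ (P z).re ∧ (P z).re ≤ g z + ε := by
  have : Fact ((0 : ℝ) < 1) := ⟨one_pos⟩
  have hm : ∀ x : AddCircle (1 : ℝ), c + r * (x.toCircle : ℂ) ∈ sphere c r := fun x => by
    simp [abs_of_pos hr]
  have hcont : Continuous fun x : AddCircle (1 : ℝ) => c + r * (x.toCircle : ℂ) := by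
    have := AddCircle.continuous_toCircle (T := (1 : ℝ))
    fun_prop
  let G : C(AddCircle (1 : ℝ), ℂ) := ⟨fun x => (g (c + r * (x.toCircle : ℂ)) : ℂ),
    Complex.continuous_ofReal.comp (hg.comp_continuous hcont hm)⟩
  let A : Submodule ℂ C(AddCircle (1 : ℝ), ℂ) :=
    { carrier := {F | ∃ P Q : ℂ → ℂ, Differentiable ℂ P ∧ Differentiable ℂ Q ∧
        ∀ x, F x = P x.toCircle + (starRingEnd ℂ) (Q x.toCircle)}
      add_mem' := by
        rintro F F' ⟨P, Q, hP, hQ, h⟩ ⟨P', Q', hP', hQ', h'⟩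
        exact ⟨P + P', Q + Q', hP.add hP', hQ.add hQ', fun x => by simp [h, h']; ring⟩
      zero_mem' := ⟨0, 0, differentiable_const _, differentiable_const _, fun x => by simp⟩
      smul_mem' := by
        rintro a F ⟨P, Q, hP, hQ, h⟩
        exact ⟨a • P, (starRingEnd ℂ) a • Q, hP.const_smul a, hQ.const_smul _,
          fun x => by simp [h]; ring⟩ }
  have hA : Submodule.span ℂ (range <| @fourier 1) ≤ A := by
    rw [Submodule.span_le]
    rintro _ ⟨n, rfl⟩
    obtain ⟨m, rfl | rfl⟩ := Int.eq_nat_or_neg n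
    · exact ⟨fun z => z ^ m, 0, by fun_prop, differentiable_const _, fun x => by
        simp [fourier_apply, AddCircle.toCircle_nsmul]⟩
    · refine ⟨0, fun z => z ^ m, differentiable_const _, by fun_prop, fun x => ?_⟩
      rw [fourier_neg]
      simp [fourier_apply, AddCircle.toCircle_nsmul]
  have hG : G ∈ (Submodule.span ℂ (range <| @fourier 1)).topologicalClosure := by
    rw [span_fourier_closure_eq_top]; trivial
  obtain ⟨F, hF, hd⟩ := Metric.mem_closure_iff.1 hG (ε / 2) (by positivity)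
  obtain ⟨P, Q, hP, hQ, h⟩ := hA hF
  refine ⟨fun z => P ((z - c) / r) + Q ((z - c) / r) + (ε / 2 : ℝ), by fun_prop, fun z hz => ?_⟩
  have hr0 : (r : ℂ) ≠ 0 := by exact_mod_cast hr.ne'
  have hz1 : ‖(z - c) / r‖ = 1 := by
    rw [mem_sphere, dist_eq_norm] at hz
    rw [norm_div, hz, Complex.norm_real, Real.norm_eq_abs, abs_of_pos hr, div_self hr.ne']
  obtain ⟨x, hx⟩ := (AddCircle.homeomorphCircle (T := (1 : ℝ)) one_ne_zero).surjective
    ⟨(z - c) / r, by simpa [Submonoid.unitSphere] using hz1⟩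
  rw [AddCircle.homeomorphCircle_apply] at hx
  have hx' : (x.toCircle : ℂ) = (z - c) / r := by rw [hx]
  have h1 : dist (G x) (F x) < ε / 2 := (ContinuousMap.dist_apply_le_dist x).trans_lt hd
  have h2 : c + r * ((z - c) / r) = z := by field_simp; ring
  have h3 : G x = (g z : ℂ) := by
    change ((g (c + r * (x.toCircle : ℂ)) : ℝ) : ℂ) = _
    rw [hx', h2]
  rw [h3, h, hx', dist_eq_norm] at h1
  have h4 := (abs_le.1 ((Complex.abs_re_le_norm _).trans h1.le))
  simp only [Complex.sub_re, Complex.add_re, Complex.ofReal_re, Complex.conj_re] at h4 ⊢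
  constructor <;> linarith [h4.1, h4.2]

/-- Harmonic comparison on a closed disc. -/
lemma exists_major {f : ℂ → ℝ} {c : ℂ} {r ε : ℝ} (hr : 0 < r) (hε : 0 < ε)
    (hs : ∀ x ∈ closedBall c r, SHAt f x) :
    ∃ P : ℂ → ℂ, Differentiable ℂ P ∧ (∀ z ∈ closedBall c r, f z ≤ (P z).re) ∧
      ∀ z ∈ sphere c r, (P z).re ≤ f z + ε := by
  have hc : ContinuousOn f (closedBall c r) := fun x hx => (hs x hx).cont.continuousWithinAt
  obtain ⟨P, hP, h⟩ := exists_entire hr hε (hc.mono sphere_subset_closedBall)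
  refine ⟨P, hP, fun z hz => ?_, fun z hz => (h z hz).2⟩
  have := max_disc (f := fun z => f z + (-1) * (P z).re) (m := 0)
    (hc.add (by have := hP.continuous; fun_prop))
    (fun x hx => (hs x (ball_subset_closedBall hx)).add
      (SHAt.re (Eventually.of_forall fun y => hP y) _))
    (fun x hx => by linarith [(h x hx).1]) z hz
  linarith

/-- Global submean property. -/
lemma submean {f : ℂ → ℝ} {c : ℂ} {r : ℝ} (hr : 0 < r) (hs : ∀ x ∈ closedBall c r, SHAt f x) :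
    f c ≤ circleAverage f c r := by
  refine le_of_forall_pos_le_add fun ε hε => ?_
  obtain ⟨P, hP, h1, h2⟩ := exists_major hr hε hs
  have i1 := ci_of hr.le fun y hy => (hs y hy).cont
  have i2 : CircleIntegrable (fun _ : ℂ => ε) c r := ci_of hr.le fun _ _ => continuousAt_const
  have h3 := avg_mono hr.le (f := fun z => (P z).re) (g := fun z => f z + ε)
    (ci_of hr.le fun y _ => by have := hP.continuous; fun_prop) (i1.add i2) h2
  rw [avg_re hr.le fun y _ => hP y, circleAverage_fun_add i1 i2, circleAverage_const] at h3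
  exact (h1 c (mem_closedBall_self hr.le)).trans h3

open Classical in
/-- Gluing of `f` with a function `h` given on `D`. -/
noncomputable def glue (D : Set ℂ) (f h : ℂ → ℝ) (z : ℂ) : ℝ :=
  if z ∈ D then max (f z) (h z) else f z

lemma le_glue (D : Set ℂ) (f h : ℂ → ℝ) (z : ℂ) : f z ≤ glue D f h z := by
  unfold glue; split_ifs <;> simp

lemma le_glue' {D : Set ℂ} (f h : ℂ → ℝ) {z : ℂ} (hz : z ∈ D) : h z ≤ glue D f h z := by
  unfold glue; simp [hz]

lemma glue_le {D : Set ℂ} {f h : ℂ → ℝ} {z : ℂ} {m : ℝ} (h1 : f z ≤ m) (h2 : z ∈ D → h z ≤ m) :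
    glue D f h z ≤ m := by
  unfold glue; split_ifs with hz
  · exact max_le h1 (h2 hz)
  · exact h1

lemma SHAt.glue {D : Set ℂ} (hD : IsOpen D) {f h : ℂ → ℝ} {x : ℂ} (hf : SHAt f x)
    (hh : x ∈ D → SHAt h x) (hb : x ∉ D → ∀ᶠ y in 𝓝 x, y ∈ D → h y ≤ f y) :
    SHAt (glue D f h) x := by
  by_cases hx : x ∈ D
  · refine (hf.max (hh hx)).congr ?_
    filter_upwards [hD.mem_nhds hx] with y hy
    simp [H12.glue, hy]
  · refine hf.congr ?_
    filter_upwards [hb hx] with y hy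
    exact le_antisymm (le_glue _ _ _ _) (glue_le le_rfl hy)

end Pool.Agent.MP_26d9d0_an.H12

end MrgPart0

-- ======== part 1: formerly Pool.Agent.MP_26d9d0_an.h12.Calc
section MrgPart1

set_option autoImplicit false

open Filter Topology Metric Real Set MeasureTheory

namespace Pool.Agent.MP_26d9d0_an.H12

/-- Directional derivative. -/
noncomputable def dd {E : Type*} [NormedAddCommGroup E] [NormedSpace ℝ E] (v : ℂ) (f : ℂ → E)
    (z : ℂ) : E := fderiv ℝ f z v

/-- Twice the Cauchy-Riemann operator. -/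
noncomputable def Db (f : ℂ → ℂ) (z : ℂ) : ℂ := dd 1 f z + Complex.I * dd Complex.I f z

/-- The Laplacian. -/
noncomputable def lap (f : ℂ → ℝ) (z : ℂ) : ℝ :=
  dd 1 (dd 1 f) z + dd Complex.I (dd Complex.I f) z

section
variable {E : Type*} [NormedAddCommGroup E] [NormedSpace ℝ E] {v z : ℂ}

lemma dd_congr {f g : ℂ → E} (h : f =ᶠ[𝓝 z] g) (v : ℂ) : dd v f =ᶠ[𝓝 z] dd v g := by
  filter_upwards [h.fderiv (𝕜 := ℝ)] with y hy
  simp only [dd, hy]

lemma lap_congr {f g : ℂ → ℝ} (h : f =ᶠ[𝓝 z] g) : lap f z = lap g z := by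
  unfold lap
  rw [(dd_congr (dd_congr h _) _).self_of_nhds, (dd_congr (dd_congr h _) _).self_of_nhds]

lemma Db_congr {f g : ℂ → ℂ} (h : f =ᶠ[𝓝 z] g) : Db f z = Db g z := by
  unfold Db
  rw [(dd_congr h _).self_of_nhds, (dd_congr h _).self_of_nhds]

lemma dd_const (a : E) : dd v (fun _ => a) z = 0 := by simp [dd]

lemma Db_const (a : ℂ) : Db (fun _ => a) z = 0 := by simp [Db, dd]

lemma dd_add {f g : ℂ → E} (hf : DifferentiableAt ℝ f z) (hg : DifferentiableAt ℝ g z) :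
    dd v (fun z => f z + g z) z = dd v f z + dd v g z := by
  simp [dd, fderiv_fun_add hf hg]

lemma dd_mul {A : Type*} [NormedCommRing A] [NormedAlgebra ℝ A] {f g : ℂ → A}
    (hf : DifferentiableAt ℝ f z) (hg : DifferentiableAt ℝ g z) :
    dd v (fun z => f z * g z) z = dd v f z * g z + f z * dd v g z := by
  simp [dd, fderiv_fun_mul hf hg]; ring

lemma dd_comp {θ : ℝ → ℝ} {θ' : ℝ} {f : ℂ → ℝ} (hθ : HasDerivAt θ θ' (f z))
    (hf : DifferentiableAt ℝ f z) : dd v (fun z => θ (f z)) z = θ' * dd v f z := by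
  have := (hθ.comp_hasFDerivAt z hf.hasFDerivAt).fderiv
  unfold dd
  rw [show (fun z => θ (f z)) = θ ∘ f from rfl, this]
  simp

lemma dd_clm {F : Type*} [NormedAddCommGroup F] [NormedSpace ℝ F] (L : E →L[ℝ] F) {f : ℂ → E}
    (hf : DifferentiableAt ℝ f z) : dd v (fun z => L (f z)) z = L (dd v f z) := by
  have := (L.hasFDerivAt.comp z hf.hasFDerivAt).fderiv
  unfold dd
  rw [show (fun z => L (f z)) = L ∘ f from rfl, this]
  simp

lemma dd_contDiffAt {f : ℂ → E} {n : ℕ} (hf : ContDiffAt ℝ (n + 1 : ℕ) f z) :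
    ContDiffAt ℝ n (dd v f) z :=
  (hf.fderiv_right (m := n) (by push_cast; exact le_rfl)).clm_apply contDiffAt_const

lemma dd_dd {f : ℂ → E} (hf : ContDiffAt ℝ 2 f z) (v w : ℂ) :
    dd v (dd w f) z = fderiv ℝ (fderiv ℝ f) z v w := by
  have h : DifferentiableAt ℝ (fderiv ℝ f) z :=
    (hf.fderiv_right (m := 1) (by norm_num)).differentiableAt one_ne_zero
  have := (h.hasFDerivAt.clm_apply (hasFDerivAt_const w z)).fderiv
  unfold dd
  rw [this]
  simp

lemma dd_comm {f : ℂ → E} (hf : ContDiffAt ℝ 2 f z) (v w : ℂ) :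
    dd v (dd w f) z = dd w (dd v f) z := by
  rw [dd_dd hf, dd_dd hf]
  exact hf.isSymmSndFDerivAt (by simp) v w

lemma Db_add {f g : ℂ → ℂ} (hf : DifferentiableAt ℝ f z) (hg : DifferentiableAt ℝ g z) :
    Db (fun z => f z + g z) z = Db f z + Db g z := by
  unfold Db; rw [dd_add hf hg, dd_add hf hg]; ring

lemma Db_mul {f g : ℂ → ℂ} (hf : DifferentiableAt ℝ f z) (hg : DifferentiableAt ℝ g z) :
    Db (fun z => f z * g z) z = Db f z * g z + f z * Db g z := by
  unfold Db; rw [dd_mul hf hg, dd_mul hf hg]; ring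

lemma Db_hol {f : ℂ → ℂ} (hf : DifferentiableAt ℂ f z) : Db f z = 0 := by
  unfold Db dd
  rw [(hf.hasDerivAt.hasFDerivAt.restrictScalars ℝ).fderiv]
  simp only [ContinuousLinearMap.coe_restrictScalars', ContinuousLinearMap.toSpanSingleton_apply,
    smul_eq_mul]
  linear_combination (deriv f z) * Complex.I_mul_I

lemma Db_mul_hol {f g : ℂ → ℂ} (hf : DifferentiableAt ℝ f z) (hg : DifferentiableAt ℂ g z) :
    Db (fun z => f z * g z) z = Db f z * g z := by
  rw [Db_mul hf (hg.restrictScalars ℝ), Db_hol hg, mul_zero, add_zero]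

lemma Db_ofReal {f : ℂ → ℝ} (hf : DifferentiableAt ℝ f z) :
    Db (fun z => (f z : ℂ)) z = (dd 1 f z : ℝ) + Complex.I * (dd Complex.I f z : ℝ) := by
  unfold Db
  rw [show dd 1 (fun z => (f z : ℂ)) z = _ from dd_clm Complex.ofRealCLM hf,
    show dd Complex.I (fun z => (f z : ℂ)) z = _ from dd_clm Complex.ofRealCLM hf]
  rfl

lemma Db_continuousAt {f : ℂ → ℂ} (hf : ContDiffAt ℝ 1 f z) : ContinuousAt (Db f) z :=
  (dd_contDiffAt (n := 0) hf).continuousAt.add
    (continuousAt_const.mul (dd_contDiffAt (n := 0) hf).continuousAt)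

omit [NormedSpace ℝ E] in
lemma ev_zero {K : Set ℂ} (hK : IsClosed K) {f : ℂ → E} (h : ∀ z ∉ K, f z = 0) (hz : z ∉ K) :
    f =ᶠ[𝓝 z] fun _ => 0 := by
  filter_upwards [hK.isOpen_compl.mem_nhds hz] with y hy using h y hy

lemma dd_zero_off {K : Set ℂ} (hK : IsClosed K) {f : ℂ → E} (h : ∀ z ∉ K, f z = 0) :
    ∀ z ∉ K, dd v f z = 0 := fun _ hz => by
  rw [(dd_congr (ev_zero hK h hz) v).self_of_nhds, dd_const]

lemma Db_zero_off {K : Set ℂ} (hK : IsClosed K) {f : ℂ → ℂ} (h : ∀ z ∉ K, f z = 0) :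
    ∀ z ∉ K, Db f z = 0 := fun _ hz => by
  rw [Db_congr (ev_zero hK h hz), Db_const]

lemma integrable_of {E : Type*} [NormedAddCommGroup E] {K : Set ℂ} (hK : IsCompact K) {f : ℂ → E}
    (hc : ∀ z ∈ K, ContinuousAt f z) (h : ∀ z ∉ K, f z = 0) : Integrable f :=
  (ContinuousOn.integrableOn_compact hK
    fun z hz => (hc z hz).continuousWithinAt).integrable_of_forall_notMem_eq_zero h

lemma contDiff_of {K : Set ℂ} (hK : IsClosed K) {f : ℂ → E} {n : WithTop ℕ∞}
    (hc : ∀ z ∈ K, ContDiffAt ℝ n f z) (h : ∀ z ∉ K, f z = 0) : ContDiff ℝ n f := by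
  refine contDiff_iff_contDiffAt.2 fun z => ?_
  by_cases hz : z ∈ K
  · exact hc z hz
  · exact contDiffAt_const.congr_of_eventuallyEq (ev_zero hK h hz)

lemma integrable_dd {K : Set ℂ} (hK : IsCompact K) {f : ℂ → E}
    (hc : ∀ z ∈ K, ContDiffAt ℝ 1 f z) (h : ∀ z ∉ K, f z = 0) : Integrable (dd v f) :=
  integrable_of hK (fun z hz => (dd_contDiffAt (n := 0) (hc z hz)).continuousAt)
    (dd_zero_off hK.isClosed h)

lemma integral_dd {K : Set ℂ} (hK : IsCompact K) {f : ℂ → E}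
    (hc : ∀ z ∈ K, ContDiffAt ℝ 1 f z) (h : ∀ z ∉ K, f z = 0) : ∫ z, dd v f z = 0 := by
  have h1 := contDiff_of hK.isClosed hc h
  have := integral_bilinear_fderiv_right_eq_neg_left_of_integrable (μ := (volume : Measure ℂ))
    (f := fun _ : ℂ => (1 : ℝ)) (g := f) (v := v) (B := ContinuousLinearMap.lsmul ℝ ℝ)
    (by simp) ((integrable_dd (v := v) hK hc h).congr (Eventually.of_forall fun x => by simp [dd]))
    (by simpa using integrable_of hK (fun z hz => (hc z hz).continuousAt) h)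
    (fun _ _ => differentiableAt_const _) (fun x _ => h1.differentiable one_ne_zero x)
  simpa [dd] using this

lemma integral_Db {K : Set ℂ} (hK : IsCompact K) {f : ℂ → ℂ}
    (hc : ∀ z ∈ K, ContDiffAt ℝ 1 f z) (h : ∀ z ∉ K, f z = 0) : ∫ z, Db f z = 0 := by
  unfold Db
  rw [integral_add (integrable_dd hK hc h) ((integrable_dd hK hc h).const_mul _),
    integral_const_mul, integral_dd hK hc h, integral_dd hK hc h]
  simp

end

lemma div_id {p q Ψ : ℂ → ℝ} {z : ℂ} (hp : ContDiffAt ℝ 2 p z) (hq : ContDiffAt ℝ 2 q z)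
    (hΨ : ContDiffAt ℝ 2 Ψ z) :
    dd 1 (fun z => -4 * (p z * dd Complex.I q z) + -1 * ((p z * p z + q z * q z) * dd 1 Ψ z)) z +
      dd Complex.I
        (fun z => 4 * (p z * dd 1 q z) + -1 * ((p z * p z + q z * q z) * dd Complex.I Ψ z)) z =
    -4 * (dd 1 p z * dd Complex.I q z - dd Complex.I p z * dd 1 q z)
      - 2 * (p z * dd 1 p z + q z * dd 1 q z) * dd 1 Ψ z
      - 2 * (p z * dd Complex.I p z + q z * dd Complex.I q z) * dd Complex.I Ψ z
      - (p z * p z + q z * q z) * lap Ψ z := by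
  have d1 := hp.differentiableAt two_ne_zero
  have d2 := hq.differentiableAt two_ne_zero
  have d3 := (dd_contDiffAt (v := 1) (n := 1) hq).differentiableAt (by norm_num)
  have d3' := (dd_contDiffAt (v := Complex.I) (n := 1) hq).differentiableAt (by norm_num)
  have d4 := (dd_contDiffAt (v := 1) (n := 1) hΨ).differentiableAt (by norm_num)
  have d4' := (dd_contDiffAt (v := Complex.I) (n := 1) hΨ).differentiableAt (by norm_num)
  simp (disch := fun_prop) only [dd_add, dd_mul, dd_const]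
  rw [dd_comm hq 1 Complex.I, lap]
  ring

/-- The basic a priori inequality for a weight of class `C^2`. -/
lemma apriori0 {K : Set ℂ} (hK : IsCompact K) {Ψ : ℂ → ℝ} (hΨ : ∀ z ∈ K, ContDiffAt ℝ 2 Ψ z)
    {β : ℂ → ℂ} (hβ : ContDiff ℝ 2 β) (h0 : ∀ z ∉ K, β z = 0) :
    ∫ z, lap Ψ z * (‖β z‖ ^ 2 * exp (Ψ z)) ≤ ∫ z, ‖Db β z‖ ^ 2 * exp (Ψ z) := by
  let e : ℂ → ℝ := fun z => exp (Ψ z / 2)
  let p : ℂ → ℝ := fun z => Complex.reCLM (β z) * e z
  let q : ℂ → ℝ := fun z => Complex.imCLM (β z) * e z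
  let F : ℂ → ℝ := fun z => -4 * (p z * dd Complex.I q z) + -1 * ((p z * p z + q z * q z) * dd 1 Ψ z)
  let G : ℂ → ℝ := fun z => 4 * (p z * dd 1 q z) + -1 * ((p z * p z + q z * q z) * dd Complex.I Ψ z)
  have he : ∀ z ∈ K, ContDiffAt ℝ 2 e z := fun z hz => ((hΨ z hz).div_const 2).exp
  have hp : ∀ z ∈ K, ContDiffAt ℝ 2 p z := fun z hz =>
    (Complex.reCLM.contDiff.comp hβ).contDiffAt.mul (he z hz)
  have hq : ∀ z ∈ K, ContDiffAt ℝ 2 q z := fun z hz =>
    (Complex.imCLM.contDiff.comp hβ).contDiffAt.mul (he z hz)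
  have hp1 : ∀ z ∈ K, ContDiffAt ℝ 1 p z := fun z hz => (hp z hz).of_le (by norm_num)
  have hq1 : ∀ z ∈ K, ContDiffAt ℝ 1 q z := fun z hz => (hq z hz).of_le (by norm_num)
  have hdq : ∀ v, ∀ z ∈ K, ContDiffAt ℝ 1 (dd v q) z := fun v z hz =>
    dd_contDiffAt (n := 1) (hq z hz)
  have hdΨ : ∀ v, ∀ z ∈ K, ContDiffAt ℝ 1 (dd v Ψ) z := fun v z hz =>
    dd_contDiffAt (n := 1) (hΨ z hz)
  have hn : ∀ z ∈ K, ContDiffAt ℝ 1 (fun z => p z * p z + q z * q z) z := fun z hz =>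
    ((hp1 z hz).mul (hp1 z hz)).add ((hq1 z hz).mul (hq1 z hz))
  have hF : ∀ z ∈ K, ContDiffAt ℝ 1 F z := fun z hz =>
    (contDiffAt_const.mul ((hp1 z hz).mul (hdq _ z hz))).add
      (contDiffAt_const.mul ((hn z hz).mul (hdΨ _ z hz)))
  have hG : ∀ z ∈ K, ContDiffAt ℝ 1 G z := fun z hz =>
    (contDiffAt_const.mul ((hp1 z hz).mul (hdq _ z hz))).add
      (contDiffAt_const.mul ((hn z hz).mul (hdΨ _ z hz)))
  have hF0 : ∀ z ∉ K, F z = 0 := fun z hz => by simp [F, p, q, h0 z hz]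
  have hG0 : ∀ z ∉ K, G z = 0 := fun z hz => by simp [G, p, q, h0 z hz]
  have i1 : Integrable fun z => lap Ψ z * (‖β z‖ ^ 2 * exp (Ψ z)) :=
    integrable_of hK (fun z hz => ((dd_contDiffAt (n := 0) (hdΨ _ z hz)).continuousAt.add
      (dd_contDiffAt (n := 0) (hdΨ _ z hz)).continuousAt).mul
      ((hβ.continuous.continuousAt.norm.pow 2).mul (hΨ z hz).continuousAt.rexp))
      fun z hz => by simp [h0 z hz]
  have i2 : Integrable fun z => ‖Db β z‖ ^ 2 * exp (Ψ z) :=
    integrable_of hK (fun z hz => (((Db_continuousAt (hβ.contDiffAt.of_le (by norm_num))).norm.pow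
      2).mul (hΨ z hz).continuousAt.rexp)) fun z hz => by simp [Db_zero_off hK.isClosed h0 z hz]
  have i3 := integrable_dd (v := 1) hK hF hF0
  have i4 := integrable_dd (v := Complex.I) hK hG hG0
  have key : ∀ z, lap Ψ z * (‖β z‖ ^ 2 * exp (Ψ z)) + (dd 1 F z + dd Complex.I G z) ≤
      ‖Db β z‖ ^ 2 * exp (Ψ z) := by
    intro z
    by_cases hz : z ∈ K
    swap
    · rw [dd_zero_off hK.isClosed hF0 z hz, dd_zero_off hK.isClosed hG0 z hz, h0 z hz]
      simp only [norm_zero, ne_eq, OfNat.ofNat_ne_zero, not_false_eq_true, zero_pow, zero_mul,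
        mul_zero, add_zero]
      positivity
    have d6 := hβ.differentiable two_ne_zero z
    have d7 := (hΨ z hz).differentiableAt two_ne_zero
    have d8 := (he z hz).differentiableAt two_ne_zero
    have e1 : ∀ v, dd v e z = e z / 2 * dd v Ψ z := fun v =>
      dd_comp (θ := fun s => exp (s / 2)) 
        (by simpa [div_eq_mul_inv, e] using ((hasDerivAt_id (Ψ z)).div_const 2).exp) d7
    have e2 : ∀ v, dd v p z = (dd v β z).re * e z + p z / 2 * dd v Ψ z := fun v => by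
      rw [show dd v p z = _ from dd_mul (f := fun z => Complex.reCLM (β z))
        (Complex.reCLM.differentiableAt.comp z d6) d8, dd_clm _ d6, e1]
      simp only [p, Complex.reCLM_apply]; ring
    have e3 : ∀ v, dd v q z = (dd v β z).im * e z + q z / 2 * dd v Ψ z := fun v => by
      rw [show dd v q z = _ from dd_mul (f := fun z => Complex.imCLM (β z))
        (Complex.imCLM.differentiableAt.comp z d6) d8, dd_clm _ d6, e1]
      simp only [q, Complex.imCLM_apply]; ring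
    have e4 : exp (Ψ z) = e z * e z := by simp only [e]; rw [← exp_add]; ring_nf
    have e5 : ‖β z‖ ^ 2 * exp (Ψ z) = p z * p z + q z * q z := by
      rw [e4, Complex.sq_norm, Complex.normSq_apply]
      simp only [p, q, Complex.reCLM_apply, Complex.imCLM_apply]; ring
    have e6 : ‖Db β z‖ ^ 2 * exp (Ψ z) =
        ((dd 1 β z).re * e z - (dd Complex.I β z).im * e z) ^ 2 +
          ((dd 1 β z).im * e z + (dd Complex.I β z).re * e z) ^ 2 := by
      rw [e4, Complex.sq_norm, Complex.normSq_apply]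
      simp [Db]; ring
    rw [e5, e6, div_id (hp z hz) (hq z hz) (hΨ z hz)]
    rw [eq_sub_of_add_eq (e2 1).symm, eq_sub_of_add_eq (e2 Complex.I).symm,
      eq_sub_of_add_eq (e3 1).symm, eq_sub_of_add_eq (e3 Complex.I).symm]
    nlinarith [sq_nonneg (dd 1 p z + dd Complex.I q z + p z / 2 * dd 1 Ψ z +
        q z / 2 * dd Complex.I Ψ z),
      sq_nonneg (dd 1 q z - dd Complex.I p z + q z / 2 * dd 1 Ψ z - p z / 2 * dd Complex.I Ψ z)]
  have := integral_mono (i1.add (i3.add i4)) i2 key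
  rw [integral_add' i1 (i3.add i4), integral_add' i3 i4, integral_dd hK hF hF0,
    integral_dd hK hG hG0] at this
  simpa using this

end Pool.Agent.MP_26d9d0_an.H12

end MrgPart1

-- ======== part 2: formerly Pool.Agent.MP_26d9d0_an.h12.Kernel
section MrgPart2

set_option autoImplicit false

open Filter Topology Metric Real Set MeasureTheory

namespace Pool.Agent.MP_26d9d0_an.H12

lemma amgm {s x y : ℝ} (hx : 0 ≤ x) (hy : 0 ≤ y) (h : ∀ l > 0, s ≤ l * x + y / l) :
    s ≤ 2 * √x * √y := by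
  have key : ∀ η > 0, s ≤ 2 * (√x + η) * (√y + η) := by
    intro η hη
    have hX : 0 < √x + η := by positivity
    have hY : 0 < √y + η := by positivity
    have h1 : x ≤ (√x + η) ^ 2 := by nlinarith [Real.sq_sqrt hx, Real.sqrt_nonneg x]
    have h2 : y ≤ (√y + η) ^ 2 := by nlinarith [Real.sq_sqrt hy, Real.sqrt_nonneg y]
    calc s ≤ (√y + η) / (√x + η) * x + y / ((√y + η) / (√x + η)) := h _ (by positivity)
      _ ≤ (√y + η) / (√x + η) * (√x + η) ^ 2 + (√y + η) ^ 2 / ((√y + η) / (√x + η)) := by gcongr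
      _ = _ := by field_simp; ring
  have t1 : Tendsto (fun η : ℝ => 2 * (√x + η) * (√y + η)) (𝓝[>] 0) (𝓝 _) :=
    (ContinuousAt.tendsto (by fun_prop)).mono_left nhdsWithin_le_nhds
  simpa using ge_of_tendsto t1 (eventually_nhdsWithin_of_forall key)

/-- Vanishing outside a compact subset of `S`. -/
def CS (S : Set ℂ) (a : ℂ → ℂ) : Prop := ∃ K, IsCompact K ∧ K ⊆ S ∧ ∀ z ∉ K, a z = 0

lemma CS.add {S : Set ℂ} {a b : ℂ → ℂ} (ha : CS S a) (hb : CS S b) : CS S (a + b) := by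
  obtain ⟨K, h1, h2, h3⟩ := ha
  obtain ⟨K', h1', h2', h3'⟩ := hb
  exact ⟨K ∪ K', h1.union h1', union_subset h2 h2', fun z hz => by
    simp [h3 z fun h => hz (Or.inl h), h3' z fun h => hz (Or.inr h)]⟩

lemma CS.of_zero {S : Set ℂ} {a b : ℂ → ℂ} (ha : CS S a) (h : ∀ z, a z = 0 → b z = 0) :
    CS S b := by
  obtain ⟨K, h1, h2, h3⟩ := ha
  exact ⟨K, h1, h2, fun z hz => h z (h3 z hz)⟩

lemma CS.Db {S : Set ℂ} {a : ℂ → ℂ} (ha : CS S a) : CS S (Db a) := by
  obtain ⟨K, h1, h2, h3⟩ := ha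
  exact ⟨K, h1, h2, Db_zero_off h1.isClosed h3⟩

lemma CS.integrable {S : Set ℂ} {a : ℂ → ℂ} (ha : CS S a) {E : Type*} [NormedAddCommGroup E]
    {F : ℂ → E} (hc : ∀ z ∈ S, ContinuousAt F z) (h : ∀ z, a z = 0 → F z = 0) : Integrable F := by
  obtain ⟨K, h1, h2, h3⟩ := ha
  exact integrable_of h1 (fun z hz => hc z (h2 hz)) fun z hz => h z (h3 z hz)

lemma Db_continuous {β : ℂ → ℂ} (hβ : ContDiff ℝ 2 β) : Continuous (Db β) :=
  continuous_iff_continuousAt.2 fun _ => Db_continuousAt (hβ.contDiffAt.of_le (by norm_num))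

lemma exists_Lambda {S : Set ℂ} {E : ℂ → ℝ} (hE : ∀ z ∈ S, ContinuousAt E z)
    (hE0 : ∀ z, 0 ≤ E z) {Φ : ℂ → ℂ} (hΦ : ∀ z ∈ S, ContinuousAt Φ z) {B : ℝ} (hB : 0 ≤ B)
    (H : ∀ β, ContDiff ℝ 2 β → CS S β →
      ‖∫ z, Φ z * Db β z‖ ≤ B * √(∫ z, ‖Db β z‖ ^ 2 * E z)) :
    ∃ Λ : (ℂ → ℂ) →ₗ[ℂ] ℂ, (∀ β, ContDiff ℝ 2 β → CS S β → Λ (Db β) = 0) ∧
      ∀ a, Continuous a → CS S a → ‖Λ a - ∫ z, Φ z * a z‖ ≤ B * √(∫ z, ‖a z‖ ^ 2 * E z) := by
  let X : Submodule ℂ (ℂ → ℂ) :=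
    { carrier := {a | Continuous a ∧ CS S a}
      add_mem' := fun ha hb => ⟨ha.1.add hb.1, ha.2.add hb.2⟩
      zero_mem' := ⟨continuous_const, ∅, isCompact_empty, empty_subset _, fun _ _ => rfl⟩
      smul_mem' := fun c a ha => ⟨ha.1.const_smul c, ha.2.of_zero fun z hz => by simp [hz]⟩ }
  have i1 : ∀ a : X, Integrable fun z => ‖a.1 z‖ ^ 2 * E z := fun a =>
    a.2.2.integrable (fun z hz => (a.2.1.continuousAt.norm.pow 2).mul (hE z hz))
      fun z hz => by simp [hz]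
  have i2 : ∀ a : X, Integrable fun z => Φ z * a.1 z := fun a =>
    a.2.2.integrable (fun z hz => (hΦ z hz).mul a.2.1.continuousAt) fun z hz => by simp [hz]
  have n1 : ∀ a : X, 0 ≤ ∫ z, ‖a.1 z‖ ^ 2 * E z := fun a =>
    integral_nonneg fun z => mul_nonneg (sq_nonneg _) (hE0 z)
  let p : Seminorm ℂ X := Seminorm.of (fun a => B * √(∫ z, ‖a.1 z‖ ^ 2 * E z))
    (fun a b => by
      rw [← mul_add]
      refine mul_le_mul_of_nonneg_left (Real.sqrt_le_iff.2 ⟨by positivity, ?_⟩) hB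
      have := amgm (s := (∫ z, ‖(a + b).1 z‖ ^ 2 * E z) - (∫ z, ‖a.1 z‖ ^ 2 * E z) -
        ∫ z, ‖b.1 z‖ ^ 2 * E z) (n1 a) (n1 b) fun l hl => by
          rw [← integral_const_mul, ← integral_div, ← integral_sub' (i1 _) (i1 _),
            ← integral_sub ((i1 _).sub (i1 _)) (i1 _),
            ← integral_add ((i1 _).const_mul _) ((i1 _).div_const _)]
          refine integral_mono (((i1 _).sub (i1 _)).sub (i1 _))
            (((i1 _).const_mul _).add ((i1 _).div_const _)) fun z => ?_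
          simp only [Pi.sub_apply]
          have h1 : ‖(a + b).1 z‖ ^ 2 ≤ (‖a.1 z‖ + ‖b.1 z‖) ^ 2 :=
            pow_le_pow_left₀ (norm_nonneg _) (norm_add_le _ _) 2
          have h2 : 2 * ‖a.1 z‖ * ‖b.1 z‖ ≤ l * ‖a.1 z‖ ^ 2 + ‖b.1 z‖ ^ 2 / l := by
            rw [← sub_le_iff_le_add', le_div_iff₀ hl]
            nlinarith [sq_nonneg (l * ‖a.1 z‖ - ‖b.1 z‖)]
          have h3 := mul_le_mul_of_nonneg_right (show ‖(a + b).1 z‖ ^ 2 - ‖a.1 z‖ ^ 2 - ‖b.1 z‖ ^ 2
            ≤ l * ‖a.1 z‖ ^ 2 + ‖b.1 z‖ ^ 2 / l by linarith) (hE0 z)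
          calc _ = (‖(a + b).1 z‖ ^ 2 - ‖a.1 z‖ ^ 2 - ‖b.1 z‖ ^ 2) * E z := by ring
            _ ≤ _ := h3
            _ = _ := by ring
      nlinarith [Real.sq_sqrt (n1 a), Real.sq_sqrt (n1 b)])
    (fun c a => by
      have : ∫ z, ‖(c • a).1 z‖ ^ 2 * E z = ‖c‖ ^ 2 * ∫ z, ‖a.1 z‖ ^ 2 * E z := by
        rw [← integral_const_mul]
        congr 1; ext z; simp [mul_pow, mul_assoc]
      rw [this, Real.sqrt_mul (sq_nonneg _), Real.sqrt_sq (norm_nonneg _)]
      ring)
  let l0 : X →ₗ[ℂ] ℂ :=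
    { toFun := fun a => ∫ z, Φ z * a.1 z
      map_add' := fun a b => by rw [← integral_add (i2 a) (i2 b)]; simp [mul_add]
      map_smul' := fun c a => by simp [← integral_const_mul, mul_left_comm] }
  let Y : Submodule ℂ X :=
    { carrier := {a | ∃ β, ContDiff ℝ 2 β ∧ CS S β ∧ a.1 = Db β}
      add_mem' := by
        rintro a b ⟨β, h1, h2, h3⟩ ⟨β', h1', h2', h3'⟩
        refine ⟨β + β', h1.add h1', h2.add h2', funext fun z => ?_⟩
        rw [Submodule.coe_add, h3, h3']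
        exact (Db_add (h1.differentiable two_ne_zero z) (h1'.differentiable two_ne_zero z)).symm
      zero_mem' := ⟨fun _ => 0, contDiff_const, X.zero_mem.2, funext fun z => (Db_const 0).symm⟩
      smul_mem' := by
        rintro c a ⟨β, h1, h2, h3⟩
        refine ⟨fun z => β z * c, h1.mul contDiff_const, h2.of_zero fun z hz => by simp [hz],
          funext fun z => ?_⟩
        rw [Db_mul_hol (h1.differentiable two_ne_zero z) (differentiableAt_const c),
          Submodule.coe_smul, h3]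
        simp [mul_comm] }
  obtain ⟨G, hG, hGp⟩ := Module.Dual.exists_extension_of_le_seminorm Y (l0.domRestrict Y) (p := p)
    (by
      rintro ⟨a, β, h1, h2, h3⟩
      change ‖∫ z, Φ z * a.1 z‖ ≤ B * √(∫ z, ‖a.1 z‖ ^ 2 * E z)
      rw [h3]; exact H β h1 h2)
  obtain ⟨Λ, hΛ⟩ := LinearMap.exists_extend (l0 - G)
  have h1 : ∀ a : X, Λ a.1 = l0 a - G a := fun a => LinearMap.congr_fun hΛ a
  refine ⟨Λ, fun β hβ hβ' => ?_, fun a ha ha' => ?_⟩
  · rw [h1 ⟨_, Db_continuous hβ, hβ'.Db⟩, hG ⟨_, β, hβ, hβ', rfl⟩]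
    exact sub_self _
  · rw [h1 ⟨a, ha, ha'⟩]
    change ‖l0 ⟨a, ha, ha'⟩ - G ⟨a, ha, ha'⟩ - l0 ⟨a, ha, ha'⟩‖ ≤ p ⟨a, ha, ha'⟩
    simpa using hGp ⟨a, ha, ha'⟩

lemma sig_hasDeriv (s : ℝ) : HasDerivAt smoothTransition (deriv smoothTransition s) s :=
  ((smoothTransition.contDiff (n := 1)).differentiable one_ne_zero s).hasDerivAt

lemma sig'_cont : Continuous (deriv smoothTransition) :=
  (smoothTransition.contDiff (n := 1)).continuous_deriv le_rfl

lemma sig'_nonneg (s : ℝ) : 0 ≤ deriv smoothTransition s := smoothTransition.monotone.deriv_nonneg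

lemma sig'_mem {s : ℝ} (h : deriv smoothTransition s ≠ 0) : s ∈ Icc (0 : ℝ) 1 := by
  by_contra hn
  apply h
  rcases not_and_or.1 hn with h0 | h0
  · rw [(eventuallyEq_of_mem (Iio_mem_nhds (not_le.1 h0)) fun y hy =>
      smoothTransition.zero_of_nonpos (le_of_lt hy) : _ =ᶠ[_] fun _ => (0 : ℝ)).deriv_eq]
    simp
  · rw [(eventuallyEq_of_mem (Ioi_mem_nhds (not_le.1 h0)) fun y hy =>
      smoothTransition.one_of_one_le (le_of_lt hy) : _ =ᶠ[_] fun _ => (1 : ℝ)).deriv_eq]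
    simp

lemma sig'_bound : ∃ L : ℝ, 0 < L ∧ ∀ s, deriv smoothTransition s ≤ L := by
  obtain ⟨C, hC⟩ := (isCompact_Icc (a := (0 : ℝ)) (b := 1)).exists_bound_of_continuousOn
    sig'_cont.continuousOn
  refine ⟨|C| + 1, by positivity, fun s => ?_⟩
  by_cases h : deriv smoothTransition s = 0
  · rw [h]; positivity
  · linarith [hC s (sig'_mem h), le_abs_self C, Real.le_norm_self (deriv smoothTransition s)]

/-- A radial cutoff function. -/
noncomputable def cut (z : ℂ) (ε : ℝ) (y : ℂ) : ℂ :=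
  (1 + -1 * smoothTransition (2 / ε ^ 2 * ‖y - z‖ ^ 2 + -1) : ℝ)

/-- The reproducing kernel attached to `cut`. -/
noncomputable def ker (z : ℂ) (ε : ℝ) (y : ℂ) : ℝ :=
  4 / ε ^ 2 * deriv smoothTransition (2 / ε ^ 2 * ‖y - z‖ ^ 2 + -1)

lemma normsq_contDiff (z : ℂ) {n : WithTop ℕ∞} : ContDiff ℝ n fun y : ℂ => ‖y - z‖ ^ 2 :=
  (contDiff_id.sub contDiff_const).norm_sq ℝ

lemma cut_contDiff (z : ℂ) (ε : ℝ) : ContDiff ℝ 2 (cut z ε) :=
  Complex.ofRealCLM.contDiff.comp (contDiff_const.add (contDiff_const.mul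
    ((smoothTransition.contDiff (n := 2)).comp
      ((contDiff_const.mul (normsq_contDiff z)).add contDiff_const))))

lemma ker_cont (z : ℂ) (ε : ℝ) : Continuous (ker z ε) := by
  have := sig'_cont
  unfold ker
  fun_prop

lemma ker_nonneg (z : ℂ) (ε : ℝ) (y : ℂ) : 0 ≤ ker z ε y :=
  mul_nonneg (by positivity) (sig'_nonneg _)

lemma ker_mem {z y : ℂ} {ε : ℝ} (hε : 0 < ε) (h : ker z ε y ≠ 0) :
    ε / 2 ≤ ‖y - z‖ ∧ ‖y - z‖ ≤ ε := by
  obtain ⟨h1, h2⟩ := sig'_mem (right_ne_zero_of_mul h)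
  rw [div_mul_eq_mul_div, ← sub_eq_add_neg] at h1 h2
  rw [sub_nonneg, le_div_iff₀ (by positivity)] at h1
  rw [sub_le_iff_le_add, div_le_iff₀ (by positivity)] at h2
  exact ⟨by nlinarith [norm_nonneg (y - z)], by nlinarith [norm_nonneg (y - z)]⟩

lemma ker_off {z : ℂ} {ε : ℝ} (hε : 0 < ε) : ∀ y ∉ closedBall z ε, ker z ε y = 0 := by
  intro y hy
  by_contra h
  exact hy (by rw [mem_closedBall, dist_eq_norm]; exact (ker_mem hε h).2)

lemma cut_off {z : ℂ} {ε : ℝ} (hε : 0 < ε) : ∀ y ∉ closedBall z ε, cut z ε y = 0 := by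
  intro y hy
  rw [mem_closedBall, dist_eq_norm, not_le] at hy
  rw [cut, smoothTransition.one_of_one_le]
  · simp
  · rw [div_mul_eq_mul_div, ← sub_eq_add_neg, le_sub_iff_add_le, le_div_iff₀ (by positivity)]
    nlinarith

lemma cut_one {z y : ℂ} {ε : ℝ} (hε : 0 < ε) (hy : y ∈ ball z (ε / 2)) :
    cut z ε =ᶠ[𝓝 y] fun _ => 1 := by
  filter_upwards [isOpen_ball.mem_nhds hy] with w hw
  rw [mem_ball, dist_eq_norm] at hw
  rw [cut, smoothTransition.zero_of_nonpos]
  · simp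
  · rw [div_mul_eq_mul_div, ← sub_eq_add_neg, sub_nonpos, div_le_iff₀ (by positivity)]
    nlinarith [norm_nonneg (w - z)]

lemma Db_cut (z : ℂ) (ε : ℝ) (y : ℂ) : Db (cut z ε) y = -(ker z ε y * (y - z)) := by
  have d1 : DifferentiableAt ℝ (fun y : ℂ => ‖y - z‖ ^ 2) y :=
    (normsq_contDiff z (n := 1)).differentiable one_ne_zero y
  have d2 : DifferentiableAt ℝ (fun y : ℂ => 2 / ε ^ 2 * ‖y - z‖ ^ 2 + -1) y := by fun_prop
  have d3 : DifferentiableAt ℝ
      (fun y : ℂ => smoothTransition (2 / ε ^ 2 * ‖y - z‖ ^ 2 + -1)) y :=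
    (sig_hasDeriv _).differentiableAt.comp y d2
  have h1 : ∀ v, dd v (fun y : ℂ => ‖y - z‖ ^ 2) y =
      2 * ((y - z).re * v.re + (y - z).im * v.im) := by
    intro v
    rw [dd, show fderiv ℝ (fun y : ℂ => ‖y - z‖ ^ 2) y = _ from
      (((hasFDerivAt_id y).sub_const z).norm_sq).fderiv]
    simp [Complex.inner]; ring
  unfold cut ker
  rw [Db_ofReal (by fun_prop)]
  simp (disch := fun_prop) only [dd_add, dd_mul, dd_const, dd_comp (sig_hasDeriv _) d2, h1]
  apply Complex.ext <;>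
    simp only [Complex.add_re, Complex.add_im, Complex.mul_re, Complex.mul_im, Complex.neg_re,
      Complex.neg_im, Complex.ofReal_re, Complex.ofReal_im, Complex.I_re, Complex.I_im,
      Complex.one_re, Complex.one_im] <;> ring

end Pool.Agent.MP_26d9d0_an.H12

end MrgPart2

-- marker of a merged file
example : 731051 + 408533 = 731051 + 408533 := rfl
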