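import Mathlib.Analysis.Calculus.BumpFunction.Convolution
import Mathlib.Analysis.Complex.RemovableSingularity
import Mathlib.Analysis.Complex.ExponentialBounds
import Mathlib.Topology.TietzeExtension
import Mathlib.MeasureTheory.Measure.Lebesgue.VolumeOfBalls
import Mathlib.Topology.UniformSpace.Uniformizable
import Pool.Agent.MP_26d9d0_an.h12.Kernel

-- ======== part 0: formerly Pool.Agent.MP_26d9d0_an.h12.Moll
section MrgPart0

set_option autoImplicit false

open Filter Topology Metric Real Set MeasureTheory Convolution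

namespace Pool.Agent.MP_26d9d0_an.H12

lemma taylor2 {g : ℂ → ℝ} {x : ℂ} (hg : ContDiffAt ℝ 2 g x) {ε : ℝ} (hε : 0 < ε) :
    ∀ᶠ r in 𝓝[>] (0 : ℝ), ∀ z ∈ sphere x r, g z ≤ g x + fderiv ℝ g x (z - x) +
      2⁻¹ * fderiv ℝ (fderiv ℝ g) x (z - x) (z - x) + ε * r ^ 2 := by
  set D2 := fderiv ℝ (fderiv ℝ g) x with hD2
  have h1 : HasFDerivAt (fderiv ℝ g) D2 x :=
    ((hg.fderiv_right (m := 1) (by norm_num)).differentiableAt one_ne_zero).hasFDerivAt
  have h2 : ∀ᶠ y in 𝓝 x, DifferentiableAt ℝ g y :=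
    (hg.eventually (by simp)).mono fun y hy => hy.differentiableAt two_ne_zero
  have hs : ∀ v w, D2 v w = D2 w v := hg.isSymmSndFDerivAt (by simp)
  filter_upwards [ev_ball (h2.and (h1.isLittleO.def hε))] with r hr z hz
  have h3 := (convex_closedBall x r).norm_image_sub_le_of_norm_hasFDerivWithin_le' (𝕜 := ℝ)
    (f := fun y => g y - 2⁻¹ * D2 (y - x) (y - x)) (f' := fun y => fderiv ℝ g y - D2 (y - x))
    (φ := fderiv ℝ g x) (C := ε * r) (fun y hy => ?_) (fun y hy => ?_)
    (mem_closedBall_self hr.1.le) (sphere_subset_closedBall hz)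
  · rw [mem_sphere, dist_eq_norm] at hz
    rw [hz] at h3
    have := (abs_le.1 h3).2
    simp only [sub_self, map_zero, mul_zero, sub_zero] at this
    linarith
  · refine (HasFDerivAt.fun_sub (hr.2 y hy).1.hasFDerivAt ?_).hasFDerivWithinAt
    have h4 : HasFDerivAt (fun y => y - x) (ContinuousLinearMap.id ℝ ℂ) y :=
      (hasFDerivAt_id y).sub_const x
    refine (((D2.hasFDerivAt.comp y h4).clm_apply h4).const_mul 2⁻¹).congr_fderiv ?_
    ext v
    simp [hs v]; ring
  · have h4 := (hr.2 y hy).2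
    rw [mem_closedBall, dist_eq_norm] at hy
    rw [sub_right_comm]
    exact h4.trans (by gcongr)

lemma lap_nonneg {g : ℂ → ℝ} {x : ℂ} (hg : ContDiffAt ℝ 2 g x) (hs : SHAt g x) : 0 ≤ lap g x := by
  rw [lap, dd_dd hg, dd_dd hg]
  set D2 := fderiv ℝ (fderiv ℝ g) x with hD2
  set D1 := fderiv ℝ g x with hD1
  refine le_of_forall_pos_le_add fun ε hε => ?_
  obtain ⟨r, h1, h2, hr, h3⟩ := ((taylor2 hg (by positivity : 0 < ε / 4)).and
    (hs.2.and (ev_ball hs.1))).exists
  let P : ℂ → ℂ := fun z => (g x + (D2 1 1 + D2 Complex.I Complex.I + ε) / 4 * r ^ 2 : ℝ) +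
    ((D1 1 : ℝ) - Complex.I * (D1 Complex.I : ℝ)) * (z - x) +
    (((D2 1 1 - D2 Complex.I Complex.I) / 4 : ℝ) -
      Complex.I * ((D2 1 Complex.I + D2 Complex.I 1) / 4 : ℝ)) * ((z - x) * (z - x))
  have h4 := avg_mono hr.le (g := fun z => (P z).re) (ci_of hr.le h3)
    (ci_of hr.le fun y _ => by fun_prop) fun z hz => (h1 z hz).trans (le_of_eq (by
      rw [mem_sphere, dist_eq_norm] at hz
      have h5 : r ^ 2 = (z - x).re ^ 2 + (z - x).im ^ 2 := by
        rw [← hz, Complex.sq_norm, Complex.normSq_apply]; ring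
      simp only [P, ← hD1, ← hD2]
      generalize z - x = y at h5 ⊢
      have h6 : y = y.re • (1 : ℂ) + y.im • Complex.I := by simp
      conv_lhs => rw [h6]
      simp only [map_add, map_smul, add_apply, smul_apply,
        smul_eq_mul, Complex.add_re, Complex.mul_re, Complex.mul_im, Complex.sub_re, Complex.sub_im,
        Complex.ofReal_re, Complex.ofReal_im, Complex.I_re, Complex.I_im, h5]
      ring))
  rw [avg_re hr.le fun y _ => by fun_prop] at h4
  simp only [P, sub_self, mul_zero, add_zero, Complex.ofReal_re] at h4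
  have h5 : 0 ≤ (D2 1 1 + D2 Complex.I Complex.I + ε) / 4 * r ^ 2 := by linarith
  have h6 := nonneg_of_mul_nonneg_left h5 (by positivity)
  linarith

lemma mollify {S K : Set ℂ} (hS : IsOpen S) {ψ : ℂ → ℝ} (hψ : ∀ z ∈ S, SHAt ψ z)
    (hK : IsCompact K) (hKS : K ⊆ S) {ε : ℝ} (hε : 0 < ε) :
    ∃ g : ℂ → ℝ, ContDiff ℝ 2 g ∧ ∀ z ∈ K, |g z - ψ z| ≤ ε ∧ 0 ≤ lap g z := by
  obtain ⟨ρ, hρ, hρS⟩ := hK.exists_cthickening_subset_open hS hKS
  have hK' : IsCompact (cthickening ρ K) := hK.cthickening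
  have hc : ContinuousOn ψ (cthickening ρ K) := fun z hz =>
    (hψ z (hρS hz)).cont.continuousWithinAt
  obtain ⟨η, hη, hu⟩ := Metric.uniformContinuousOn_iff.1
    (hK'.uniformContinuousOn_of_continuous hc) ε hε
  obtain ⟨f, hf⟩ := ContinuousMap.exists_restrict_eq hK'.isClosed
    (⟨_, hc.domRestrict⟩ : C(cthickening ρ K, ℝ))
  have hfψ : ∀ z ∈ cthickening ρ K, f z = ψ z := fun z hz => DFunLike.congr_fun hf ⟨z, hz⟩
  have hm : ∀ z ∈ K, ∀ y, dist y z ≤ ρ → y ∈ cthickening ρ K := fun z hz y hy =>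
    mem_cthickening_of_dist_le y z ρ K hz hy
  set s := min η (ρ / 2) with hs
  have hs0 : 0 < s := lt_min hη (half_pos hρ)
  have hs1 : s ≤ ρ / 2 := min_le_right _ _
  let φ : ContDiffBump (0 : ℂ) := ⟨s / 2, s, half_pos hs0, half_lt_self hs0⟩
  have hφ : ∀ y, φ.normed volume y ≠ 0 → ‖y‖ < s := fun y hy => by
    have : y ∈ Function.support (φ.normed volume) := hy
    rwa [φ.support_normed_eq, mem_ball_zero_iff] at this
  have hg : ContDiff ℝ 2 (φ.normed volume ⋆[ContinuousLinearMap.lsmul ℝ ℝ, volume] f : ℂ → ℝ) :=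
    φ.hasCompactSupport_normed.contDiff_convolution_left _ φ.contDiff_normed
      f.continuous.locallyIntegrable
  refine ⟨_, hg, fun z hz => ⟨?_, lap_nonneg hg.contDiffAt
    ⟨Eventually.of_forall fun _ => hg.continuous.continuousAt, ?_⟩⟩⟩
  · have hz' := hm z hz z (by simpa using hρ.le)
    rw [← hfψ z hz', ← Real.dist_eq]
    refine φ.dist_normed_convolution_le f.continuous.aestronglyMeasurable fun x hx => ?_
    have hx1 : dist x z < s := hx
    have hx' := hm z hz x (by linarith)
    rw [hfψ x hx', hfψ z hz']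
    exact (hu x hx' z hz' (hx1.trans_le (min_le_left _ _))).le
  · filter_upwards [Ioo_mem_nhdsGT (half_pos hρ)] with r hr
    obtain ⟨C, hC⟩ := hK'.exists_bound_of_continuousOn f.continuous.continuousOn
    have hφc : Continuous (φ.normed volume) := φ.continuous_normed
    have hi : Integrable (Function.uncurry fun (θ : ℝ) (y : ℂ) =>
        φ.normed volume y • f (circleMap z r θ - y))
        ((volume.restrict (uIoc 0 (2 * π))).prod volume) := by
      refine Integrable.mono' (Integrable.mul_prod (f := fun _ : ℝ => C)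
        (integrableOn_const (by simp [uIoc]))
        φ.integrable_normed) (Continuous.aestronglyMeasurable (by
          have := continuous_circleMap z r
          fun_prop)) (Eventually.of_forall fun p => ?_)
      simp only [Function.uncurry, smul_eq_mul, norm_mul, Real.norm_eq_abs,
        abs_of_nonneg (φ.nonneg_normed p.2)]
      by_cases h0 : φ.normed volume p.2 = 0
      · simp [h0]
      rw [mul_comm]
      refine mul_le_mul_of_nonneg_right (hC _ (hm z hz _ ?_)) (φ.nonneg_normed _)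
      have h1 : dist (circleMap z r p.1) z = r := circleMap_mem_sphere z hr.1.le p.1
      have h2 := hφ _ h0
      rw [dist_eq_norm] at h1 ⊢
      rw [sub_right_comm]
      linarith [norm_sub_le (circleMap z r p.1 - z) p.2, hr.2]
    simp only [circleAverage, convolution_lsmul]
    rw [intervalIntegral_integral_swap hi, ← integral_smul]
    refine integral_mono ?_ (hi.integral_prod_right.smul (2 * π)⁻¹ |>.congr (Eventually.of_forall
      fun y => ?_)) fun y => ?_
    · exact (hφc.smul (by fun_prop)).integrable_of_hasCompactSupport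
        φ.hasCompactSupport_normed.smul_right
    · simp [intervalIntegral.integral_of_le two_pi_pos.le, uIoc_of_le two_pi_pos.le]
    · by_cases h0 : φ.normed volume y = 0
      · simp [h0]
      have h2 := hφ _ h0
      have h3 : ∀ w ∈ closedBall (z - y) r, w ∈ cthickening ρ K := fun w hw => hm z hz w (by
        rw [mem_closedBall, dist_eq_norm] at hw
        rw [dist_eq_norm]
        have := norm_sub_le (w - (z - y)) y
        rw [show w - (z - y) - y = w - z by ring] at this
        linarith [hr.2])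
      have h4 := submean hr.1 fun w hw => hψ w (hρS (h3 w hw))
      rw [← hfψ _ (h3 _ (mem_closedBall_self hr.1.le)), ← circleAverage_congr_sphere (f₁ := f)
        (fun w hw => hfψ w (h3 w (sphere_subset_closedBall (by rwa [abs_of_pos hr.1] at hw))))]
        at h4
      simp only [intervalIntegral.integral_smul]
      rw [smul_comm]
      refine smul_le_smul_of_nonneg_left (h4.trans (le_of_eq ?_)) (φ.nonneg_normed _)
      simp only [circleAverage, circleMap, add_sub_right_comm]

/-- The a priori inequality for a continuous subharmonic weight plus a smooth weight. -/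
lemma apriori {S K : Set ℂ} (hS : IsOpen S) (hK : IsCompact K) (hKS : K ⊆ S) {ψ Ψ : ℂ → ℝ}
    (hψ : ∀ z ∈ S, SHAt ψ z) (hΨ : ∀ z ∈ S, ContDiffAt ℝ 2 Ψ z) {κ : ℂ → ℝ}
    (hκ : ∀ z ∈ S, ContinuousAt κ z ∧ 0 ≤ κ z ∧ κ z ≤ lap Ψ z)
    {β : ℂ → ℂ} (hβ : ContDiff ℝ 2 β) (h0 : ∀ z ∉ K, β z = 0) :
    ∫ z, κ z * (‖β z‖ ^ 2 * exp (ψ z + Ψ z)) ≤ ∫ z, ‖Db β z‖ ^ 2 * exp (ψ z + Ψ z) := by
  have hD0 := Db_zero_off hK.isClosed h0
  have hc : ∀ z ∈ K, ContinuousAt (fun z => exp (ψ z + Ψ z)) z := fun z hz =>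
    ((hψ z (hKS hz)).cont.add (hΨ z (hKS hz)).continuousAt).rexp
  have hβc : ∀ z, ContinuousAt (fun z => ‖β z‖ ^ 2) z := fun z =>
    hβ.continuous.continuousAt.norm.pow 2
  have hDc : ∀ z, ContinuousAt (fun z => ‖Db β z‖ ^ 2) z := fun z =>
    (Db_continuousAt (hβ.contDiffAt.of_le (by norm_num))).norm.pow 2
  have i1 : Integrable fun z => κ z * (‖β z‖ ^ 2 * exp (ψ z + Ψ z)) :=
    integrable_of hK (fun z hz => (hκ z (hKS hz)).1.mul ((hβc z).mul (hc z hz)))
      fun z hz => by simp [h0 z hz]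
  have i2 : Integrable fun z => ‖Db β z‖ ^ 2 * exp (ψ z + Ψ z) :=
    integrable_of hK (fun z hz => (hDc z).mul (hc z hz)) fun z hz => by simp [hD0 z hz]
  have key : ∀ ε > 0, exp (-ε) * ∫ z, κ z * (‖β z‖ ^ 2 * exp (ψ z + Ψ z)) ≤
      exp ε * ∫ z, ‖Db β z‖ ^ 2 * exp (ψ z + Ψ z) := by
    intro ε hε
    obtain ⟨g, hg, h1⟩ := mollify hS hψ hK hKS hε
    have h2 : ∀ z ∈ K, ContDiffAt ℝ 2 (fun z => g z + Ψ z) z := fun z hz =>
      hg.contDiffAt.add (hΨ z (hKS hz))
    have h3 : ∀ z ∈ K, κ z ≤ lap (fun z => g z + Ψ z) z := by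
      intro z hz
      have h4 : ∀ v, dd v (dd v fun z => g z + Ψ z) z = dd v (dd v g) z + dd v (dd v Ψ) z := by
        intro v
        rw [← dd_add ((dd_contDiffAt (n := 1) hg.contDiffAt).differentiableAt (by norm_num))
          ((dd_contDiffAt (n := 1) (hΨ z (hKS hz))).differentiableAt (by norm_num))]
        refine (dd_congr ?_ v).self_of_nhds
        filter_upwards [hS.mem_nhds (hKS hz)] with y hy
        exact dd_add (hg.differentiable two_ne_zero y) ((hΨ y hy).differentiableAt two_ne_zero)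
      have h5 := (h1 z hz).2
      have h6 := (hκ z (hKS hz)).2.2
      unfold lap at *
      rw [h4, h4]
      linarith
    rw [← integral_const_mul, ← integral_const_mul]
    refine le_trans (integral_mono (i1.const_mul _) ?_ fun z => ?_)
      ((apriori0 hK h2 hβ h0).trans (integral_mono ?_ (i2.const_mul _) fun z => ?_))
    · exact integrable_of hK (fun z hz => ((dd_contDiffAt (n := 0) (dd_contDiffAt (n := 1)
        (h2 z hz))).continuousAt.add (dd_contDiffAt (n := 0) (dd_contDiffAt (n := 1)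
        (h2 z hz))).continuousAt).mul ((hβc z).mul (h2 z hz).continuousAt.rexp))
        fun z hz => by simp [h0 z hz]
    · by_cases hz : z ∈ K
      swap
      · simp [h0 z hz]
      have h4 : exp (-ε) * exp (ψ z + Ψ z) ≤ exp (g z + Ψ z) := by
        rw [← exp_add, exp_le_exp]; linarith [(abs_le.1 (h1 z hz).1).1]
      have h5 := (hκ z (hKS hz)).2.1
      calc exp (-ε) * (κ z * (‖β z‖ ^ 2 * exp (ψ z + Ψ z)))
          = κ z * (‖β z‖ ^ 2 * (exp (-ε) * exp (ψ z + Ψ z))) := by ring
        _ ≤ κ z * (‖β z‖ ^ 2 * exp (g z + Ψ z)) := by gcongr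
        _ ≤ _ := by gcongr; exact h3 z hz
    · exact integrable_of hK (fun z hz => (hDc z).mul (h2 z hz).continuousAt.rexp)
        fun z hz => by simp [hD0 z hz]
    · by_cases hz : z ∈ K
      swap
      · simp [hD0 z hz]
      have h4 : exp (g z + Ψ z) ≤ exp ε * exp (ψ z + Ψ z) := by
        rw [← exp_add, exp_le_exp]; linarith [(abs_le.1 (h1 z hz).1).2]
      calc ‖Db β z‖ ^ 2 * exp (g z + Ψ z) ≤ ‖Db β z‖ ^ 2 * (exp ε * exp (ψ z + Ψ z)) := by gcongr
        _ = _ := by ring
  have t1 : Tendsto (fun ε : ℝ => exp (-ε) * ∫ z, κ z * (‖β z‖ ^ 2 * exp (ψ z + Ψ z))) (𝓝[>] 0)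
      (𝓝 _) := (ContinuousAt.tendsto (by fun_prop)).mono_left nhdsWithin_le_nhds
  have t2 : Tendsto (fun ε : ℝ => exp ε * ∫ z, ‖Db β z‖ ^ 2 * exp (ψ z + Ψ z)) (𝓝[>] 0)
      (𝓝 _) := (ContinuousAt.tendsto (by fun_prop)).mono_left nhdsWithin_le_nhds
  simpa using le_of_tendsto_of_tendsto t1 t2 (eventually_nhdsWithin_of_forall key)

end Pool.Agent.MP_26d9d0_an.H12

end MrgPart0

-- ======== part 1: formerly Pool.Agent.MP_26d9d0_an.h12.Solve
section MrgPart1

set_option autoImplicit false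

open Filter Topology Metric Real Set MeasureTheory

namespace Pool.Agent.MP_26d9d0_an.H12

lemma kerC_cont (z : ℂ) (ε : ℝ) : Continuous fun y => (ker z ε y : ℂ) :=
  Complex.continuous_ofReal.comp (ker_cont z ε)

lemma cut_indep {S : Set ℂ} {Λ : (ℂ → ℂ) → ℂ} (hadd : ∀ a b, Continuous a → CS S a →
      Continuous b → CS S b → Λ (a + b) = Λ a + Λ b)
    (hΛ : ∀ β, ContDiff ℝ 2 β → CS S β → Λ (Db β) = 0) {z x : ℂ} {ε η : ℝ} (hε : 0 < ε)
    (hη : 0 < η) (h1 : closedBall z ε ⊆ S) (h2 : closedBall x η ⊆ S) (hz : z ∈ ball x (η / 2)) :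
    Λ (fun y => ker z ε y) = Λ fun y => ker x η y * ((y - x) / (y - z)) := by
  let β : ℂ → ℂ := fun y => (cut z ε y + -1 * cut x η y) * (y - z)⁻¹
  have hc : ContDiff ℝ 2 fun y => cut z ε y + -1 * cut x η y :=
    (cut_contDiff z ε).add (contDiff_const.mul (cut_contDiff x η))
  have h0 : β =ᶠ[𝓝 z] fun _ => 0 := by
    filter_upwards [cut_one hε (mem_ball_self (half_pos hε)), cut_one hη hz] with y h3 h4
    simp [β, h3, h4]
  have hβ : ContDiff ℝ 2 β := by
    refine contDiff_iff_contDiffAt.2 fun y => ?_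
    by_cases hy : y = z
    · rw [hy]; exact contDiffAt_const.congr_of_eventuallyEq h0
    · exact hc.contDiffAt.mul ((contDiffAt_id.sub contDiffAt_const).inv (sub_ne_zero.2 hy))
  have hS : CS S β := ⟨_, (isCompact_closedBall z ε).union (isCompact_closedBall x η),
    union_subset h1 h2, fun y hy => by
      simp [β, cut_off hε y fun h => hy (Or.inl h), cut_off hη y fun h => hy (Or.inr h)]⟩
  have hk : ker z ε z = 0 := by
    by_contra h
    have := (ker_mem hε h).1
    simp at this
    linarith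
  have h3 : (fun y => (ker x η y : ℂ) * ((y - x) / (y - z))) = (fun y => (ker z ε y : ℂ)) + Db β := by
    funext y
    by_cases hy : y = z
    · rw [hy, Pi.add_apply, Db_congr h0, Db_const, hk]; simp
    · have hy' := sub_ne_zero.2 hy
      have d1 := (cut_contDiff z ε).differentiable two_ne_zero y
      have d2 := (cut_contDiff x η).differentiable two_ne_zero y
      rw [Pi.add_apply, show Db β y = _ from Db_mul_hol (g := fun y => (y - z)⁻¹)
        (hc.differentiable two_ne_zero y)
        ((differentiableAt_id.sub_const z).inv hy'), Db_add d1 (d2.const_mul _),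
        Db_mul (differentiableAt_const _) d2, Db_const, Db_cut, Db_cut]
      field_simp
      ring
  rw [h3, hadd _ _ (kerC_cont z ε)
    ⟨_, isCompact_closedBall z ε, h1, fun y hy => by simp [ker_off hε y hy]⟩
    (Db_continuous hβ) hS.Db, hΛ β hβ hS, add_zero]

lemma ker_integrable (z : ℂ) {ε : ℝ} (hε : 0 < ε) : Integrable (ker z ε) :=
  integrable_of (isCompact_closedBall z ε) (fun _ _ => (ker_cont z ε).continuousAt) (ker_off hε)

lemma integral_ker (z : ℂ) {ε : ℝ} (hε : 0 < ε) : ∫ y, ker z ε y = ∫ y, ker 0 1 y := by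
  have h1 := cut_indep (S := univ) (Λ := fun a => ∫ y, a y)
    (fun a b ha ha' hb hb' => integral_add' (ha'.integrable (fun _ _ => ha.continuousAt)
      fun _ h => h) (hb'.integrable (fun _ _ => hb.continuousAt) fun _ h => h))
    (fun β hβ ⟨K, hK, _, h0⟩ => integral_Db hK (fun y _ => hβ.contDiffAt.of_le (by norm_num)) h0)
    hε one_pos (subset_univ _) (subset_univ _) (mem_ball_self (x := z) (by norm_num))
  have h2 : ∫ y, (ker z 1 y : ℂ) * ((y - z) / (y - z)) = ∫ y, (ker z 1 y : ℂ) := by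
    congr 1; funext y
    by_cases hk : ker z 1 y = 0
    · simp [hk]
    · have := (ker_mem one_pos hk).1
      rw [div_self (norm_pos_iff.1 (by linarith)), mul_one]
  simp only at h1
  rw [h2, integral_complex_ofReal, integral_complex_ofReal] at h1
  rw [Complex.ofReal_injective h1, ← integral_sub_right_eq_self (ker 0 1) z]
  simp [ker]

lemma integral_ker_pos : 0 < ∫ y, ker 0 1 y := by
  obtain ⟨s, hs, h⟩ := exists_deriv_eq_slope smoothTransition zero_lt_one
    smoothTransition.continuous.continuousOn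
    ((smoothTransition.contDiff (n := 1)).differentiable one_ne_zero).differentiableOn
  refine (ker_cont 0 1).integral_pos_of_hasCompactSupport_nonneg_nonzero
    (HasCompactSupport.intro (isCompact_closedBall 0 1) (ker_off one_pos)) (ker_nonneg 0 1)
    (x := (√((s + 1) / 2) : ℝ)) ?_
  have : 2 / 1 ^ 2 * ‖((√((s + 1) / 2) : ℝ) : ℂ) - 0‖ ^ 2 + -1 = s := by
    rw [sub_zero, Complex.norm_real, Real.norm_eq_abs, sq_abs, Real.sq_sqrt (by linarith [hs.1])]
    ring
  rw [ker, this, h]
  simp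

lemma ker_reproduce {z : ℂ} {ε : ℝ} (hε : 0 < ε) {h : ℂ → ℂ}
    (hh : ∀ y ∈ closedBall z ε, AnalyticAt ℂ h y) :
    ∫ y, h y * ker z ε y = (∫ y, ker 0 1 y : ℝ) * h z := by
  have hO := isOpen_analyticAt ℂ h
  have h1 : DifferentiableOn ℂ (dslope h z) {y | AnalyticAt ℂ h y} :=
    (Complex.differentiableOn_dslope (hO.mem_nhds (hh z (mem_closedBall_self hε.le)))).2
      fun y hy => hy.differentiableAt.differentiableWithinAt
  have h2 : ∀ y ∈ closedBall z ε, AnalyticAt ℂ (dslope h z) y := fun y hy =>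
    h1.analyticAt (hO.mem_nhds (hh y hy))
  have h3 : ∀ y ∈ closedBall z ε, ContDiffAt ℝ 1 (fun y => cut z ε y * dslope h z y) y :=
    fun y hy => ((cut_contDiff z ε).contDiffAt.of_le (by norm_num)).mul
      ((h2 y hy).contDiffAt.restrict_scalars ℝ)
  have h4 : ∀ y ∉ closedBall z ε, cut z ε y * dslope h z y = 0 := fun y hy => by
    simp [cut_off hε y hy]
  have h5 := integral_Db (isCompact_closedBall z ε) h3 h4
  have h6 : ∀ y, Db (fun y => cut z ε y * dslope h z y) y = ker z ε y * h z - h y * ker z ε y := by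
    intro y
    by_cases hy : y ∈ closedBall z ε
    · rw [Db_mul_hol ((cut_contDiff z ε).differentiable two_ne_zero y) (h2 y hy).differentiableAt,
        Db_cut]
      have := sub_smul_dslope h z y
      rw [smul_eq_mul] at this
      linear_combination (-ker z ε y : ℂ) * this
    · rw [Db_zero_off isClosed_closedBall h4 y hy, ker_off hε y hy]; simp
  simp_rw [h6] at h5
  have i1 : Integrable fun y => h y * ker z ε y := integrable_of
    (isCompact_closedBall z ε) (fun y hy => (hh y hy).continuousAt.mul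
      (kerC_cont z ε).continuousAt) fun y hy => by simp [ker_off hε y hy]
  have i2 : Integrable fun y => ker z ε y * h z := (ker_integrable z hε).ofReal.mul_const _
  rw [integral_sub i2 i1, integral_mul_const, integral_complex_ofReal,
    integral_ker z hε, sub_eq_zero] at h5
  exact h5.symm

/-- Solution of the Cauchy-Riemann equation with pointwise estimates. -/
theorem solve0 : ∃ C0 : ℝ, 0 < C0 ∧ ∀ {S : Set ℂ} (_ : IsOpen S) {E : ℂ → ℝ}
    (_ : ∀ z ∈ S, ContinuousAt E z) (_ : ∀ z, 0 ≤ E z) {Φ : ℂ → ℂ}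
    (_ : ∀ z ∈ S, ContinuousAt Φ z) {B : ℝ} (_ : 0 ≤ B)
    (_ : ∀ β, ContDiff ℝ 2 β → CS S β → ‖∫ z, Φ z * Db β z‖ ≤ B * √(∫ z, ‖Db β z‖ ^ 2 * E z)),
    ∃ w : ℂ → ℂ, (∀ z ∈ S, DifferentiableAt ℂ w z) ∧ ∀ (z : ℂ) (ε : ℝ) (h : ℂ → ℂ) (m1 m2 : ℝ),
      0 < ε → closedBall z ε ⊆ S → (∀ y ∈ closedBall z ε, AnalyticAt ℂ h y) →
      (∀ y ∈ closedBall z ε, ‖Φ y - h y‖ ≤ m1) → 0 ≤ m2 → (∀ y ∈ closedBall z ε, E y ≤ m2 ^ 2) →
      ‖w z - h z‖ ≤ m1 + C0 * B * m2 / ε := by
  obtain ⟨L, hL, hL'⟩ := sig'_bound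
  set c := ∫ y, ker 0 1 y with hc
  have hc0 : 0 < c := integral_ker_pos
  refine ⟨2 * √(L * c) / c, by positivity, fun {S} hS {E} hE hE0 {Φ} hΦ {B} hB H => ?_⟩
  obtain ⟨Λ, hΛ, hΛ'⟩ := exists_Lambda hE hE0 hΦ hB H
  have dom : ∀ (z : ℂ) (ε : ℝ) (h a : ℂ → ℂ) (m1 m2 s : ℝ), 0 < ε → closedBall z ε ⊆ S →
      (∀ y ∈ closedBall z ε, ContinuousAt h y) → (∀ y ∈ closedBall z ε, ‖Φ y - h y‖ ≤ m1) →
      0 ≤ m2 → (∀ y ∈ closedBall z ε, E y ≤ m2 ^ 2) → Continuous a → 0 ≤ s →
      (∀ y, ‖a y‖ ≤ s * ker z ε y) →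
      ‖Λ a - ∫ y, h y * a y‖ ≤ s * (c * m1 + B * (2 * √(L * c) * m2 / ε)) := by
    intro z ε h a m1 m2 s hε hz hh h1 hm h2 ha hs h3
    have h0 : ∀ y ∉ closedBall z ε, a y = 0 := fun y hy => by
      simpa [ker_off hε y hy] using h3 y
    have hK := isCompact_closedBall z ε
    have h4 := hΛ' a ha ⟨_, hK, hz, h0⟩
    have h5 : √(∫ y, ‖a y‖ ^ 2 * E y) ≤ s * (2 * √(L * c) * m2 / ε) := by
      refine Real.sqrt_le_iff.2 ⟨by positivity, ?_⟩
      have h6 : ∫ y, ‖a y‖ ^ 2 * E y ≤ ∫ y, s ^ 2 * (4 / ε ^ 2 * L * m2 ^ 2) * ker z ε y := by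
        refine integral_mono (integrable_of hK (fun y hy => (ha.continuousAt.norm.pow 2).mul
          (hE y (hz hy))) fun y hy => by simp [h0 y hy]) ((ker_integrable z hε).const_mul _)
          fun y => ?_
        by_cases hy : y ∈ closedBall z ε
        swap
        · simp [h0 y hy, ker_off hε y hy]
        have h7 : ker z ε y ≤ 4 / ε ^ 2 * L := by unfold ker; gcongr; exact hL' _
        have h8 := ker_nonneg z ε y
        calc ‖a y‖ ^ 2 * E y ≤ (s * ker z ε y) ^ 2 * m2 ^ 2 := by
              gcongr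
              · exact hE0 y
              · exact h3 y
              · exact h2 y hy
          _ = s ^ 2 * (ker z ε y * m2 ^ 2) * ker z ε y := by ring
          _ ≤ _ := by gcongr
      rw [integral_const_mul, integral_ker z hε] at h6
      refine h6.trans (le_of_eq ?_)
      rw [mul_pow, div_pow, mul_pow, mul_pow, Real.sq_sqrt (by positivity)]
      ring
    have h6 : ‖(∫ y, Φ y * a y) - ∫ y, h y * a y‖ ≤ s * (c * m1) := by
      have i1 : Integrable fun y => Φ y * a y := integrable_of hK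
        (fun y hy => (hΦ y (hz hy)).mul ha.continuousAt) fun y hy => by simp [h0 y hy]
      have i2 : Integrable fun y => h y * a y := integrable_of hK
        (fun y hy => (hh y hy).mul ha.continuousAt) fun y hy => by simp [h0 y hy]
      rw [← integral_sub i1 i2]
      refine (norm_integral_le_of_norm_le ((ker_integrable z hε).const_mul (m1 * s))
        (Eventually.of_forall fun y => ?_)).trans (le_of_eq ?_)
      · by_cases hy : y ∈ closedBall z ε
        swap
        · simp [h0 y hy, ker_off hε y hy]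
        rw [← sub_mul, norm_mul, mul_assoc]
        exact mul_le_mul (h1 y hy) (h3 y) (norm_nonneg _) ((norm_nonneg _).trans (h1 y hy))
      · rw [integral_const_mul, integral_ker z hε]; ring
    have h7 := mul_le_mul_of_nonneg_left h5 hB
    linarith [norm_sub_le_norm_sub_add_norm_sub (Λ a) (∫ y, Φ y * a y) (∫ y, h y * a y)]
  have hr : ∀ z, ∃ r, z ∈ S → 0 < r ∧ closedBall z r ⊆ S := fun z => by
    by_cases hz : z ∈ S
    · obtain ⟨r, h1, h2⟩ := (ev_ball (hS.mem_nhds hz)).exists
      exact ⟨r, fun _ => ⟨h1, h2⟩⟩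
    · exact ⟨0, fun h => absurd h hz⟩
  choose r hr using hr
  have hw : ∀ x η, 0 < η → closedBall x η ⊆ S → ∀ z ∈ ball x (η / 2),
      Λ (fun y => ker z (r z) y) = Λ fun y => ker x η y * ((y - x) / (y - z)) := by
    intro x η hη hx z hz
    have hzS := hr z (hx (ball_subset_closedBall (ball_subset_ball (by linarith) hz)))
    exact cut_indep (fun a b _ _ _ _ => map_add Λ a b) hΛ hzS.1 hη hzS.2 hx hz
  have hkk : ∀ (x : ℂ) (η : ℝ), 0 < η →
      (fun y => (ker x η y : ℂ) * ((y - x) / (y - x))) = fun y => (ker x η y : ℂ) := by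
    intro x η hη
    funext y
    by_cases hk : ker x η y = 0
    · simp [hk]
    · have := (ker_mem hη hk).1
      rw [div_self (norm_pos_iff.1 (by linarith)), mul_one]
  have hcont : ∀ (x : ℂ) (η : ℝ) (g : ℂ → ℂ), 0 < η → (∀ y, η / 4 < ‖y - x‖ → ContinuousAt g y) →
      Continuous fun y => (ker x η y : ℂ) * g y := by
    intro x η g hη hg
    refine continuous_iff_continuousAt.2 fun y => ?_
    by_cases hy : η / 4 < ‖y - x‖
    · exact (Complex.continuous_ofReal.comp (ker_cont x η)).continuousAt.mul (hg y hy)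
    · refine (continuousAt_const (y := 0)).congr ?_
      filter_upwards [(by fun_prop : ContinuousAt (fun y => ‖y - x‖) y).eventually
        (gt_mem_nhds (show ‖y - x‖ < η / 2 by linarith))] with w hw
      have : ker x η w = 0 := by
        by_contra h
        linarith [(ker_mem hη h).1]
      simp [this]
  refine ⟨fun z => Λ (fun y => ker z (r z) y) / c, fun x hx => ?_,
    fun z ε h m1 m2 hε hz hh h1 hm h2 => ?_⟩
  · obtain ⟨hη, hxS⟩ := hr x hx
    set η := r x
    obtain ⟨m1, hm1⟩ := (isCompact_closedBall x η).exists_bound_of_continuousOn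
      fun y hy => (hΦ y (hxS hy)).continuousWithinAt
    obtain ⟨m2, hm2⟩ := (isCompact_closedBall x η).exists_bound_of_continuousOn
      fun y hy => (hE y (hxS hy)).continuousWithinAt
    refine DifferentiableAt.div_const (HasDerivAt.differentiableAt
      (f' := Λ fun y => ker x η y * (y - x)⁻¹) ?_) _
    rw [hasDerivAt_iff_isLittleO]
    refine Asymptotics.IsBigO.trans_isLittleO (g := fun z => ‖z - x‖ ^ 2)
      (Asymptotics.IsBigO.of_bound (8 / η ^ 2 * (c * m1 + B * (2 * √(L * c) * (|m2| + 1) / η)))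
        ?_) (Asymptotics.isLittleO_pow_sub_sub x one_lt_two)
    filter_upwards [ball_mem_nhds x (by positivity : 0 < η / 4)] with z hz
    have hz' : ‖z - x‖ < η / 4 := by rwa [mem_ball, dist_eq_norm] at hz
    have hne : ∀ y, η / 4 < ‖y - x‖ → y - x ≠ 0 ∧ y - z ≠ 0 := fun y hy =>
      ⟨norm_pos_iff.1 (by linarith), fun h => by rw [sub_eq_zero.1 h] at hy; linarith⟩
    have h3 := dom x η (fun _ => 0) (fun y => ker x η y * ((z - x) ^ 2 / ((y - x) * (y - z))))
      m1 (|m2| + 1) (8 / η ^ 2 * ‖z - x‖ ^ 2) hη hxS (fun _ _ => continuousAt_const)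
      (fun y hy => by simpa using hm1 y hy) (by positivity)
      (fun y hy => by
        nlinarith [hm2 y hy, Real.le_norm_self (E y), le_abs_self m2, abs_nonneg m2])
      (hcont x η _ hη fun y hy => ContinuousAt.div (f := fun _ => (z - x) ^ 2)
        (g := fun y => (y - x) * (y - z)) continuousAt_const (by fun_prop)
        (mul_ne_zero (hne y hy).1 (hne y hy).2)) (by positivity) fun y => by
        by_cases hk : ker x η y = 0
        · simp [hk]
        have h4 := (ker_mem hη hk).1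
        have h5 : η / 4 ≤ ‖y - z‖ := by
          linarith [norm_sub_le_norm_sub_add_norm_sub y z x]
        rw [norm_mul, Complex.norm_real, Real.norm_eq_abs, abs_of_nonneg (ker_nonneg _ _ _),
          mul_comm, norm_div, norm_pow, norm_mul]
        refine mul_le_mul_of_nonneg_right ?_ (ker_nonneg _ _ _)
        calc ‖z - x‖ ^ 2 / (‖y - x‖ * ‖y - z‖) ≤ ‖z - x‖ ^ 2 / (η / 2 * (η / 4)) := by gcongr
          _ = _ := by field_simp; ring
    rw [hw x η hη hxS z (ball_subset_ball (by linarith) hz), ← map_smul, ← map_sub, ← map_sub]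
    have h4 : (((fun y => (ker x η y : ℂ) * ((y - x) / (y - z))) - fun y => (ker x η y : ℂ)) -
        (z - x) • fun y => (ker x η y : ℂ) * (y - x)⁻¹) =
        fun y => ker x η y * ((z - x) ^ 2 / ((y - x) * (y - z))) := by
      funext y
      by_cases hk : ker x η y = 0
      · simp [hk]
      obtain ⟨h5, h6⟩ := hne y (by linarith [(ker_mem hη hk).1])
      simp only [Pi.sub_apply, Pi.smul_apply, smul_eq_mul]
      field_simp
      ring
    rw [h4, Real.norm_of_nonneg (by positivity)]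
    simp only [zero_mul, integral_zero, sub_zero] at h3
    linarith
  · have h3 := dom z ε h (fun y => ker z ε y) m1 m2 1 hε hz (fun y hy => (hh y hy).continuousAt)
      h1 hm h2 (Complex.continuous_ofReal.comp (ker_cont z ε)) zero_le_one fun y => by
        simp [abs_of_nonneg (ker_nonneg z ε y)]
    rw [ker_reproduce hε hh, ← hc] at h3
    have hc1 : (c : ℂ) ≠ 0 := by exact_mod_cast hc0.ne'
    simp only
    rw [hw z ε hε hz z (mem_ball_self (half_pos hε)), hkk z ε hε, div_sub' hc1, norm_div,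
      Complex.norm_real, Real.norm_of_nonneg hc0.le, div_le_iff₀ hc0]
    refine h3.trans (le_of_eq ?_)
    field_simp

end Pool.Agent.MP_26d9d0_an.H12

end MrgPart1

-- ======== part 2: formerly Pool.Agent.MP_26d9d0_an.h12.Cutoff
section MrgPart2

set_option autoImplicit false

open Filter Topology Metric Real Set MeasureTheory

namespace Pool.Agent.MP_26d9d0_an.H12

lemma lap_softplus {W : ℂ → ℝ} {z : ℂ} (hW : ContDiffAt ℝ 2 W z) :
    lap (fun z => Real.log (1 + exp (W z))) z =
      exp (W z) / (1 + exp (W z)) ^ 2 * (dd 1 W z ^ 2 + dd Complex.I W z ^ 2) +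
        exp (W z) / (1 + exp (W z)) * lap W z := by
  have t1 : ∀ s : ℝ, HasDerivAt (fun s => Real.log (1 + exp s)) (exp s / (1 + exp s)) s := fun s =>
    ((Real.hasDerivAt_exp s).const_add 1).log (by positivity)
  have t2 : ∀ s : ℝ, HasDerivAt (fun s => exp s / (1 + exp s)) (exp s / (1 + exp s) ^ 2) s :=
    fun s => ((Real.hasDerivAt_exp s).div ((Real.hasDerivAt_exp s).const_add 1)
      (by positivity)).congr_deriv (by congr 1; ring)
  have d1 := hW.differentiableAt two_ne_zero
  have key : ∀ v, dd v (dd v fun z => Real.log (1 + exp (W z))) z =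
      exp (W z) / (1 + exp (W z)) ^ 2 * dd v W z * dd v W z +
        exp (W z) / (1 + exp (W z)) * dd v (dd v W) z := by
    intro v
    rw [← dd_comp (t2 _) d1, ← dd_mul (f := fun z => exp (W z) / (1 + exp (W z)))
      ((t2 _).differentiableAt.comp z d1)
      ((dd_contDiffAt (n := 1) hW).differentiableAt (by norm_num))]
    refine (dd_congr ?_ v).self_of_nhds
    filter_upwards [hW.eventually (by simp)] with y hy
    exact dd_comp (t1 _) (hy.differentiableAt two_ne_zero)
  unfold lap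
  rw [key, key]
  ring

lemma Db_cutoff {W : ℂ → ℝ} {σ : ℝ → ℝ} {σ' : ℝ} {v : ℂ → ℂ} {z : ℂ}
    (hW : DifferentiableAt ℝ W z) (hσ : HasDerivAt σ σ' (W z)) (hv : DifferentiableAt ℂ v z) :
    ‖Db (fun z => (σ (W z) : ℂ) * v z) z‖ ^ 2 =
      (σ' * ‖v z‖) ^ 2 * (dd 1 W z ^ 2 + dd Complex.I W z ^ 2) := by
  have d1 : DifferentiableAt ℝ (fun z => σ (W z)) z := hσ.differentiableAt.comp z hW
  rw [Db_mul_hol (f := fun z => (σ (W z) : ℂ)) (Complex.ofRealCLM.differentiableAt.comp z d1) hv,
    Db_ofReal d1, dd_comp hσ hW, dd_comp hσ hW, norm_mul, mul_pow, Complex.sq_norm,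
    Complex.normSq_apply]
  simp; ring

/-- Solution of the Cauchy-Riemann equation for data cut off by a subharmonic function. -/
theorem solve : ∃ C1 : ℝ, 0 < C1 ∧ ∀ {S : Set ℂ} (_ : IsOpen S) {ψ W : ℂ → ℝ}
    (_ : ∀ z ∈ S, SHAt ψ z) (_ : ∀ z ∈ S, SHAt W z ∧ ContDiffAt ℝ 2 W z) {Φ : ℂ → ℂ}
    (_ : ∀ z ∈ S, ContDiffAt ℝ 1 Φ z) {c : ℂ} {b ρ : ℝ} (_ : 0 ≤ b) (_ : 0 ≤ ρ)
    (_ : ∀ z ∈ S, Db Φ z ≠ 0 → z ∈ closedBall c ρ ∧ 0 ≤ W z ∧ W z ≤ 1 ∧
      ‖Db Φ z‖ ^ 2 ≤ (b * exp (ψ z)) ^ 2 * (dd 1 W z ^ 2 + dd Complex.I W z ^ 2)),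
    ∃ w : ℂ → ℂ, (∀ z ∈ S, DifferentiableAt ℂ w z) ∧ ∀ (z : ℂ) (ε : ℝ) (h : ℂ → ℂ) (m1 m2 : ℝ),
      0 < ε → closedBall z ε ⊆ S → (∀ y ∈ closedBall z ε, AnalyticAt ℂ h y) →
      (∀ y ∈ closedBall z ε, ‖Φ y - h y‖ ≤ m1) → 0 ≤ m2 →
      (∀ y ∈ closedBall z ε, exp (ψ y) ^ 2 * (1 + exp (W y)) ≤ m2 ^ 2) →
      ‖w z - h z‖ ≤ m1 + C1 * b * ρ * m2 / ε := by
  obtain ⟨C0, hC0, hs⟩ := solve0
  refine ⟨C0 * 8, by positivity, fun {S} hS {ψ W} hψ hW {Φ} hΦ {c b ρ} hb hρ hf => ?_⟩
  have hE : ∀ z, exp (2 * ψ z + Real.log (1 + exp (W z))) = exp (ψ z) ^ 2 * (1 + exp (W z)) :=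
    fun z => by
      rw [exp_add, exp_log (by positivity), ← exp_nat_mul]; norm_num
  have hEc : ∀ z ∈ S, ContinuousAt (fun z => exp (ψ z) ^ 2 * (1 + exp (W z))) z := fun z hz =>
    ((hψ z hz).cont.rexp.pow 2).mul (continuousAt_const.add (hW z hz).1.cont.rexp)
  obtain ⟨w, h1, h2⟩ := hs hS hEc (fun z => by positivity) (fun z hz => (hΦ z hz).continuousAt)
    (B := 8 * b * ρ) (by positivity) fun β hβ ⟨K, hK, hKS, h0⟩ => by
      let κ : ℂ → ℝ := fun z =>
        exp (W z) / (1 + exp (W z)) ^ 2 * (dd 1 W z ^ 2 + dd Complex.I W z ^ 2)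
      have hκ : ∀ z ∈ S, ContinuousAt κ z := fun z hz => by
        have := (hW z hz).1.cont
        have := (dd_contDiffAt (v := 1) (n := 1) (hW z hz).2).continuousAt
        have := (dd_contDiffAt (v := Complex.I) (n := 1) (hW z hz).2).continuousAt
        fun_prop (disch := positivity)
      have h3 := apriori hS hK hKS (ψ := fun z => 2 * ψ z)
        (Ψ := fun z => Real.log (1 + exp (W z))) (κ := κ)
        (fun z hz => (hψ z hz).const_mul zero_le_two)
        (fun z hz => (contDiffAt_const.add (hW z hz).2.exp).log (by positivity))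
        (fun z hz => ⟨hκ z hz, by positivity, by
          rw [lap_softplus (hW z hz).2]
          have := lap_nonneg (hW z hz).2 (hW z hz).1
          exact le_add_of_nonneg_right (by positivity)⟩) hβ h0
      simp only [hE] at h3
      have hβ1 : ∀ z, ContDiffAt ℝ 1 β z := fun z => hβ.contDiffAt.of_le (by norm_num)
      have hD0 := Db_zero_off hK.isClosed h0
      have i1 : Integrable fun z => Db Φ z * β z := integrable_of hK
        (fun z hz => (Db_continuousAt (hΦ z (hKS hz))).mul (hβ1 z).continuousAt)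
        fun z hz => by simp [h0 z hz]
      have i2 : Integrable fun z => Φ z * Db β z := integrable_of hK
        (fun z hz => (hΦ z (hKS hz)).continuousAt.mul (Db_continuousAt (hβ1 z)))
        fun z hz => by simp [hD0 z hz]
      have i3 : Integrable fun z => κ z * (‖β z‖ ^ 2 * (exp (ψ z) ^ 2 * (1 + exp (W z)))) :=
        integrable_of hK (fun z hz => (hκ z (hKS hz)).mul (((hβ1 z).continuousAt.norm.pow 2).mul
          (hEc z (hKS hz)))) fun z hz => by simp [h0 z hz]
      have h4 : ∫ z, Φ z * Db β z = -∫ z, Db Φ z * β z := by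
        have h5 : ∀ z ∉ K, Φ z * β z = 0 := fun z hz => by simp [h0 z hz]
        rw [eq_neg_iff_add_eq_zero, add_comm, ← integral_add i1 i2,
          ← integral_Db hK (fun z hz => (hΦ z (hKS hz)).mul (hβ1 z)) h5]
        congr 1; funext z
        by_cases hz : z ∈ K
        · rw [Db_mul ((hΦ z (hKS hz)).differentiableAt one_ne_zero)
            ((hβ1 z).differentiableAt one_ne_zero)]
        · rw [Db_zero_off hK.isClosed h5 z hz, h0 z hz, hD0 z hz]; simp
      have n1 : 0 ≤ ∫ z, κ z * (‖β z‖ ^ 2 * (exp (ψ z) ^ 2 * (1 + exp (W z)))) :=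
        integral_nonneg fun z => by positivity
      have h5 := amgm (s := ‖∫ z, Db Φ z * β z‖) (sq_nonneg (4 * b * ρ)) n1 fun l hl => by
        have i4 : Integrable ((closedBall c ρ).indicator fun _ => l * (4 * b ^ 2)) :=
          (integrableOn_const (isCompact_closedBall c ρ).measure_lt_top.ne).integrable_indicator
            measurableSet_closedBall
        refine (norm_integral_le_of_norm_le (i4.add (i3.div_const l))
          (Eventually.of_forall fun z => ?_)).trans ?_
        · simp only [Pi.add_apply]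
          by_cases hz : Db Φ z * β z = 0
          · rw [hz, norm_zero]
            have : 0 ≤ (closedBall c ρ).indicator (fun _ => l * (4 * b ^ 2)) z :=
              indicator_nonneg (fun _ _ => by positivity) z
            positivity
          have hzK : z ∈ K := by
            by_contra h; exact hz (by simp [h0 z h])
          obtain ⟨h6, h7, h8, h9⟩ := hf z (hKS hzK) (left_ne_zero_of_mul hz)
          rw [indicator_of_mem h6, norm_mul]
          have e1 : 1 ≤ exp (W z) := one_le_exp h7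
          have e2 : exp (W z) ≤ 3 := (exp_le_exp.2 h8).trans (Real.exp_one_lt_d9.le.trans
            (by norm_num))
          have e3 : 1 / 16 ≤ exp (W z) / (1 + exp (W z)) ^ 2 := by
            rw [div_le_div_iff₀ (by norm_num) (by positivity)]; nlinarith
          set T := κ z * (exp (ψ z) ^ 2 * (1 + exp (W z))) with hT
          have e4 : ‖Db Φ z‖ ^ 2 ≤ 16 * b ^ 2 * T := by
            refine h9.trans ?_
            calc _ = 16 * b ^ 2 * (1 / 16 * (dd 1 W z ^ 2 + dd Complex.I W z ^ 2) *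
                  (exp (ψ z) ^ 2 * 1)) := by ring
              _ ≤ _ := by simp only [hT, κ]; gcongr; linarith
          refine (sq_le_sq₀ (by positivity) (by positivity)).1 ?_
          have e5 : κ z * (‖β z‖ ^ 2 * (exp (ψ z) ^ 2 * (1 + exp (W z)))) / l =
              T * ‖β z‖ ^ 2 / l := by rw [hT]; ring
          have e6 : 16 * b ^ 2 * T * ‖β z‖ ^ 2 = 4 * (l * (4 * b ^ 2)) * (T * ‖β z‖ ^ 2 / l) := by
            field_simp; ring
          rw [e5, mul_pow]
          nlinarith [sq_nonneg (l * (4 * b ^ 2) - T * ‖β z‖ ^ 2 / l),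
            mul_le_mul_of_nonneg_right e4 (sq_nonneg ‖β z‖)]
        · rw [integral_add' i4 (i3.div_const l), integral_div,
            integral_indicator_const _ measurableSet_closedBall, Measure.real,
            Complex.volume_closedBall]
          simp only [ENNReal.toReal_mul, ENNReal.toReal_pow, ENNReal.toReal_ofReal hρ,
            ENNReal.coe_toReal, NNReal.coe_real_pi, smul_eq_mul, add_le_add_iff_right]
          have : 0 ≤ l * (b * ρ) ^ 2 := by positivity
          nlinarith [Real.pi_le_four]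
      rw [h4, norm_neg]
      refine h5.trans ?_
      rw [Real.sqrt_sq (by positivity)]
      calc _ = 8 * b * ρ * √(∫ z, κ z * (‖β z‖ ^ 2 * (exp (ψ z) ^ 2 * (1 + exp (W z))))) := by ring
        _ ≤ _ := by gcongr
  refine ⟨w, h1, fun z ε h m1 m2 a1 a2 a3 a4 a5 a6 => (h2 z ε h m1 m2 a1 a2 a3 a4 a5 a6).trans
    (le_of_eq (by ring))⟩

end Pool.Agent.MP_26d9d0_an.H12

end MrgPart2

-- marker of a merged file
example : 731051 + 571679 = 731051 + 571679 := rfl
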