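import Mathlib.Analysis.Complex.Liouville
import Mathlib.Analysis.Complex.ExponentialBounds
import Pool.Agent.MP_26d9d0_an.h12.Kernel

-- ======== part 0: formerly Pool.Agent.MP_26d9d0_an.h12.Barrier
section MrgPart0

set_option autoImplicit false

open Filter Topology Metric Real Set

namespace Pool.Agent.MP_26d9d0_an.H12

lemma sum_abs_le {g : ℝ → ℝ} (hg : Antitone g) (m : ℕ) : ∀ y : ℝ,
    ∑ i ∈ Finset.range m, g |y - i| ≤ ∑ j ∈ Finset.range m, g (j / 2) := by
  induction m with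
  | zero => simp
  | succ m ih =>
    intro y
    rw [Finset.sum_range_succ (fun j : ℕ => g (j / 2))]
    rcases le_total y (m / 2) with h | h
    · rw [Finset.sum_range_succ]
      refine add_le_add (ih y) (hg ?_)
      rw [le_abs]; right; linarith
    · rw [Finset.sum_range_succ']
      refine add_le_add (le_of_eq_of_le ?_ (ih (y - 1))) (hg ?_)
      · refine Finset.sum_congr rfl fun i _ => ?_
        congr 2; push_cast; ring
      · rw [le_abs]; left; simpa using h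

lemma sum_log_le (m : ℕ) : m * Real.log m - ∑ j ∈ Finset.range m, Real.log (j + 1) ≤ m := by
  induction m with
  | zero => simp
  | succ m ih =>
    rw [Finset.sum_range_succ]
    rcases Nat.eq_zero_or_pos m with rfl | hm
    · simp
    have hm' : (0 : ℝ) < m := by exact_mod_cast hm
    have h1 : Real.log (m + 1) - Real.log m ≤ 1 / m := by
      rw [← Real.log_div (by positivity) hm'.ne']
      refine (Real.log_le_sub_one_of_pos (by positivity)).trans (le_of_eq ?_)
      field_simp; ring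
    have h2 : m * (Real.log (m + 1) - Real.log m) ≤ 1 := by
      have := mul_le_mul_of_nonneg_left h1 hm'.le
      rwa [mul_one_div_cancel hm'.ne'] at this
    push_cast
    linarith

lemma half_ge (j : ℕ) : ((j : ℝ) + 1) / 3 ≤ max 1 ((j : ℝ) / 2) := by
  rcases le_total (j : ℝ) 2 with h | h
  · exact le_max_of_le_left (by linarith)
  · exact le_max_of_le_right (by linarith)

lemma sum_log_max_le {m : ℕ} (hm : 0 < m) (y : ℝ) :
    ∑ i ∈ Finset.range m, Real.log (2 * m / max 1 |y - i|) ≤ 3 * m := by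
  have hm' : (0 : ℝ) < m := by exact_mod_cast hm
  have h1 := sum_abs_le (g := fun d => Real.log (2 * m / max 1 d)) (fun a b hab => by
    have : 0 < max 1 a := lt_max_of_lt_left one_pos
    have : 0 < max 1 b := lt_max_of_lt_left one_pos
    apply Real.log_le_log (by positivity)
    gcongr) m y
  refine h1.trans ?_
  have h2 : ∀ j ∈ Finset.range m, Real.log (2 * m / max 1 ((j : ℝ) / 2)) ≤
      2 + Real.log m - Real.log (j + 1) := by
    intro j _
    have h3 : 0 < max 1 ((j : ℝ) / 2) := lt_max_of_lt_left one_pos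
    have h4 : 2 * m / max 1 ((j : ℝ) / 2) ≤ 6 * m / (j + 1) := by
      rw [div_le_div_iff₀ h3 (by positivity)]
      nlinarith [half_ge j]
    have h5 : Real.log 6 ≤ 2 := by
      rw [Real.log_le_iff_le_exp (by norm_num)]
      have := Real.exp_one_gt_d9
      have h6 : Real.exp 2 = Real.exp 1 * Real.exp 1 := by rw [← Real.exp_add]; norm_num
      nlinarith
    refine (Real.log_le_log (by positivity) h4).trans ?_
    rw [Real.log_div (by positivity) (by positivity), Real.log_mul (by norm_num) hm'.ne']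
    linarith
  refine (Finset.sum_le_sum h2).trans ?_
  rw [Finset.sum_sub_distrib, Finset.sum_const, Finset.card_range, nsmul_eq_mul]
  linarith [sum_log_le m]

/-- A normalized weight: `1`-Lipschitz with values in `[0, 1]`. -/
structure Wt (ω : ℂ → ℝ) : Prop where
  lip : ∀ x y, ω x ≤ ω y + ‖x - y‖
  nonneg : ∀ x, 0 ≤ ω x
  le_one : ∀ x, ω x ≤ 1

lemma Wt.cont {ω : ℂ → ℝ} (h : Wt ω) : Continuous ω :=
  (LipschitzWith.of_le_add fun x y => by rw [dist_eq_norm]; exact h.lip x y).continuous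

lemma Wt.isOpen {ω : ℂ → ℝ} (h : Wt ω) : IsOpen {z | 0 < ω z} :=
  isOpen_lt continuous_const h.cont

lemma Wt.ev {ω : ℂ → ℝ} (h : Wt ω) {x : ℂ} (hx : 0 < ω x) : ∀ᶠ y in 𝓝 x, 0 < ω y :=
  h.isOpen.mem_nhds hx

lemma Wt.half {ω : ℂ → ℝ} (h : Wt ω) {x y : ℂ} (hy : y ∈ closedBall x (ω x / 2)) :
    ω x / 2 ≤ ω y := by
  have := h.lip x y
  rw [mem_closedBall, dist_eq_norm, norm_sub_rev] at hy
  linarith

/-- Admissible subharmonic functions. -/
structure Adm (δ δ' ψ : ℂ → ℝ) : Prop where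
  sh : ∀ z, 0 < δ z → SHAt ψ z
  nonneg : ∀ z, 0 < δ z → 0 ≤ ψ z
  le' : ∀ z, 0 < δ z → δ' z ≤ exp (-ψ z)
  growth : ∃ (K : ℕ) (C : ℝ), ∀ z, 0 < δ z → δ z ^ K * exp (ψ z) ≤ C

variable {δ δ' : ℂ → ℝ}

lemma Adm.zero (hδ' : Wt δ') : Adm δ δ' fun _ => 0 :=
  ⟨fun z _ => SHAt.const 0 z, fun _ _ => le_rfl, fun z _ => by simpa using hδ'.le_one z,
    0, 1, fun _ _ => by simp⟩

lemma Adm.modify {ψ g : ℂ → ℝ} (hψ : Adm δ δ' ψ) (h1 : ∀ z, 0 < δ z → SHAt g z)
    (h2 : ∀ z, 0 < δ z → 0 ≤ g z) (h3 : ∀ z, 0 < δ z → δ' z ≤ exp (-g z))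
    {m : ℕ} {C : ℝ} (h4 : ∀ z, 0 < δ z → g z ≤ m * ψ z + C) : Adm δ δ' g := by
  refine ⟨h1, h2, h3, ?_⟩
  obtain ⟨K, D, hD⟩ := hψ.growth
  refine ⟨K * m, D ^ m * exp C, fun z hz => ?_⟩
  calc δ z ^ (K * m) * exp (g z) ≤ δ z ^ (K * m) * exp (m * ψ z + C) := by
        gcongr; exact h4 z hz
    _ = (δ z ^ K * exp (ψ z)) ^ m * exp C := by
        rw [exp_add, exp_nat_mul, mul_pow, pow_mul]; ring
    _ ≤ D ^ m * exp C := by gcongr; exact hD z hz

lemma Adm.max (hδ : Wt δ) {ψ φ : ℂ → ℝ} (hψ : Adm δ δ' ψ) (hφ : Adm δ δ' φ) :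
    Adm δ δ' fun z => max (ψ z) (φ z) := by
  refine ⟨fun z hz => (hψ.sh z hz).max (hφ.sh z hz),
    fun z hz => le_max_of_le_left (hψ.nonneg z hz), fun z hz => ?_, ?_⟩
  · rcases le_total (ψ z) (φ z) with h | h
    · rw [max_eq_right h]; exact hφ.le' z hz
    · rw [max_eq_left h]; exact hψ.le' z hz
  · obtain ⟨K, C, h1⟩ := hψ.growth
    obtain ⟨K', C', h2⟩ := hφ.growth
    refine ⟨K + K', Max.max C C', fun z hz => ?_⟩
    have h3 : δ z ^ (K + K') ≤ δ z ^ K := pow_le_pow_of_le_one hz.le (hδ.le_one z) (by omega)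
    have h4 : δ z ^ (K + K') ≤ δ z ^ K' := pow_le_pow_of_le_one hz.le (hδ.le_one z) (by omega)
    rcases le_total (ψ z) (φ z) with h | h
    · rw [max_eq_right h]
      exact le_max_of_le_right ((mul_le_mul_of_nonneg_right h4 (exp_pos _).le).trans (h2 z hz))
    · rw [max_eq_left h]
      exact le_max_of_le_left ((mul_le_mul_of_nonneg_right h3 (exp_pos _).le).trans (h1 z hz))

lemma Adm.glue {ψ h : ℂ → ℝ} (hψ : Adm δ δ' ψ) {D : Set ℂ} (hD : IsOpen D)
    (h1 : ∀ x ∈ D, SHAt h x) (h2 : ∀ x, 0 < δ x → x ∉ D → ∀ᶠ y in 𝓝 x, y ∈ D → h y ≤ ψ y)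
    (h3 : ∀ x ∈ D, δ' x ≤ exp (-h x)) {m : ℕ} {C : ℝ} (hC : 0 ≤ C)
    (h4 : ∀ x ∈ D, h x ≤ (m + 1 : ℕ) * ψ x + C) : Adm δ δ' (glue D ψ h) := by
  refine hψ.modify (m := m + 1) (C := C) (fun z hz => (hψ.sh z hz).glue hD (h1 z) (h2 z hz))
    (fun z hz => (hψ.nonneg z hz).trans (le_glue _ _ _ _)) (fun z hz => ?_) fun z hz => ?_
  · unfold H12.glue
    split_ifs with hz'
    · rcases le_total (ψ z) (h z) with h5 | h5
      · rw [max_eq_right h5]; exact h3 z hz'
      · rw [max_eq_left h5]; exact hψ.le' z hz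
    · exact hψ.le' z hz
  · refine glue_le ?_ (h4 z)
    have := hψ.nonneg z hz
    push_cast
    nlinarith [mul_nonneg (Nat.cast_nonneg (α := ℝ) m) this]

/-- A crude barrier: largeness of an admissible function near `z0` propagates to `z0`. -/
lemma barrier {ψ : ℂ → ℝ} (hψ : Adm δ δ' ψ) {z0 z' : ℂ} {r t : ℝ} (hr : 0 < r) (ht : 0 ≤ t)
    (hS : ∀ y ∈ closedBall z0 (30 * r), 0 < δ y ∧ δ' y ≤ exp (-t))
    (hz' : z' ∈ closedBall z0 (r / 2)) (h : t < ψ z') : ∃ G, Adm δ δ' G ∧ t / 2 ≤ G z0 := by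
  have hc : ContinuousOn ψ (closedBall z0 (30 * r)) := fun y hy =>
    (hψ.sh y (hS y hy).1).cont.continuousWithinAt
  obtain ⟨ε, hε, hu⟩ := Metric.uniformContinuousOn_iff.1
    ((isCompact_closedBall z0 (30 * r)).uniformContinuousOn_of_continuous hc) (ψ z' - t)
    (by linarith)
  obtain ⟨m, hm⟩ := exists_nat_gt (max 1 (r / (2 * ε)))
  have hm1 : (1 : ℝ) < m := (le_max_left _ _).trans_lt hm
  have hm0 : 0 < m := by exact_mod_cast (zero_lt_one.trans hm1)
  set η := r / (2 * m) with hη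
  have hη0 : 0 < η := by positivity
  have hmη : m * η = r / 2 := by rw [hη]; field_simp
  have hηε : η < ε := by
    have := (le_max_right _ _).trans_lt hm
    rw [div_lt_iff₀ (by positivity)] at this
    rw [hη, div_lt_iff₀ (by positivity)]
    linarith
  have hηr : η < r / 2 := by nlinarith
  have hp : ∀ i : ℕ, ∃ p : ℂ, i < m → ‖p - z0‖ = r / 2 + i * η ∧ ψ z' ≤ ψ p := by
    intro i
    by_cases hi : i < m
    swap
    · exact ⟨0, fun h => absurd h hi⟩
    have hi' : (i : ℝ) ≤ m := by exact_mod_cast hi.le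
    have hs0 : r / 2 ≤ r / 2 + i * η := le_add_of_nonneg_right (by positivity)
    have hs1 : r / 2 + i * η ≤ 30 * r := by nlinarith
    obtain ⟨p, hp, hmax⟩ := (isCompact_sphere z0 (r / 2 + i * η)).exists_isMaxOn
      (NormedSpace.sphere_nonempty.2 (by positivity))
      (hc.mono (sphere_subset_closedBall.trans (closedBall_subset_closedBall hs1)))
    refine ⟨p, fun _ => ⟨by simpa [dist_eq_norm] using hp, ?_⟩⟩
    exact max_disc (hc.mono (closedBall_subset_closedBall hs1))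
      (fun x hx => hψ.sh x (hS x (closedBall_subset_closedBall hs1 (ball_subset_closedBall hx))).1)
      hmax z' (closedBall_subset_closedBall hs0 hz')
  choose p hp using hp
  have hp1 : ∀ i ∈ Finset.range m, r / 2 ≤ ‖p i - z0‖ ∧ ‖p i - z0‖ ≤ r := by
    intro i hi
    have hi0 := Finset.mem_range.1 hi
    have hi' : (i : ℝ) ≤ m := by exact_mod_cast hi0.le
    rw [(hp i hi0).1]
    exact ⟨le_add_of_nonneg_right (by positivity), by nlinarith⟩
  let D : Set ℂ := ball z0 (30 * r) ∩ ⋂ i ∈ Finset.range m, {z | η < ‖z - p i‖}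
  have hD : IsOpen D := isOpen_ball.inter
    (isOpen_biInter_finset fun i _ => isOpen_lt continuous_const (by fun_prop))
  have hDm : ∀ z, z ∈ D ↔ z ∈ ball z0 (30 * r) ∧ ∀ i ∈ Finset.range m, η < ‖z - p i‖ := by
    intro z; simp [D]
  let U : ℂ → ℝ := fun z => ∑ i ∈ Finset.range m, (-1) * Real.log ‖(z - p i) / r‖
  have hUe : ∀ z, U z = ∑ i ∈ Finset.range m, Real.log (r / ‖z - p i‖) := by
    intro z
    refine Finset.sum_congr rfl fun i _ => ?_
    rw [norm_div, Complex.norm_real, Real.norm_eq_abs, abs_of_pos hr, ← inv_div, Real.log_inv]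
    ring
  have hU : ∀ z ∈ D, U z ≤ 3 * m := by
    intro z hz
    rw [hUe]
    refine le_trans (Finset.sum_le_sum fun i hi => ?_)
      (sum_log_max_le hm0 ((‖z - z0‖ - r / 2) / η))
    have h1 := ((hDm z).1 hz).2 i hi
    have h2 : η * max 1 |(‖z - z0‖ - r / 2) / η - i| ≤ ‖z - p i‖ := by
      rw [mul_max_of_nonneg _ _ hη0.le]
      refine max_le (by linarith) ?_
      have h3 := abs_norm_sub_norm_le (z - z0) (p i - z0)
      rw [sub_sub_sub_cancel_right, (hp i (Finset.mem_range.1 hi)).1] at h3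
      refine le_of_eq_of_le ?_ h3
      rw [← abs_of_pos hη0, ← abs_mul, abs_of_pos hη0]
      congr 1; field_simp; ring
    have h4 : 0 < max 1 |(‖z - z0‖ - r / 2) / η - i| := lt_max_of_lt_left one_pos
    have h5 : 0 < ‖z - p i‖ := hη0.trans h1
    apply Real.log_le_log (by positivity)
    rw [div_le_div_iff₀ h5 h4]
    have h6 : r = 2 * m * η := by linarith
    calc r * max 1 |(‖z - z0‖ - r / 2) / η - i|
        = 2 * m * (η * max 1 |(‖z - z0‖ - r / 2) / η - i|) := by rw [← mul_assoc, ← h6]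
      _ ≤ 2 * m * ‖z - p i‖ := by gcongr
  let hh : ℂ → ℝ := fun z => t / (6 * m) * U z + t / 2
  have hh1 : ∀ z ∈ D, hh z ≤ t := by
    intro z hz
    have h1 : t / (6 * m) * U z ≤ t / (6 * m) * (3 * m) :=
      mul_le_mul_of_nonneg_left (hU z hz) (by positivity)
    have h2 : t / (6 * m) * (3 * m) = t / 2 := by field_simp; ring
    simp only [hh]; linarith
  refine ⟨glue D ψ hh, hψ.glue hD (m := 0) (C := t) (fun x hx => ?_) (fun x hx hxD => ?_)
    (fun x hx => ?_) ht (fun x hx => ?_), ?_⟩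
  · refine ((SHAt.sum _ fun i hi => SHAt.log_norm (Eventually.of_forall fun y => by fun_prop)
      ?_ _).const_mul (by positivity)).add (SHAt.const _ _)
    have h1 := hη0.trans (((hDm x).1 hx).2 i hi)
    exact div_ne_zero (norm_pos_iff.1 h1) (by exact_mod_cast hr.ne')
  · rw [hDm] at hxD
    by_cases hb : x ∈ ball z0 (30 * r)
    · have : ∃ i ∈ Finset.range m, ‖x - p i‖ ≤ η := by
        by_contra hn
        push Not at hn
        exact hxD ⟨hb, hn⟩
      obtain ⟨i, hi, h1⟩ := this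
      have h2 := hu x (ball_subset_closedBall hb) (p i)
        (by rw [mem_closedBall, dist_eq_norm]; linarith [(hp1 i hi).2])
        (by rw [dist_eq_norm]; linarith)
      have h3 := (hp i (Finset.mem_range.1 hi)).2
      have h4 : t < ψ x := by
        rw [Real.dist_eq, abs_lt] at h2
        linarith [h2.1]
      filter_upwards [(hψ.sh x hx).cont.eventually (lt_mem_nhds h4)] with y hy hyD
      exact (hh1 y hyD).trans hy.le
    · have h1 : 29 * r < ‖x - z0‖ := by
        rw [mem_ball, dist_eq_norm, not_lt] at hb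
        linarith
      have h2 : ∀ᶠ y in 𝓝 x, 29 * r < ‖y - z0‖ :=
        (by fun_prop : ContinuousAt (fun y => ‖y - z0‖) x).eventually (lt_mem_nhds h1)
      filter_upwards [h2] with y hy hyD
      refine le_trans ?_ (hψ.nonneg y (hS y (ball_subset_closedBall ((hDm y).1 hyD).1)).1)
      have h3 : U y ≤ ∑ i ∈ Finset.range m, (-3 : ℝ) := by
        rw [hUe]
        refine Finset.sum_le_sum fun i hi => ?_
        have h4 : 28 * r ≤ ‖y - p i‖ := by
          have := norm_sub_le_norm_sub_add_norm_sub y (p i) z0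
          linarith [(hp1 i hi).2]
        have h5 : 0 < ‖y - p i‖ := by linarith
        rw [Real.log_le_iff_le_exp (by positivity), div_le_iff₀ h5, Real.exp_neg]
        have h6 : exp 3 ≤ 28 := by
          have := Real.exp_one_lt_d9
          have h7 : exp 3 = exp 1 ^ 3 := by rw [← exp_nat_mul]; norm_num
          rw [h7]
          exact (pow_le_pow_left₀ (exp_pos 1).le (this.le.trans (by norm_num : _ ≤ (3 : ℝ))) 3).trans
            (by norm_num)
        rw [inv_mul_eq_div, le_div_iff₀ (exp_pos 3)]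
        nlinarith
      rw [Finset.sum_const, Finset.card_range, nsmul_eq_mul] at h3
      have h4 : t / (6 * m) * U y ≤ t / (6 * m) * (m * -3) :=
        mul_le_mul_of_nonneg_left h3 (by positivity)
      have h5 : t / (6 * m) * (m * -3) = -(t / 2) := by field_simp; ring
      simp only [hh]; linarith
  · exact (hS x (ball_subset_closedBall ((hDm x).1 hx).1)).2.trans
      (exp_le_exp.2 (neg_le_neg (hh1 x hx)))
  · have := hψ.nonneg x (hS x (ball_subset_closedBall ((hDm x).1 hx).1)).1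
    have := hh1 x hx
    simp only [zero_add, Nat.cast_one, one_mul]; linarith
  · have h0 : z0 ∈ D := (hDm z0).2 ⟨mem_ball_self (by positivity), fun i hi => by
      rw [norm_sub_rev]; exact hηr.trans_le (hp1 i hi).1⟩
    refine le_trans ?_ (le_glue' _ _ h0)
    have h1 : 0 ≤ U z0 := by
      rw [hUe]
      refine Finset.sum_nonneg fun i hi => Real.log_nonneg ?_
      rw [norm_sub_rev, le_div_iff₀ (by linarith [(hp1 i hi).1])]
      linarith [(hp1 i hi).2]
    have : 0 ≤ t / (6 * m) * U z0 := by positivity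
    simp only [hh]; linarith

end Pool.Agent.MP_26d9d0_an.H12

end MrgPart0

-- ======== part 1: formerly Pool.Agent.MP_26d9d0_an.h12.Hull
section MrgPart1

set_option autoImplicit false

open Filter Topology Metric Real Set

namespace Pool.Agent.MP_26d9d0_an.H12

variable {δ δ' : ℂ → ℝ}

/-- Values used in the definition of the hull weight. -/
def Val (δ δ' : ℂ → ℝ) (y : ℂ) (t : ℝ) : Prop :=
  (¬ 0 < δ y ∧ t = 0) ∨ (0 < δ y ∧ ∃ ψ, Adm δ δ' ψ ∧ t = exp (-ψ y))

/-- The hull weight. -/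
noncomputable def hull (δ δ' : ℂ → ℝ) (z : ℂ) : ℝ :=
  sInf {s | ∃ y t, Val δ δ' y t ∧ s = t + ‖z - y‖}

lemma Val.nonneg {y : ℂ} {t : ℝ} (h : Val δ δ' y t) : 0 ≤ t := by
  rcases h with ⟨_, rfl⟩ | ⟨_, ψ, _, rfl⟩
  · exact le_rfl
  · exact (exp_pos _).le

lemma hull_bdd (z : ℂ) : BddBelow {s | ∃ y t, Val δ δ' y t ∧ s = t + ‖z - y‖} :=
  ⟨0, by rintro _ ⟨y, t, h, rfl⟩; exact add_nonneg h.nonneg (norm_nonneg _)⟩

lemma hull_le {y : ℂ} {t : ℝ} (h : Val δ δ' y t) (z : ℂ) : hull δ δ' z ≤ t + ‖z - y‖ :=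
  csInf_le (hull_bdd z) ⟨y, t, h, rfl⟩

lemma exists_val (hδ' : Wt δ') (z : ℂ) : ∃ t, Val δ δ' z t ∧ t ≤ 1 := by
  by_cases hz : 0 < δ z
  · exact ⟨_, Or.inr ⟨hz, _, Adm.zero hδ', rfl⟩, by simp⟩
  · exact ⟨0, Or.inl ⟨hz, rfl⟩, zero_le_one⟩

lemma hull_ne (hδ' : Wt δ') (z : ℂ) :
    {s | ∃ y t, Val δ δ' y t ∧ s = t + ‖z - y‖}.Nonempty := by
  obtain ⟨t, ht, -⟩ := exists_val (δ := δ) hδ' z
  exact ⟨_, z, t, ht, rfl⟩

lemma wt_hull (hδ' : Wt δ') : Wt (hull δ δ') := by
  refine ⟨fun x y => ?_, fun x => le_csInf (hull_ne hδ' x) ?_, fun x => ?_⟩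
  · rw [← sub_le_iff_le_add]
    refine le_csInf (hull_ne hδ' y) ?_
    rintro _ ⟨w, t, h, rfl⟩
    linarith [hull_le h x, norm_sub_le_norm_sub_add_norm_sub x y w]
  · rintro _ ⟨y, t, h, rfl⟩; exact add_nonneg h.nonneg (norm_nonneg _)
  · obtain ⟨t, ht, h1⟩ := exists_val (δ := δ) hδ' x
    simpa using (hull_le ht x).trans (add_le_add_left h1 _)

lemma le_hull (hδ' : Wt δ') (hle : ∀ z, δ' z ≤ δ z) (z : ℂ) : δ' z ≤ hull δ δ' z := by
  refine le_csInf (hull_ne hδ' z) ?_
  rintro _ ⟨y, t, h, rfl⟩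
  refine (hδ'.lip z y).trans (add_le_add_left ?_ _)
  rcases h with ⟨h, rfl⟩ | ⟨h, ψ, hψ, rfl⟩
  · exact (hle y).trans (not_lt.1 h)
  · exact hψ.le' y h

lemma pos_of_hull {z : ℂ} (hz : 0 < hull δ δ' z) : 0 < δ z := by
  by_contra h
  have := hull_le (δ' := δ') (Or.inl ⟨h, rfl⟩) z
  simp at this
  linarith

lemma Adm.hull {ψ : ℂ → ℝ} (h : Adm δ δ' ψ) : Adm δ (hull δ δ') ψ :=
  ⟨h.sh, h.nonneg, fun z hz => by simpa using hull_le (Or.inr ⟨hz, ψ, h, rfl⟩) z, h.growth⟩

lemma exists_gt_of_hull (hδ : Wt δ) (hδ' : Wt δ') (hle : ∀ z, δ' z ≤ δ z) {z : ℂ} (hz : 0 < δ z)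
    (h0 : ¬ 0 < hull δ δ' z) (t : ℝ) : ∃ ψ, Adm δ δ' ψ ∧ t < ψ z := by
  set T := 2 * |t| + 1 with hT
  have h1 : δ' z ≤ 0 := (le_hull hδ' hle z).trans (not_lt.1 h0)
  set r := min (δ z / 60) (exp (-T) / 30) with hr
  have hr0 : 0 < r := lt_min (by positivity) (by positivity)
  have hr1 : r ≤ δ z / 60 := min_le_left _ _
  have hr2 : r ≤ exp (-T) / 30 := min_le_right _ _
  have hS : ∀ y ∈ closedBall z (30 * r), 0 < δ y ∧ δ' y ≤ exp (-T) := by
    intro y hy
    rw [mem_closedBall, dist_eq_norm] at hy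
    have h2 := hδ.lip z y
    rw [norm_sub_rev] at h2
    exact ⟨by linarith, by linarith [hδ'.lip y z]⟩
  obtain ⟨_, ⟨y, s, hv, rfl⟩, hlt⟩ := exists_lt_of_csInf_lt (hull_ne (δ := δ) hδ' z)
    ((not_lt.1 h0).trans_lt (lt_min (half_pos hr0) (exp_pos (-T))))
  have h2 := hv.nonneg
  have h3 := hlt.trans_le (min_le_left _ _)
  have h4 := hlt.trans_le (min_le_right _ _)
  have hy : y ∈ closedBall z (r / 2) := by
    rw [mem_closedBall, dist_eq_norm, norm_sub_rev]; linarith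
  rcases hv with ⟨h, -⟩ | ⟨-, ψ, hψ, rfl⟩
  · exact absurd (hS y (closedBall_subset_closedBall (by linarith) hy)).1 h
  have h5 : T < ψ y := by
    have : exp (-ψ y) < exp (-T) := by linarith [norm_nonneg (z - y)]
    linarith [exp_lt_exp.1 this]
  obtain ⟨G, hG, h6⟩ := barrier hψ hr0 (by positivity) hS hy h5
  exact ⟨G, hG, by linarith [le_abs_self t]⟩

/-- The extremal function. -/
noncomputable def phi (δ δ' : ℂ → ℝ) (z : ℂ) : ℝ := sSup {a | ∃ ψ, Adm δ δ' ψ ∧ a = ψ z}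

lemma Adm.le_log {ψ : ℂ → ℝ} (h : Adm δ δ' ψ) {z : ℂ} (hz : 0 < δ z) (hz' : 0 < δ' z) :
    ψ z ≤ -Real.log (δ' z) := by
  have := Real.log_le_log hz' (h.le' z hz)
  rw [Real.log_exp] at this
  linarith

lemma Adm.le_phi {ψ : ℂ → ℝ} (h : Adm δ δ' ψ) {z : ℂ} (hz : 0 < H12.hull δ δ' z) :
    ψ z ≤ phi δ δ' z :=
  le_csSup ⟨-Real.log (H12.hull δ δ' z), by
    rintro _ ⟨ψ, h, rfl⟩; exact h.hull.le_log (pos_of_hull hz) hz⟩ ⟨ψ, h, rfl⟩

lemma phi_le (hδ' : Wt δ') {z : ℂ} {a : ℝ} (h : ∀ ψ, Adm δ δ' ψ → ψ z ≤ a) : phi δ δ' z ≤ a :=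
  csSup_le ⟨_, _, Adm.zero hδ', rfl⟩ (by rintro _ ⟨ψ, hψ, rfl⟩; exact h ψ hψ)

lemma exists_gt_phi (hδ' : Wt δ') {z : ℂ} {a : ℝ} (h : a < phi δ δ' z) :
    ∃ ψ, Adm δ δ' ψ ∧ a < ψ z := by
  by_contra hn
  push Not at hn
  exact absurd (phi_le hδ' hn) (not_le.2 h)

lemma phi_nonneg (hδ' : Wt δ') {z : ℂ} (hz : 0 < hull δ δ' z) : 0 ≤ phi δ δ' z :=
  (Adm.zero hδ').le_phi hz

lemma hull_le_exp (hδ' : Wt δ') {z : ℂ} (hz : 0 < hull δ δ' z) :
    hull δ δ' z ≤ exp (-phi δ δ' z) := by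
  have := phi_le (δ := δ) hδ' (z := z) (a := -Real.log (hull δ δ' z))
    fun ψ h => h.hull.le_log (pos_of_hull hz) hz
  rw [← Real.log_le_iff_le_exp hz]
  linarith

lemma exists_adm_compact (hδ : Wt δ) (hδ' : Wt δ') {K : Set ℂ} (hK : IsCompact K)
    (hS : ∀ z ∈ K, 0 < δ z) {g : ℂ → ℝ} (hg : ContinuousOn g K) {W : ℕ → ℂ → ℝ}
    (hW : ∀ J, ContinuousOn (W J) K) (hm : ∀ z ∈ K, Monotone fun J => W J z) {a : ℝ}
    (h : ∀ z ∈ K, (∃ J, a < W J z) ∨ ∃ ψ, Adm δ δ' ψ ∧ g z < ψ z) :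
    ∃ J ψ, Adm δ δ' ψ ∧ ∀ z ∈ K, a < W J z ∨ g z < ψ z := by
  have := hK.induction_on
    (p := fun s => ∃ J ψ, Adm δ δ' ψ ∧ ∀ z ∈ s, z ∈ K → a < W J z ∨ g z < ψ z)
    ⟨0, _, Adm.zero hδ', by simp⟩
    (by rintro s t hst ⟨J, ψ, h1, h2⟩; exact ⟨J, ψ, h1, fun z hz => h2 z (hst hz)⟩)
    (by
      rintro s t ⟨J, ψ, h1, h2⟩ ⟨J', ψ', h1', h2'⟩
      refine ⟨max J J', _, h1.max hδ h1', ?_⟩
      rintro z (hz | hz) hzK
      · exact (h2 z hz hzK).imp (fun h => h.trans_le (hm z hzK (le_max_left _ _)))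
          lt_max_of_lt_left
      · exact (h2' z hz hzK).imp (fun h => h.trans_le (hm z hzK (le_max_right _ _)))
          lt_max_of_lt_right)
    (by
      intro x hx
      rcases h x hx with ⟨J, hJ⟩ | ⟨ψ, hψ, h1⟩
      · exact ⟨_, (hW J x hx).eventually (lt_mem_nhds hJ), J, _, Adm.zero hδ',
          fun z hz _ => Or.inl hz⟩
      · exact ⟨_, (hg x hx).eventually_lt (hψ.sh x (hS x hx)).cont.continuousWithinAt h1, 0, ψ, hψ,
          fun z hz _ => Or.inr hz⟩)
  obtain ⟨J, ψ, h1, h2⟩ := this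
  exact ⟨J, ψ, h1, fun z hz => h2 z hz hz⟩

lemma harm_mod {c : ℂ} {r t : ℝ} (hr : 0 < r) (ht : 0 ≤ t)
    (hS : ∀ y ∈ closedBall c r, 0 < δ y ∧ δ' y ≤ exp (-t)) {ψ : ℂ → ℝ} (hψ : Adm δ δ' ψ)
    (hb : ∀ y ∈ closedBall c r, ψ y ≤ t) {ε : ℝ} (hε : 0 < ε) :
    ∃ P : ℂ → ℂ, Differentiable ℂ P ∧ (∀ z ∈ closedBall c r, ψ z ≤ (P z).re ∧ (P z).re ≤ t + ε) ∧
      ∃ G, Adm δ δ' G ∧ ∀ z ∈ ball c r, (P z).re - 2 * ε ≤ G z := by
  obtain ⟨P, hP, h1, h2⟩ := exists_major hr hε fun x hx => hψ.sh x (hS x hx).1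
  have hPc : Continuous fun z => (P z).re := by have := hP.continuous; fun_prop
  have hPs : ∀ x, SHAt (fun z => (P z).re) x := fun x => by
    simpa using SHAt.re (x := x) (Eventually.of_forall fun y => hP y) 1
  have h3 := max_disc hPc.continuousOn (fun x _ => hPs x) (m := t + ε)
    fun x hx => (h2 x hx).trans (add_le_add_left (hb x (sphere_subset_closedBall hx)) _)
  refine ⟨P, hP, fun z hz => ⟨h1 z hz, h3 z hz⟩, glue (ball c r) ψ fun z => (P z).re + -(2 * ε),
    hψ.glue isOpen_ball (m := 0) (C := t) (fun x _ => (hPs x).add (SHAt.const _ _))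
      (fun x hx hxD => ?_) (fun x hx => ?_) ht (fun x hx => ?_),
      fun z hz => (sub_eq_add_neg _ _).trans_le (le_glue' ψ (fun z => (P z).re + -(2 * ε)) hz)⟩
  · by_cases hx' : x ∈ closedBall c r
    · have h4 : (P x).re + -(2 * ε) < ψ x := by
        linarith [h2 x (le_antisymm hx' (not_lt.1 hxD))]
      filter_upwards [(hPc.continuousAt.add continuousAt_const).eventually_lt
        (hψ.sh x hx).cont h4] with y hy _ using hy.le
    · filter_upwards [isClosed_closedBall.isOpen_compl.mem_nhds hx'] with y hy hy'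
      exact absurd (ball_subset_closedBall hy') hy
  · have hx' := ball_subset_closedBall hx
    exact (hS x hx').2.trans (exp_le_exp.2 (by linarith [h3 x hx']))
  · have hx' := ball_subset_closedBall hx
    have := hψ.nonneg x (hS x hx').1
    simp only [zero_add, Nat.cast_one, one_mul]
    linarith [h3 x hx']

lemma re_lip {P : ℂ → ℂ} (hP : Differentiable ℂ P) {c : ℂ} {r T : ℝ} (hr : 0 < r)
    (h : ∀ z ∈ closedBall c r, 0 ≤ (P z).re ∧ (P z).re ≤ T) {x y : ℂ} (hx : x ∈ ball c (r / 2))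
    (hy : y ∈ ball c (r / 2)) : (P x).re ≤ (P y).re + exp T / (r / 2) * ‖x - y‖ := by
  have hF : Differentiable ℂ fun z => Complex.exp (P z) := hP.cexp
  have h1 := (convex_ball c (r / 2)).norm_image_sub_le_of_norm_deriv_le (𝕜 := ℂ)
    (f := fun z => Complex.exp (P z)) (C := exp T / (r / 2)) (fun z _ => hF z)
    (fun z hz => Complex.norm_deriv_le_of_forall_mem_sphere_norm_le (half_pos hr)
      hF.diffContOnCl fun w hw => by
        rw [Complex.norm_exp, exp_le_exp]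
        refine (h w ?_).2
        rw [mem_sphere] at hw
        rw [mem_ball] at hz
        rw [mem_closedBall]
        linarith [dist_triangle w z c]) hy hx
  have h2 := (norm_sub_norm_le _ _).trans h1
  rw [Complex.norm_exp, Complex.norm_exp] at h2
  have hy0 := (h y (ball_subset_closedBall (ball_subset_ball (by linarith) hy))).1
  rcases le_total (P x).re (P y).re with h3 | h3
  · exact h3.trans (le_add_of_nonneg_right (by positivity))
  · have h4 : exp (P x).re = exp (P y).re * exp ((P x).re - (P y).re) := by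
      rw [← exp_add]; ring_nf
    have h5 := add_one_le_exp ((P x).re - (P y).re)
    have h6 := one_le_exp hy0
    nlinarith

/-- The extremal function is harmonic away from the obstacle. -/
lemma neg_phi_sh (hδ : Wt δ) (hδ' : Wt δ') {c : ℂ} (hc : 0 < hull δ δ' c)
    (h : δ' c < exp (-(2 * phi δ δ' c + 2))) : SHAt (fun z => -phi δ δ' z) c := by
  set t := 2 * phi δ δ' c + 1 with ht
  have ht0 : 0 ≤ t := by linarith [phi_nonneg hδ' hc]
  have h1 : δ' c < exp (-t) := h.trans (exp_lt_exp.2 (by linarith))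
  obtain ⟨r1, hr1, h2⟩ := (ev_ball (((wt_hull hδ').ev hc).and
    (hδ'.cont.continuousAt.eventually (gt_mem_nhds h1)))).exists
  set r := r1 / 60 with hr
  have hr0 : 0 < r := by positivity
  have hS1 : ∀ y ∈ closedBall c r, 0 < hull δ δ' y := fun y hy =>
    (h2 y (closedBall_subset_closedBall (by linarith) hy)).1
  have hS : ∀ y ∈ closedBall c (30 * (2 * r)), 0 < δ y ∧ δ' y ≤ exp (-t) := fun y hy =>
    have := h2 y (closedBall_subset_closedBall (by linarith) hy)
    ⟨pos_of_hull this.1, this.2.le⟩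
  have hS' : ∀ y ∈ closedBall c r, 0 < δ y ∧ δ' y ≤ exp (-t) := fun y hy =>
    hS y (closedBall_subset_closedBall (by linarith) hy)
  have hb : ∀ ψ, Adm δ δ' ψ → ∀ y ∈ closedBall c r, ψ y ≤ t := by
    intro ψ hψ y hy
    by_contra hn
    obtain ⟨G, hG, h3⟩ := barrier hψ (by positivity : 0 < 2 * r) ht0 hS
      (by rwa [mul_div_cancel_left₀ _ two_ne_zero]) (not_le.1 hn)
    linarith [hG.le_phi hc]
  have hsub : ball c (r / 2) ⊆ ball c r := ball_subset_ball (by linarith)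
  have hlip : ∀ x ∈ ball c (r / 2), ∀ y ∈ ball c (r / 2),
      phi δ δ' x ≤ phi δ δ' y + exp (t + 1) / (r / 2) * ‖x - y‖ := by
    intro x hx y hy
    refine phi_le hδ' fun ψ hψ => le_of_forall_pos_le_add fun ε hε => ?_
    obtain ⟨P, hP, h3, G, hG, h4⟩ := harm_mod hr0 ht0 hS' hψ (hb ψ hψ)
      (lt_min (half_pos hε) one_pos)
    have h5 := re_lip hP hr0 (T := t + 1) (fun z hz =>
      ⟨(hψ.nonneg z (hS' z hz).1).trans (h3 z hz).1,
        (h3 z hz).2.trans (add_le_add_right (min_le_right _ _) _)⟩) hx hy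
    linarith [(h3 x (ball_subset_closedBall (hsub hx))).1, h4 y (hsub hy),
      hG.le_phi (hS1 y (ball_subset_closedBall (hsub hy))), min_le_left (ε / 2) 1]
  have hcont : ∀ y ∈ ball c (r / 2), ContinuousAt (phi δ δ') y := by
    have := (LipschitzOnWith.of_le_add_mul (s := ball c (r / 2)) (f := phi δ δ')
      ⟨exp (t + 1) / (r / 2), by positivity⟩
      fun x hx y hy => by rw [dist_eq_norm]; exact hlip x hx y hy).continuousOn
    exact fun y hy => this.continuousAt (isOpen_ball.mem_nhds hy)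
  have hev : ∀ᶠ y in 𝓝 c, y ∈ ball c (r / 2) := ball_mem_nhds c (half_pos hr0)
  refine ⟨hev.mono fun y hy => (hcont y hy).neg, ?_⟩
  filter_upwards [ev_ball hev] with s hs
  have hsp : ∀ y ∈ sphere c s, y ∈ closedBall c r := fun y hy =>
    ball_subset_closedBall (hsub (hs.2 y (sphere_subset_closedBall hy)))
  have i1 := ci_of hs.1.le fun y hy => hcont y (hs.2 y hy)
  have h3 : circleAverage (phi δ δ') c s ≤ phi δ δ' c := by
    refine le_of_forall_pos_le_add fun ε hε => ?_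
    obtain ⟨-, ψ, hψ, h3⟩ := exists_adm_compact hδ hδ' (isCompact_sphere c s)
      (fun y hy => (hS' y (hsp y hy)).1) (g := fun z => phi δ δ' z - ε / 3)
      (fun y hy => ((hcont y (hs.2 y (sphere_subset_closedBall hy))).sub
        continuousAt_const).continuousWithinAt)
      (W := fun _ _ => 0) (fun _ => continuousOn_const) (fun _ _ => monotone_const) (a := 0)
      fun y _ => Or.inr (exists_gt_phi hδ' (by linarith))
    obtain ⟨P, hP, h4, G, hG, h5⟩ := harm_mod hr0 ht0 hS' hψ (hb ψ hψ) (by positivity : 0 < ε / 3)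
    have h6 := avg_mono hs.1.le (g := fun z => (P z + (ε / 3 : ℝ)).re) i1
      (ci_of hs.1.le fun y _ => by have := hP.continuous; fun_prop) fun y hy => by
        have := (h3 y hy).resolve_left (lt_irrefl _)
        simp only [Complex.add_re, Complex.ofReal_re]
        linarith [(h4 y (hsp y hy)).1]
    rw [avg_re hs.1.le fun y _ => by fun_prop] at h6
    simp only [Complex.add_re, Complex.ofReal_re] at h6
    linarith [h5 c (mem_ball_self hr0), hG.le_phi hc]
  have h4 := avg_mul (-1) (phi δ δ') c s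
  simp only [neg_mul, one_mul] at h4
  linarith

end Pool.Agent.MP_26d9d0_an.H12

end MrgPart1

-- marker of a merged file
example : 731051 + 439642 = 731051 + 439642 := rfl
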