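import Mathlib.Analysis.Complex.LocallyUniformLimit
import Mathlib.Analysis.Complex.AbsMax
import Mathlib.Combinatorics.SimpleGraph.Basic
import Pool.Agent.MP_26d9d0_an.h12.Hull

-- ======== part 0: formerly Pool.Agent.MP_26d9d0_an.h12.Ext
section MrgPart0

set_option autoImplicit false

open Filter Topology Metric Real Set

namespace Pool.Agent.MP_26d9d0_an.H12

variable {δ δ' : ℂ → ℝ}

/-- `ω^N |u| ≤ c` on `{ω > 0}`. -/
def Bd (ω : ℂ → ℝ) (N : ℕ) (c : ℝ) (u : ℂ → ℂ) : Prop := ∀ z, 0 < ω z → ω z ^ N * ‖u z‖ ≤ c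

/-- Holomorphic on `{ω > 0}`. -/
def Hol (ω : ℂ → ℝ) (u : ℂ → ℂ) : Prop := ∀ z, 0 < ω z → DifferentiableAt ℂ u z

/-- Membership in `O(δ)`. -/
def R0 (δ : ℂ → ℝ) (v : ℂ → ℂ) : Prop := Hol δ v ∧ ∃ K C, Bd δ K C v

/-- Approximation at level `M` for the weight `ω` by elements of `O(δ)`. -/
def Ap (δ ω : ℂ → ℝ) (M : ℕ) (u : ℂ → ℂ) : Prop := ∀ ε > 0, ∃ v, R0 δ v ∧ Bd ω M ε (u - v)

section
variable {ω : ℂ → ℝ} {N M : ℕ} {c c' : ℝ} {u v : ℂ → ℂ}

lemma Bd.mono (hω : Wt ω) (h : Bd ω N c u) (hN : N ≤ M) (hc : c ≤ c') : Bd ω M c' u :=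
  fun z hz => (mul_le_mul_of_nonneg_right (pow_le_pow_of_le_one hz.le (hω.le_one z) hN)
    (norm_nonneg _)).trans ((h z hz).trans hc)

lemma Bd.add (h : Bd ω N c u) (h' : Bd ω N c' v) : Bd ω N (c + c') (u + v) := fun z hz => by
  have := mul_le_mul_of_nonneg_left (norm_add_le (u z) (v z)) (pow_nonneg hz.le N)
  simp only [Pi.add_apply]
  linarith [h z hz, h' z hz]

lemma Bd.smul (h : Bd ω N c u) (a : ℂ) : Bd ω N (‖a‖ * c) (a • u) := fun z hz => by
  have := mul_le_mul_of_nonneg_left (h z hz) (norm_nonneg a)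
  simp only [Pi.smul_apply, norm_smul]
  linarith

lemma Bd.neg (h : Bd ω N c u) : Bd ω N c (-u) := fun z hz => by simpa using h z hz

lemma Bd.sub (h : Bd ω N c u) (h' : Bd ω N c' v) : Bd ω N (c + c') (u - v) := by
  rw [sub_eq_add_neg]; exact h.add h'.neg

lemma Bd.mul (h : Bd ω N c u) (h' : Bd ω M c' v) : Bd ω (N + M) (c * c') (u * v) := fun z hz => by
  have h1 := h z hz
  have h0 : 0 ≤ ω z ^ N * ‖u z‖ := by positivity
  calc ω z ^ (N + M) * ‖(u * v) z‖ = (ω z ^ N * ‖u z‖) * (ω z ^ M * ‖v z‖) := by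
        rw [Pi.mul_apply, norm_mul]; ring
    _ ≤ c * c' := mul_le_mul h1 (h' z hz) (by positivity) (h0.trans h1)

lemma Bd.congr (h : Bd ω N c u) (h' : ∀ z, 0 < ω z → v z = u z) : Bd ω N c v :=
  fun z hz => by rw [h' z hz]; exact h z hz

lemma Hol.ev (hω : Wt ω) (h : Hol ω u) {z : ℂ} (hz : 0 < ω z) :
    ∀ᶠ y in 𝓝 z, DifferentiableAt ℂ u y := (hω.ev hz).mono h

lemma R0.add (hδ : Wt δ) (h : R0 δ u) (h' : R0 δ v) : R0 δ (u + v) := by
  obtain ⟨h1, K, C, h2⟩ := h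
  obtain ⟨h1', K', C', h2'⟩ := h'
  exact ⟨fun z hz => (h1 z hz).add (h1' z hz), K + K', C + C',
    (h2.mono hδ (by omega) le_rfl).add (h2'.mono hδ (by omega) le_rfl)⟩

lemma R0.smul (h : R0 δ u) (a : ℂ) : R0 δ (a • u) := by
  obtain ⟨h1, K, C, h2⟩ := h
  exact ⟨fun z hz => (h1 z hz).const_smul a, K, _, h2.smul a⟩

lemma R0.sub (hδ : Wt δ) (h : R0 δ u) (h' : R0 δ v) : R0 δ (u - v) := by
  simpa [sub_eq_add_neg] using h.add hδ (h'.smul (-1))

lemma R0.const (a : ℂ) : R0 δ fun _ => a :=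
  ⟨fun _ _ => differentiableAt_const a, 0, ‖a‖, fun _ _ => by simp⟩

lemma Ap.mono (hω : Wt ω) (h : Ap δ ω N u) (hN : N ≤ M) : Ap δ ω M u := fun ε hε => by
  obtain ⟨v, h1, h2⟩ := h ε hε
  exact ⟨v, h1, h2.mono hω hN le_rfl⟩

lemma le_exp_posLog (x : ℝ) : x ≤ exp (posLog x) := by
  rcases le_or_gt x 1 with h | h
  · exact h.trans (one_le_exp posLog_nonneg)
  · rw [posLog_eq_log (by rw [abs_of_pos (by linarith)]; exact h.le), exp_log (by linarith)]

lemma le_exp_neg_posLog {d x : ℝ} {M : ℕ} (hM : 0 < M) (hd : d ≤ 1) (hx : 0 ≤ x)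
    (h : 0 < d → d ^ M * x ≤ 1) : d ≤ exp (-((M : ℝ)⁻¹ * posLog x)) := by
  rcases le_or_gt d 0 with h0 | h0
  · exact h0.trans (exp_pos _).le
  rcases le_or_gt x 1 with h1 | h1
  · rw [(posLog_eq_zero_iff x).2 (by rwa [abs_of_nonneg hx])]
    simpa using hd
  have hM' : (0 : ℝ) < M := by exact_mod_cast hM
  rw [posLog_eq_log (by rw [abs_of_nonneg hx]; exact h1.le), ← Real.log_le_iff_le_exp h0]
  have h2 := Real.log_nonpos (by positivity) (h h0)
  rw [Real.log_mul (by positivity) (by positivity), Real.log_pow] at h2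
  rw [le_neg, inv_mul_le_iff₀ hM']
  linarith

lemma adm_of_R0 (hδ : Wt δ) (hω : Wt ω) (hv : R0 δ v) (hM : 0 < M) (hc : 0 < c)
    (h : Bd ω M c v) : Adm δ ω fun z => (M : ℝ)⁻¹ * posLog ‖v z / c‖ := by
  have hM' : (1 : ℝ) ≤ M := by exact_mod_cast hM
  have hn : ∀ z, ‖v z / c‖ = ‖v z‖ / c := fun z => by
    rw [norm_div, Complex.norm_real, Real.norm_eq_abs, abs_of_pos hc]
  refine ⟨fun z hz => (SHAt.posLog_norm ((hv.1.ev hδ hz).mono fun y hy =>
    hy.div_const _)).const_mul (by positivity), fun z _ => mul_nonneg (by positivity) posLog_nonneg,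
    fun z _ => le_exp_neg_posLog hM (hω.le_one z) (norm_nonneg _) fun h0 => ?_, ?_⟩
  · rw [hn, ← mul_div_assoc, div_le_one hc]; exact h z h0
  · obtain ⟨K, C, hK⟩ := hv.2
    refine ⟨K, 1 + C / c, fun z hz => ?_⟩
    have h1 : (M : ℝ)⁻¹ * posLog ‖v z / c‖ ≤ posLog ‖v z / c‖ :=
      mul_le_of_le_one_left posLog_nonneg (inv_le_one_of_one_le₀ hM')
    have h2 : exp (posLog ‖v z / c‖) ≤ 1 + ‖v z‖ / c := by
      rw [posLog_eq_log_max_one (norm_nonneg _), exp_log (lt_max_of_lt_left one_pos), hn]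
      exact max_le (le_add_of_nonneg_right (by positivity)) (by linarith)
    have h3 : δ z ^ K ≤ 1 := pow_le_one₀ hz.le (hδ.le_one z)
    have h4 : δ z ^ K * (‖v z‖ / c) ≤ C / c := by
      rw [← mul_div_assoc]; gcongr; exact hK z hz
    calc δ z ^ K * exp ((M : ℝ)⁻¹ * posLog ‖v z / c‖) ≤ δ z ^ K * (1 + ‖v z‖ / c) := by
          gcongr; exact (exp_le_exp.2 h1).trans h2
      _ ≤ 1 + C / c := by linarith

lemma norm_le_of_posLog {a : ℂ} {t : ℝ} (hM : 0 < M) (hc : 0 < c)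
    (h : (M : ℝ)⁻¹ * posLog ‖a / c‖ ≤ t) : ‖a‖ ≤ c * exp (M * t) := by
  have hM' : (0 : ℝ) < M := by exact_mod_cast hM
  rw [inv_mul_le_iff₀ hM'] at h
  have := (le_exp_posLog _).trans (exp_le_exp.2 h)
  rwa [norm_div, Complex.norm_real, Real.norm_eq_abs, abs_of_pos hc, div_le_iff₀' hc] at this

lemma norm_le_phi (hδ : Wt δ) (hδ' : Wt δ') (hv : R0 δ v) (hM : 0 < M) (hc : 0 < c)
    (h : Bd δ' M c v) {z : ℂ} (hz : 0 < hull δ δ' z) : ‖v z‖ ≤ c * exp (M * phi δ δ' z) :=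
  norm_le_of_posLog hM hc ((adm_of_R0 hδ hδ' hv hM hc h).le_phi hz)

lemma bd_hull (hδ' : Wt δ') {a : ℂ} {z : ℂ} (hz : 0 < hull δ δ' z)
    (h : ‖a‖ ≤ c * exp (M * phi δ δ' z)) : hull δ δ' z ^ M * ‖a‖ ≤ c := by
  calc hull δ δ' z ^ M * ‖a‖ ≤ exp (-phi δ δ' z) ^ M * (c * exp (M * phi δ δ' z)) := by
        gcongr; exact hull_le_exp hδ' hz
    _ = c := by
        rw [← exp_nat_mul, mul_left_comm, ← exp_add]; simp

end

/-- The key bound for the extension, special to one variable. -/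
lemma ext_bound (hδ : Wt δ) (hδ' : Wt δ') (hle : ∀ z, δ' z ≤ δ z) {U : ℂ → ℂ}
    (hU : Hol (hull δ δ') U) {N M : ℕ} (hN : 0 < N) {c C : ℝ} (hc : 0 < c) (hC : 0 ≤ C)
    (h1 : Bd δ' N c U) (h2 : ∀ z, 0 < hull δ δ' z → ‖U z‖ ≤ C * exp (M * phi δ δ' z))
    {z : ℂ} (hz : 0 < hull δ δ' z) : ‖U z‖ ≤ c * exp (N * (2 * phi δ δ' z + 4)) := by
  apply norm_le_of_posLog hN hc
  set V : ℂ → ℝ := fun z => (N : ℝ)⁻¹ * posLog ‖U z / c‖ with hV
  change V z ≤ _
  have hw := wt_hull (δ := δ) hδ'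
  have hN' : (1 : ℝ) ≤ N := by exact_mod_cast hN
  have hn : ∀ z, ‖U z / c‖ = ‖U z‖ / c := fun z => by
    rw [norm_div, Complex.norm_real, Real.norm_eq_abs, abs_of_pos hc]
  have hV0 : ∀ z, 0 ≤ V z := fun z => mul_nonneg (by positivity) posLog_nonneg
  have hV1 : ∀ z, δ' z ≤ exp (-V z) := fun z =>
    le_exp_neg_posLog hN (hδ'.le_one z) (norm_nonneg _) fun h0 => by
      rw [hn, ← mul_div_assoc, div_le_one hc]; exact h1 z h0
  set C2 := posLog (C / c) with hC2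
  have hC0 : 0 ≤ C2 := posLog_nonneg
  have hV2 : ∀ z, 0 < hull δ δ' z → V z ≤ M * phi δ δ' z + C2 := by
    intro z hz
    have h3 : V z ≤ posLog ‖U z / c‖ :=
      mul_le_of_le_one_left posLog_nonneg (inv_le_one_of_one_le₀ hN')
    have h4 : ‖U z / c‖ ≤ C / c * exp (M * phi δ δ' z) := by
      rw [hn, div_mul_eq_mul_div]; gcongr; exact h2 z hz
    have h5 : 0 ≤ M * phi δ δ' z := mul_nonneg (Nat.cast_nonneg M) (phi_nonneg hδ' hz)
    have h6 := (posLog_le_posLog (norm_nonneg _) h4).trans posLog_mul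
    rw [posLog_eq_log (x := exp _) (by rw [abs_of_pos (exp_pos _)]; exact one_le_exp h5),
      log_exp] at h6
    linarith
  by_cases hY : δ' z < exp (-(2 * phi δ δ' z + 2))
  swap
  · have := exp_le_exp.1 ((not_lt.1 hY).trans (hV1 z))
    linarith
  let Y : Set ℂ := {z | 0 < hull δ δ' z ∧ δ' z < exp (-(2 * phi δ δ' z + 2))}
  have hYo : IsOpen Y := by
    refine isOpen_iff_mem_nhds.2 fun x hx => ?_
    have h3 : ContinuousAt (phi δ δ') x := 
      (neg_phi_sh hδ hδ' hx.1 hx.2).cont.neg.congr (Eventually.of_forall fun y => neg_neg _)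
    exact (hw.ev hx.1).and (hδ'.cont.continuousAt.eventually_lt (by fun_prop) hx.2)
  refine le_of_forall_pos_le_add fun ε hε => ?_
  obtain ⟨w, hwa, hwz⟩ := exists_gt_phi (δ := δ) hδ' (z := z)
    (a := phi δ δ' z - ε / (2 * (M + 1))) (sub_lt_self _ (by positivity))
  let f : ℂ → ℝ := fun y => 2⁻¹ * V y + ((M + 1) * -phi δ δ' y + ((M + 1) * w y + -2))
  have hM0 : (0 : ℝ) ≤ M := Nat.cast_nonneg M
  have hf1 : ∀ y, 0 < hull δ δ' y → f y ≤ V y / 2 - (phi δ δ' y - w y) - 2 := by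
    intro y hy
    have := mul_nonneg hM0 (sub_nonneg.2 (hwa.le_phi hy))
    simp only [f]; linarith
  have hG : Adm δ δ' (glue Y w f) := by
    refine hwa.glue hYo (m := M) (fun x hx => ?_) (fun x hx hxY => ?_) (fun x hx => ?_) hC0
      fun x hx => ?_
    · exact (((SHAt.posLog_norm ((hU.ev hw hx.1).mono fun y hy => hy.div_const _)).const_mul
        (by positivity)).const_mul (by positivity)).add
        (((neg_phi_sh hδ hδ' hx.1 hx.2).const_mul (by positivity)).add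
          (((hwa.sh x (pos_of_hull hx.1)).const_mul (by positivity)).add (SHAt.const _ _)))
    · by_cases hx1 : 0 < hull δ δ' x
      · have h3 : exp (-(2 * phi δ δ' x + 3)) < δ' x :=
          (exp_lt_exp.2 (by linarith)).trans_le (not_lt.1 fun h => hxY ⟨hx1, h⟩)
        obtain ⟨ψ, hψ, h4⟩ := exists_gt_phi (δ := δ) hδ' (z := x) (a := phi δ δ' x - 1 / 2)
          (by linarith)
        filter_upwards [hδ'.cont.continuousAt.eventually (lt_mem_nhds h3),
          (hψ.sh x hx).cont.eventually (lt_mem_nhds h4)] with y h5 h6 hy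
        have h7 := exp_lt_exp.1 (h5.trans_le (hV1 y))
        linarith [hf1 y hy.1, hψ.le_phi hy.1]
      · obtain ⟨ψ, hψ, h4⟩ := exists_gt_of_hull hδ hδ' hle hx hx1 (M * w x + C2)
        filter_upwards [((continuousAt_const.mul (hwa.sh x hx).cont).add
          continuousAt_const).eventually_lt (hψ.sh x hx).cont h4] with y h5 hy
        have h6 := hψ.le_phi hy.1
        have h7 := hV2 y hy.1
        have h8 := mul_nonneg hM0 (phi_nonneg hδ' hy.1)
        simp only [Pi.add_apply, Pi.mul_apply] at h5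
        simp only [f]; linarith
    · refine (hV1 x).trans (exp_le_exp.2 ?_)
      linarith [hf1 x hx.1, hwa.le_phi hx.1, hV0 x]
    · have h7 := hV2 x hx.1
      have h8 := mul_nonneg hM0 (phi_nonneg hδ' hx.1)
      simp only [f]; push_cast; linarith [phi_nonneg hδ' hx.1]
  have h3 := (le_glue' w f (show z ∈ Y from ⟨hz, hY⟩)).trans (hG.le_phi hz)
  have h4 : (M + 1) * (phi δ δ' z - w z) ≤ ε / 2 := by
    have : ε / 2 = (M + 1) * (ε / (2 * (M + 1))) := by field_simp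
    rw [this]; gcongr; linarith
  simp only [f] at h3
  linarith

lemma hol_of_approx {ω : ℂ → ℝ} (hω : Wt ω) {M : ℕ} {U : ℂ → ℂ} {v : ℕ → ℂ → ℂ}
    (hv : ∀ k, Hol ω (v k)) {e : ℕ → ℝ} (he : Tendsto e atTop (𝓝 0))
    (h : ∀ k, Bd ω M (e k) (U - v k)) : Hol ω U := by
  intro z hz
  have h1 : TendstoUniformlyOn v U atTop (ball z (ω z / 2)) := by
    refine Metric.tendstoUniformlyOn_iff.2 fun ε hε => ?_
    filter_upwards [he.eventually (gt_mem_nhds (by positivity : 0 < (ω z / 2) ^ M * ε))]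
      with k hk y hy
    have h2 := hω.half (ball_subset_closedBall hy)
    have h3 := h k y ((half_pos hz).trans_le h2)
    rw [dist_eq_norm]
    have h4 : (ω z / 2) ^ M * ‖U y - v k y‖ ≤ ω y ^ M * ‖U y - v k y‖ := by gcongr
    exact lt_of_mul_lt_mul_left (h4.trans_lt (h3.trans_lt hk)) (by positivity)
  exact (h1.tendstoLocallyUniformlyOn.differentiableOn (Eventually.of_forall fun k y hy =>
    (hv k y ((half_pos hz).trans_le (hω.half (ball_subset_closedBall hy)))).differentiableWithinAt)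
    isOpen_ball).differentiableAt (ball_mem_nhds z (half_pos hz))

/-- Extension of a limit to the hull. -/
theorem exists_ext (hδ : Wt δ) (hδ' : Wt δ') (hle : ∀ z, δ' z ≤ δ z) {u : ℂ → ℂ} {N M : ℕ}
    (hN : 0 < N) (hNM : N ≤ M) {c : ℝ} (hc : 0 < c) (h1 : Bd δ' N c u) (h2 : Ap δ δ' M u) :
    ∃ U : ℂ → ℂ, (∀ z, 0 < δ' z → U z = u z) ∧ (∀ z, ¬ 0 < hull δ δ' z → U z = 0) ∧
      Hol (hull δ δ') U ∧ Ap δ (hull δ δ') M U ∧
      ∀ z, 0 < hull δ δ' z → ‖U z‖ ≤ c * exp (N * (2 * phi δ δ' z + 4)) := by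
  classical
  have hM : 0 < M := hN.trans_le hNM
  have hw := wt_hull (δ := δ) hδ'
  let e : ℕ → ℝ := fun k => 1 / ((k : ℝ) + 1)
  have he0 : ∀ k, 0 < e k := fun k => by positivity
  have he : Tendsto e atTop (𝓝 0) := tendsto_one_div_add_atTop_nhds_zero_nat
  choose v hv hv' using fun k => h2 (e k) (he0 k)
  have hd : ∀ k l z, 0 < hull δ δ' z →
      ‖v l z - v k z‖ ≤ (e k + e l) * exp (M * phi δ δ' z) := fun k l z hz =>
    norm_le_phi hδ hδ' ((hv l).sub hδ (hv k)) hM (add_pos (he0 k) (he0 l))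
      (((hv' k).sub (hv' l)).congr fun y _ => by simp) hz
  have hcau : ∀ z, 0 < hull δ δ' z → ∃ a, Tendsto (fun k => v k z) atTop (𝓝 a) := by
    intro z hz
    refine cauchySeq_tendsto_of_complete (cauchySeq_of_le_tendsto_0
      (fun n => 2 * e n * exp (M * phi δ δ' z)) (fun k l n hk hl => ?_) ?_)
    · rw [dist_comm, dist_eq_norm]
      refine (hd k l z hz).trans ?_
      have h3 : e k ≤ e n := Nat.one_div_le_one_div hk
      have h4 : e l ≤ e n := Nat.one_div_le_one_div hl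
      gcongr; linarith
    · simpa using (he.const_mul 2).mul_const (exp (M * phi δ δ' z))
  choose! a ha using hcau
  let U : ℂ → ℂ := fun z => if 0 < hull δ δ' z then a z else 0
  have hU : ∀ k z, 0 < hull δ δ' z → ‖U z - v k z‖ ≤ e k * exp (M * phi δ δ' z) := by
    intro k z hz
    simp only [U, if_pos hz]
    refine le_of_tendsto_of_tendsto' ((ha z hz).sub_const (v k z)).norm ?_ fun l => hd k l z hz
    simpa using (he.const_add (e k)).mul_const (exp (M * phi δ δ' z))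
  have hB : ∀ k, Bd (hull δ δ') M (e k) (U - v k) := fun k z hz =>
    bd_hull hδ' hz (hU k z hz)
  have hUu : ∀ z, 0 < δ' z → U z = u z := by
    intro z hz
    have hz1 := hz.trans_le (le_hull hδ' hle z)
    simp only [U, if_pos hz1]
    refine tendsto_nhds_unique (ha z hz1) (tendsto_iff_norm_sub_tendsto_zero.2 ?_)
    refine squeeze_zero (fun _ => norm_nonneg _) (fun k => ?_)
      (by simpa using he.div_const (δ' z ^ M))
    rw [norm_sub_rev]
    exact (le_div_iff₀' (pow_pos hz M)).2 (hv' k z hz)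
  have hH : Hol (hull δ δ') U :=
    hol_of_approx hw (fun k z hz => (hv k).1 z (pos_of_hull hz)) he hB
  refine ⟨U, hUu, fun z hz => if_neg hz, hH, fun ε hε => ?_, fun z hz => ?_⟩
  · obtain ⟨k, hk⟩ := (he.eventually (gt_mem_nhds hε)).exists
    exact ⟨v k, hv k, (hB k).mono hw le_rfl hk.le⟩
  · refine ext_bound hδ hδ' hle hH hN (M := M) (C := e 0 + (c + e 0)) hc (by positivity)
      (h1.congr hUu) (fun y hy => ?_) hz
    have h3 := norm_le_phi hδ hδ' (hv 0) hM (add_pos hc (he0 0))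
      (((h1.mono hδ' hNM le_rfl).sub (hv' 0)).congr fun y _ => by simp) hy
    linarith [hU 0 y hy, norm_le_norm_add_norm_sub' (U y) (v 0 y)]

end Pool.Agent.MP_26d9d0_an.H12

end MrgPart0

-- ======== part 1: formerly Pool.Agent.MP_26d9d0_an.h12.DQ
section MrgPart1

set_option autoImplicit false

open Filter Topology Metric Real Set

namespace Pool.Agent.MP_26d9d0_an.H12

/-- `ω^N |u| ≤ c (1 + |z|)^j` on `{ω > 0}`. -/
def Bt (ω : ℂ → ℝ) (N j : ℕ) (c : ℝ) (u : ℂ → ℂ) : Prop :=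
  ∀ z, 0 < ω z → ω z ^ N * ‖u z‖ ≤ c * (1 + ‖z‖) ^ j

variable {ω : ℂ → ℝ} {N M j : ℕ} {c c' η : ℝ} {u v h : ℂ → ℂ}

lemma bt_zero : Bt ω N 0 c u ↔ Bd ω N c u := by simp [Bt, Bd]

lemma Bt.congr (h : Bt ω N j c u) (h' : ∀ z, 0 < ω z → v z = u z) : Bt ω N j c v :=
  fun z hz => by rw [h' z hz]; exact h z hz

lemma Bt.mono (h : Bt ω N j c u) (hc : c ≤ c') : Bt ω N j c' u :=
  fun z hz => (h z hz).trans (by gcongr)

lemma Bt.weaken {ω' : ℂ → ℝ} (h : Bt ω N j c u) (hle : ∀ z, ω' z ≤ ω z) : Bt ω' N j c u :=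
  fun z hz => le_trans (by gcongr; exact hle z) (h z (hz.trans_le (hle z)))

lemma Bd.weaken {ω' : ℂ → ℝ} (h : Bd ω N c u) (hle : ∀ z, ω' z ≤ ω z) : Bd ω' N c u :=
  bt_zero.1 ((bt_zero.2 h).weaken hle)

lemma Hol.weaken {ω' : ℂ → ℝ} (h : Hol ω u) (hle : ∀ z, 0 < ω' z → 0 < ω z) : Hol ω' u :=
  fun z hz => h z (hle z hz)

lemma Hol.sub (h : Hol ω u) (h' : Hol ω v) : Hol ω (u - v) := fun z hz => (h z hz).sub (h' z hz)

lemma Hol.dslope (hω : Wt ω) (hh : Hol ω h) (b : ℂ) : Hol ω (dslope h b) := by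
  intro z hz
  rcases eq_or_ne z b with rfl | hne
  · exact ((Complex.differentiableOn_dslope (hω.ev hz)).2
      fun y hy => (hh y hy).differentiableWithinAt).differentiableAt (hω.ev hz)
  · exact (differentiableAt_dslope_of_ne hne).2 (hh z hz)

lemma Hol.analyticAt (hω : Wt ω) (hh : Hol ω h) {z : ℂ} (hz : 0 < ω z) : AnalyticAt ℂ h z :=
  Complex.analyticAt_iff_eventually_differentiableAt.2 (hh.ev hω hz)

lemma norm_dslope_mul (h : ℂ → ℂ) (b z : ℂ) : ‖z - b‖ * ‖dslope h b z‖ ≤ ‖h z‖ + ‖h b‖ := by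
  rw [← norm_smul, sub_smul_dslope]; exact norm_sub_le _ _

lemma Wt.ball (hω : Wt ω) {z y : ℂ} (hz : 0 < ω z) (hy : y ∈ closedBall z (ω z / 2)) :
    0 < ω y ∧ ω z ≤ 2 * ω y ∧ 1 + ‖y‖ ≤ 2 * (1 + ‖z‖) := by
  have h1 := hω.half hy
  rw [mem_closedBall, dist_eq_norm] at hy
  refine ⟨by linarith, by linarith, ?_⟩
  linarith [norm_le_norm_add_norm_sub' y z, hω.le_one z, norm_nonneg z]

lemma Bt.ball (hω : Wt ω) (hb : Bt ω M j η h) (hη : 0 ≤ η) {z y : ℂ} (hz : 0 < ω z)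
    (hy : y ∈ closedBall z (ω z / 2)) : ω z ^ M * ‖h y‖ ≤ 2 ^ (M + j) * (η * (1 + ‖z‖) ^ j) := by
  obtain ⟨h1, h2, h3⟩ := hω.ball hz hy
  calc ω z ^ M * ‖h y‖ ≤ (2 * ω y) ^ M * ‖h y‖ := by gcongr
    _ = 2 ^ M * (ω y ^ M * ‖h y‖) := by rw [mul_pow]; ring
    _ ≤ 2 ^ M * (η * (2 * (1 + ‖z‖)) ^ j) := by
        exact mul_le_mul_of_nonneg_left ((hb y h1).trans (by gcongr)) (by positivity)
    _ = _ := by rw [mul_pow, pow_add]; ring

/-- Difference quotient estimate. -/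
lemma dq (hω : Wt ω) (hh : Hol ω h) (hb : Bt ω M j η h) (hη : 0 ≤ η) (b : ℂ) {z : ℂ}
    (hz : 0 < ω z) : ω z ^ (M + 1) * ‖dslope h b z‖ * max 1 ‖z - b‖ ≤
      4 * 2 ^ (M + j) * (η * (1 + ‖z‖) ^ j + ‖h b‖) := by
  have h2 : (1 : ℝ) ≤ 2 ^ (M + j) := one_le_pow₀ one_le_two
  have hp : ω z ^ M ≤ 1 := pow_le_one₀ hz.le (hω.le_one z)
  have key : ∀ y ∈ closedBall z (ω z / 2), ω z ^ M * (‖y - b‖ * ‖dslope h b y‖) ≤
      2 ^ (M + j) * (η * (1 + ‖z‖) ^ j + ‖h b‖) := by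
    intro y hy
    have h3 := hb.ball hω hη hz hy
    have h4 := mul_le_mul_of_nonneg_left (norm_dslope_mul h b y) (pow_nonneg hz.le M)
    have h5 : ω z ^ M * ‖h b‖ ≤ 2 ^ (M + j) * ‖h b‖ := by gcongr; linarith
    linarith
  rcases le_or_gt (ω z / 4) ‖z - b‖ with h3 | h3
  · have h4 := key z (mem_closedBall_self (half_pos hz).le)
    have h5 : ω z * max 1 ‖z - b‖ ≤ 4 * ‖z - b‖ := by
      rw [mul_max_of_nonneg _ _ hz.le]
      exact max_le (by linarith) (by nlinarith [hω.le_one z, norm_nonneg (z - b)])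
    calc _ = ω z ^ M * ‖dslope h b z‖ * (ω z * max 1 ‖z - b‖) := by ring
      _ ≤ ω z ^ M * ‖dslope h b z‖ * (4 * ‖z - b‖) := by gcongr
      _ ≤ _ := by linarith
  · rw [max_eq_left (by linarith [hω.le_one z]), mul_one, ← le_div_iff₀' (pow_pos hz _)]
    refine Complex.norm_le_of_forall_mem_frontier_norm_le (U := ball z (ω z / 2)) isBounded_ball
      (DifferentiableOn.diffContOnCl fun y hy => (hh.dslope hω b y (hω.ball hz
        (closure_ball_subset_closedBall hy)).1).differentiableWithinAt) (fun y hy => ?_)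
      (subset_closure (mem_ball_self (half_pos hz)))
    rw [frontier_ball z (half_pos hz).ne'] at hy
    have h4 := key y (sphere_subset_closedBall hy)
    rw [mem_sphere, dist_eq_norm] at hy
    have h5 : ω z ≤ 4 * ‖y - b‖ := by
      have := norm_sub_le_norm_sub_add_norm_sub y b z
      rw [norm_sub_rev b z] at this
      linarith
    rw [le_div_iff₀' (pow_pos hz _)]
    calc _ = ω z ^ M * ‖dslope h b y‖ * ω z := by ring
      _ ≤ ω z ^ M * ‖dslope h b y‖ * (4 * ‖y - b‖) := by gcongr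
      _ ≤ _ := by linarith

lemma one_add_norm_le (z b : ℂ) : 1 + ‖z‖ ≤ (2 + ‖b‖) * max 1 ‖z - b‖ := by
  have h1 := le_max_left 1 ‖z - b‖
  have h2 := le_max_right 1 ‖z - b‖
  nlinarith [norm_le_norm_add_norm_sub' z b, norm_nonneg b]

lemma dq1 (hω : Wt ω) (hh : Hol ω h) (hb : Bt ω M (j + 1) η h) (hη : 0 ≤ η) (b : ℂ) :
    Bt ω (M + 1) j (4 * 2 ^ (M + (j + 1)) * (2 + ‖b‖) * (η + ‖h b‖)) (dslope h b) := by
  intro z hz
  have h1 := dq hω hh hb hη b hz
  have h2 : (1 : ℝ) ≤ (1 + ‖z‖) ^ (j + 1) := one_le_pow₀ (by simp)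
  refine le_of_mul_le_mul_right ?_ (by positivity : 0 < 1 + ‖z‖)
  calc _ ≤ ω z ^ (M + 1) * ‖dslope h b z‖ * ((2 + ‖b‖) * max 1 ‖z - b‖) := by
        gcongr; exact one_add_norm_le z b
    _ = (2 + ‖b‖) * (ω z ^ (M + 1) * ‖dslope h b z‖ * max 1 ‖z - b‖) := by ring
    _ ≤ (2 + ‖b‖) * (4 * 2 ^ (M + (j + 1)) * (η * (1 + ‖z‖) ^ (j + 1) +
        ‖h b‖ * (1 + ‖z‖) ^ (j + 1))) := by
        refine mul_le_mul_of_nonneg_left (h1.trans ?_) (by positivity)
        gcongr; exact le_mul_of_one_le_right (norm_nonneg _) h2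
    _ = _ := by ring

lemma dq0 (hω : Wt ω) (hh : Hol ω h) (hb : Bd ω M η h) (hη : 0 ≤ η) (b : ℂ) :
    Bd ω (M + 1) (4 * 2 ^ M * (η + ‖h b‖)) (dslope h b) := fun z hz => by
  simpa using (le_mul_of_one_le_right (by positivity) (le_max_left _ _)).trans
    (dq hω hh (bt_zero.2 hb) hη b hz)

lemma dslope_sub (hu : Hol ω u) (hv : Hol ω v) (b : ℂ) {z : ℂ} (hz : 0 < ω z) :
    dslope (u - v) b z = dslope u b z - dslope v b z := by
  rcases eq_or_ne z b with rfl | hne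
  · simp only [dslope_same]; exact deriv_sub (hu z hz) (hv z hz)
  · simp only [dslope_of_ne _ hne, slope_def_field, Pi.sub_apply]; ring

lemma dslope_dslope (hω : Wt ω) (hh : Hol ω h) {a b : ℂ} (hab : a ≠ b) {z : ℂ} (hz : 0 < ω z) :
    dslope (dslope h a) b z = (a - b)⁻¹ * (dslope h a z - dslope h b z) := by
  have key : ∀ z, z ≠ b → dslope (dslope h a) b z = (a - b)⁻¹ * (dslope h a z - dslope h b z) := by
    intro z hne
    have h1 := sub_smul_dslope h a z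
    have h2 := sub_smul_dslope h b z
    have h3 := sub_smul_dslope h a b
    have h4 := sub_ne_zero.2 hne
    have h5 := sub_ne_zero.2 hab
    rw [dslope_of_ne _ hne, slope_def_field]
    simp only [smul_eq_mul] at h1 h2 h3
    field_simp
    linear_combination h2 + h3 - h1
  rcases eq_or_ne z b with rfl | hne
  · have c1 := ((hh.dslope hω a).dslope hω z z hz).continuousAt
    have c2 : ContinuousAt (fun y => (a - z)⁻¹ * (dslope h a y - dslope h z y)) z :=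
      continuousAt_const.mul ((hh.dslope hω a z hz).continuousAt.sub
        (hh.dslope hω z z hz).continuousAt)
    exact tendsto_nhds_unique_of_eventuallyEq (c1.tendsto.mono_left nhdsWithin_le_nhds)
      (c2.tendsto.mono_left nhdsWithin_le_nhds) (eventually_nhdsWithin_of_forall (s := {z}ᶜ) key)
  · exact key z hne

/-- The third divided difference as a combination of difference quotients. -/
noncomputable def T3 (h : ℂ → ℂ) (a b d : ℂ) : ℂ → ℂ :=
  (b - d)⁻¹ • ((a - b)⁻¹ • (dslope h a - dslope h b) - (a - d)⁻¹ • (dslope h a - dslope h d))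

lemma T3_hol (hω : Wt ω) (hh : Hol ω h) (a b d : ℂ) : Hol ω (T3 h a b d) := fun z hz => by
  have h1 := hh.dslope hω a z hz
  have h2 := hh.dslope hω b z hz
  have h3 := hh.dslope hω d z hz
  unfold T3
  fun_prop

lemma T3_bd (hω : Wt ω) {a b d : ℂ} (hab : a ≠ b) (had : a ≠ d) (hbd : b ≠ d) (M : ℕ) :
    ∃ C, 0 < C ∧ ∀ (h : ℂ → ℂ) (η : ℝ), 0 ≤ η → Hol ω h → Bt ω M 3 η h → ‖h a‖ ≤ η → ‖h b‖ ≤ η →
      ‖h d‖ ≤ η → Bd ω (M + 3) (C * η) (T3 h a b d) := by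
  have p1 := norm_pos_iff.2 (sub_ne_zero.2 hab.symm)
  have p2 := norm_pos_iff.2 (sub_ne_zero.2 had.symm)
  have p3 := norm_pos_iff.2 (sub_ne_zero.2 hbd.symm)
  let C1 := 4 * 2 ^ (M + 3) * (2 + ‖a‖) * 2
  let C2 := 4 * 2 ^ (M + 1 + 2) * (2 + ‖b‖) * (C1 + 2 / ‖b - a‖)
  refine ⟨4 * 2 ^ (M + 1 + 1 + 1) * (2 + ‖d‖) * (C2 + (2 / ‖d - a‖ + 2 / ‖b - a‖) / ‖d - b‖),
    by positivity, fun h η hη hh h0 ha hb hd => ?_⟩
  have e1 : ‖dslope h a b‖ ≤ 2 / ‖b - a‖ * η := by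
    rw [div_mul_eq_mul_div, le_div_iff₀' p1]; linarith [norm_dslope_mul h a b]
  have e2 : ‖dslope h a d‖ ≤ 2 / ‖d - a‖ * η := by
    rw [div_mul_eq_mul_div, le_div_iff₀' p2]; linarith [norm_dslope_mul h a d]
  have e3 : ‖dslope (dslope h a) b d‖ ≤ (2 / ‖d - a‖ + 2 / ‖b - a‖) / ‖d - b‖ * η := by
    rw [div_mul_eq_mul_div, le_div_iff₀' p3]; linarith [norm_dslope_mul (dslope h a) b d]
  have s1 : Bt ω (M + 1) 2 (C1 * η) (dslope h a) := (dq1 hω hh h0 hη a).mono (by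
    calc _ ≤ 4 * 2 ^ (M + 3) * (2 + ‖a‖) * (η + η) := by gcongr
      _ = _ := by ring)
  have s2 : Bt ω (M + 1 + 1) 1 (C2 * η) (dslope (dslope h a) b) :=
    (dq1 hω (hh.dslope hω a) s1 (by positivity) b).mono (by
      calc _ ≤ 4 * 2 ^ (M + 1 + 2) * (2 + ‖b‖) * (C1 * η + 2 / ‖b - a‖ * η) := by gcongr
        _ = _ := by ring)
  refine (bt_zero.1 ((dq1 hω ((hh.dslope hω a).dslope hω b) s2 (by positivity) d).mono ?_)).congr
    fun z hz => ?_
  · calc _ ≤ 4 * 2 ^ (M + 1 + 1 + 1) * (2 + ‖d‖) *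
        (C2 * η + (2 / ‖d - a‖ + 2 / ‖b - a‖) / ‖d - b‖ * η) := by gcongr
      _ = _ := by ring
  · rw [dslope_dslope hω (hh.dslope hω a) hbd hz, dslope_dslope hω hh hab hz,
      dslope_dslope hω hh had hz]
    simp [T3]

end Pool.Agent.MP_26d9d0_an.H12

end MrgPart1

-- marker of a merged file
example : 731051 + 130000 = 731051 + 130000 := rfl
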