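import Mathlib.Algebra.Ring.IsFormallyReal
import Pool.Agent.MP_26d9d0_an.h12.DQ
import Pool.Agent.MP_26d9d0_an.h12.Cutoff

set_option autoImplicit false

open Filter Topology Metric Real Set

namespace Pool.Agent.MP_26d9d0_an.H12

variable {δ ω : ℂ → ℝ}

/-- Sums of squares of moduli of holomorphic functions with growth conditions. -/
structure SQ (δ : ℂ → ℝ) (q : ℕ) (Q : ℂ → ℝ) : Prop where
  cd : ∀ z, 0 < δ z → ContDiffAt ℝ 2 Q z
  nonneg : ∀ z, 0 ≤ Q z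
  pol : ∀ x, ∃ g, Hol δ g ∧ g x = Q x ∧ ∀ z, ‖g z‖ ≤ √(Q x) * √(Q z)
  growth : ∃ (K : ℕ) (D : ℝ), ∀ z, 0 < δ z → δ z ^ K * Q z ≤ D * ((1 + ‖z‖) ^ q) ^ 2

lemma SQ.sq (hδ : Wt δ) {q K : ℕ} {D : ℝ} {h : ℂ → ℂ} (hh : Hol δ h) (hb : Bt δ K q D h) :
    SQ δ q fun z => ‖h z‖ ^ 2 := by
  refine ⟨fun z hz => ((hh.analyticAt hδ hz).contDiffAt.restrict_scalars ℝ).norm_sq ℝ,
    fun z => sq_nonneg _, fun x => ⟨fun z => (starRingEnd ℂ) (h x) * h z,
      fun z hz => (hh z hz).const_mul _, ?_, fun z => by simp⟩, K * 2, D ^ 2, fun z hz => ?_⟩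
  · simp only [Complex.conj_mul']; simp
  · rw [pow_mul, ← mul_pow, ← mul_pow]
    exact pow_le_pow_left₀ (by positivity) (hb z hz) 2

lemma SQ.add (hδ : Wt δ) {q : ℕ} {Q Q' : ℂ → ℝ} (h : SQ δ q Q) (h' : SQ δ q Q') :
    SQ δ q fun z => Q z + Q' z := by
  refine ⟨fun z hz => (h.cd z hz).add (h'.cd z hz), fun z => add_nonneg (h.nonneg z) (h'.nonneg z),
    fun x => ?_, ?_⟩
  · obtain ⟨g, h1, h2, h3⟩ := h.pol x
    obtain ⟨g', h1', h2', h3'⟩ := h'.pol x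
    refine ⟨fun z => g z + g' z, fun z hz => (h1 z hz).add (h1' z hz), by simp [h2, h2'],
      fun z => (norm_add_le_of_le (h3 z) (h3' z)).trans ?_⟩
    rw [← Real.sqrt_mul (add_nonneg (h.nonneg x) (h'.nonneg x))]
    refine Real.le_sqrt_of_sq_le ?_
    rw [← Real.sq_sqrt (h.nonneg x), ← Real.sq_sqrt (h.nonneg z), ← Real.sq_sqrt (h'.nonneg x),
      ← Real.sq_sqrt (h'.nonneg z)]
    simp only [Real.sqrt_sq (Real.sqrt_nonneg _)]
    nlinarith [sq_nonneg (√(Q x) * √(Q' z) - √(Q' x) * √(Q z))]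
  · obtain ⟨K, D, h1⟩ := h.growth
    obtain ⟨K', D', h1'⟩ := h'.growth
    refine ⟨K + K', D + D', fun z hz => ?_⟩
    have h3 : δ z ^ (K + K') ≤ δ z ^ K := pow_le_pow_of_le_one hz.le (hδ.le_one z) (by omega)
    have h4 : δ z ^ (K + K') ≤ δ z ^ K' := pow_le_pow_of_le_one hz.le (hδ.le_one z) (by omega)
    linarith [mul_le_mul_of_nonneg_right h3 (h.nonneg z), mul_le_mul_of_nonneg_right h4
      (h'.nonneg z), h1 z hz, h1' z hz]

lemma SQ.const (hδ : Wt δ) (q : ℕ) (a : ℂ) : SQ δ q fun _ => ‖a‖ ^ 2 :=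
  SQ.sq hδ (K := 0) (D := ‖a‖) (h := fun _ => a) (fun _ _ => differentiableAt_const a)
    fun z _ => by simpa using le_mul_of_one_le_right (norm_nonneg a) (one_le_pow₀ (by simp))

lemma SQ.sum (hδ : Wt δ) {q : ℕ} {ι : Type*} (s : Finset ι) {Q : ι → ℂ → ℝ}
    (h : ∀ i ∈ s, SQ δ q (Q i)) : SQ δ q fun z => ∑ i ∈ s, Q i z := by
  classical
  induction s using Finset.induction_on with
  | empty => simpa using SQ.const hδ q 0
  | insert a s ha ih =>
    simp only [Finset.sum_insert ha]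
    exact (h a (Finset.mem_insert_self _ _)).add hδ
      (ih fun i hi => h i (Finset.mem_insert_of_mem hi))

lemma SQ.sh (hδ : Wt δ) {q : ℕ} {Q : ℂ → ℝ} (h : SQ δ q Q) (h1 : ∀ z, 1 ≤ Q z) {a : ℝ}
    (ha : 0 ≤ a) (A : ℝ) {x : ℂ} (hx : 0 < δ x) :
    SHAt (fun z => a * Real.log (Q z) + A) x ∧
      ContDiffAt ℝ 2 (fun z => a * Real.log (Q z) + A) x := by
  have h0 : ∀ z, 0 < Q z := fun z => one_pos.trans_le (h1 z)
  refine ⟨(SHAt.const_mul ?_ ha).add (SHAt.const A x),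
    (contDiffAt_const.mul ((h.cd x hx).log (h0 x).ne')).add contDiffAt_const⟩
  obtain ⟨g, h2, h3, h4⟩ := h.pol x
  have h5 : g x ≠ 0 := by rw [h3]; exact_mod_cast (h0 x).ne'
  refine ((SHAt.log_norm (h2.ev hδ hx) h5 2).add (SHAt.const (-Real.log (Q x)) x)).of_le
    ((hδ.ev hx).mono fun y hy => (h.cd y hy).continuousAt.log (h0 y).ne') ?_ (le_of_eq ?_)
  · filter_upwards [(h2 x hx).continuousAt.eventually_ne h5] with y hy
    have := Real.log_le_log (norm_pos_iff.2 hy) (h4 y)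
    rw [Real.log_mul (Real.sqrt_pos.2 (h0 x)).ne' (Real.sqrt_pos.2 (h0 y)).ne',
      Real.log_sqrt (h0 x).le, Real.log_sqrt (h0 y).le] at this
    linarith
  · rw [h3, Complex.norm_real, Real.norm_of_nonneg (h0 x).le]; ring

/-- Weighted form of the solution estimate. -/
theorem solve' : ∃ C1 : ℝ, 0 < C1 ∧ ∀ {δ : ℂ → ℝ} (_ : Wt δ) {ψ W : ℂ → ℝ}
    (_ : ∀ z, 0 < δ z → SHAt ψ z) (_ : ∀ z, 0 < δ z → SHAt W z ∧ ContDiffAt ℝ 2 W z) {Φ : ℂ → ℂ}
    (_ : ∀ z, 0 < δ z → ContDiffAt ℝ 1 Φ z) {c : ℂ} {b ρ : ℝ} (_ : 0 ≤ b) (_ : 0 ≤ ρ)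
    (_ : ∀ z, 0 < δ z → Db Φ z ≠ 0 → z ∈ closedBall c ρ ∧ 0 ≤ W z ∧ W z ≤ 1 ∧
      ‖Db Φ z‖ ^ 2 ≤ (b * exp (ψ z)) ^ 2 * (dd 1 W z ^ 2 + dd Complex.I W z ^ 2)),
    ∃ w : ℂ → ℂ, Hol δ w ∧ ∀ (ω : ℂ → ℝ) (K j : ℕ) (D m : ℝ) (h : ℂ → ℂ), Wt ω →
      (∀ z, 0 < ω z → 0 < δ z) → 0 ≤ D → Hol ω h →
      (∀ y, 0 < ω y → (ω y ^ K * exp (ψ y)) ^ 2 * (1 + exp (W y)) ≤ (D * (1 + ‖y‖) ^ j) ^ 2) →
      (∀ z, 0 < ω z → ∀ y ∈ closedBall z (ω z / 2),
        ω z ^ (K + 1) * ‖Φ y - h y‖ ≤ m * (1 + ‖z‖) ^ j) →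
      Bt ω (K + 1) j (m + C1 * b * ρ * 2 ^ (K + j) * D) (h - w) := by
  obtain ⟨C1, hC1, hs⟩ := solve
  refine ⟨C1 * 2, by positivity, fun {δ} hδ {ψ W} hψ hW {Φ} hΦ {c b ρ} hb hρ hf => ?_⟩
  obtain ⟨w, h1, h2⟩ := hs hδ.isOpen hψ hW hΦ hb hρ hf
  refine ⟨w, h1, fun ω K j D m h hω hsub hD hh h3 h4 z hz => ?_⟩
  have h5 := h2 z (ω z / 2) h (m * (1 + ‖z‖) ^ j / ω z ^ (K + 1))
    (2 ^ (K + j) * D * (1 + ‖z‖) ^ j / ω z ^ K) (half_pos hz)
    (fun y hy => hsub y (hω.ball hz hy).1) (fun y hy => hh.analyticAt hω (hω.ball hz hy).1)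
    (fun y hy => (le_div_iff₀' (pow_pos hz _)).2 (h4 z hz y hy)) (by positivity) fun y hy => by
      obtain ⟨e1, e2, e3⟩ := hω.ball hz hy
      rw [div_pow, le_div_iff₀ (by positivity)]
      calc _ ≤ exp (ψ y) ^ 2 * (1 + exp (W y)) * ((2 * ω y) ^ K) ^ 2 := by gcongr
        _ = (2 ^ K) ^ 2 * ((ω y ^ K * exp (ψ y)) ^ 2 * (1 + exp (W y))) := by rw [mul_pow]; ring
        _ ≤ (2 ^ K) ^ 2 * (D * (2 * (1 + ‖z‖)) ^ j) ^ 2 :=
          mul_le_mul_of_nonneg_left ((h3 y e1).trans (by gcongr)) (by positivity)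
        _ = _ := by rw [mul_pow 2, pow_add]; ring
  rw [Pi.sub_apply, norm_sub_rev]
  refine (mul_le_mul_of_nonneg_left h5 (by positivity)).trans (le_of_eq ?_)
  field_simp
  ring

lemma Adm.mul_exp_le {ψ : ℂ → ℝ} (h : Adm δ ω ψ) {z : ℂ} (hz : 0 < δ z) :
    ω z * exp (ψ z) ≤ 1 := by
  have := mul_le_mul_of_nonneg_right (h.le' z hz) (exp_pos (ψ z)).le
  rwa [← exp_add, neg_add_cancel, exp_zero] at this

lemma Bt.tempered {K j : ℕ} {D : ℝ} {w : ℂ → ℂ} (h : Bt δ K j D (0 - w)) :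
    ∃ K D, 0 ≤ D ∧ Bt δ K j D w :=
  ⟨K, |D|, abs_nonneg D, fun z hz => by simpa using h.mono (le_abs_self D) z hz⟩

lemma exists_exp_le {C η : ℝ} (hη : 0 < η) (a : ℝ) : ∃ t, a ≤ t ∧ C * exp (-t) ≤ η := by
  have h1 : Tendsto (fun t => C * exp (-t)) atTop (𝓝 0) := by
    simpa using tendsto_exp_neg_atTop_nhds_zero.const_mul C
  exact ((eventually_ge_atTop a).and (h1.eventually (ge_mem_nhds hη))).exists

/-- Tempered approximation of the Cauchy kernel with pole outside the hull. -/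
lemma pole_tempered (hδ : Wt δ) (hω : Wt ω) (hsub : ∀ z, 0 < ω z → 0 < δ z) {b : ℂ}
    (hb : 0 < δ b) (hb' : ¬ 0 < ω b) (h0 : ∀ t, ∃ ψ, Adm δ ω ψ ∧ t < ψ b) {η : ℝ} (hη : 0 < η) :
    ∃ w, Hol δ w ∧ (∃ K D, 0 ≤ D ∧ Bt δ K 1 D w) ∧ Bt ω 5 1 η ((fun z => (z - b)⁻¹) - w) := by
  obtain ⟨C1, hC1, hs⟩ := solve'
  obtain ⟨L, hL, hL'⟩ := sig'_bound
  obtain ⟨t, ht, ht'⟩ := exists_exp_le (C := 1 + C1 * (3 * L * exp 4) * 2 ^ (4 + 1) *
    (366 * (2 + ‖b‖))) (lt_min hη (half_pos hb)) 0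
  set ρ := exp (-t) / 183 with hρ
  have hρ0 : 0 < ρ := by positivity
  have hρ1 : ρ ≤ 1 := by
    have : exp (-t) ≤ 1 := exp_le_one_iff.2 (by linarith)
    rw [hρ]; linarith
  have ht1 : exp (-t) ≤ δ b / 2 := le_trans (le_mul_of_one_le_left (exp_pos _).le
    (le_add_of_nonneg_right (by positivity))) (ht'.trans (min_le_right _ _))
  have hωb : ∀ y, ω y ≤ ‖y - b‖ := fun y => by linarith [hω.lip y b, not_lt.1 hb']
  have hS : ∀ y, ‖y - b‖ ≤ 183 * ρ → 0 < δ y ∧ ω y ≤ exp (-t) := fun y hy => by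
    have := hδ.lip b y
    rw [norm_sub_rev] at this
    exact ⟨by linarith, by linarith [hωb y]⟩
  obtain ⟨-, ψ, hψ, hψ'⟩ := exists_adm_compact hδ hω (isCompact_closedBall b (3 * ρ))
    (fun y hy => (hS y (by rw [mem_closedBall, dist_eq_norm] at hy; linarith)).1)
    (g := fun _ => t / 2 - 1) continuousOn_const (W := fun _ _ => 0)
    (fun _ => continuousOn_const) (fun _ _ => monotone_const) (a := 0) fun z hz => by
      obtain ⟨ψ, h1, h2⟩ := h0 t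
      rw [mem_closedBall, dist_eq_norm] at hz
      obtain ⟨G, h3, h4⟩ := barrier h1 (z0 := z) (r := 6 * ρ) (by positivity) ht
        (fun y hy => hS y (by
          rw [mem_closedBall, dist_eq_norm] at hy
          linarith [norm_sub_le_norm_sub_add_norm_sub y z b]))
        (by rw [mem_closedBall, dist_eq_norm, norm_sub_rev]; linarith) h2
      exact Or.inr ⟨G, h3, by linarith⟩
  have hn : ∀ z, ‖(z - b) / ρ‖ = ‖z - b‖ / ρ := fun z => by
    rw [norm_div, Complex.norm_real, Real.norm_of_nonneg hρ0.le]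
  have hn1 : ∀ z, ‖z - b‖ / ρ ≤ (2 + ‖b‖) / ρ * (1 + ‖z‖) ∧ 2 ≤ (2 + ‖b‖) / ρ * (1 + ‖z‖) := by
    intro z
    rw [div_mul_eq_mul_div]
    refine ⟨div_le_div_of_nonneg_right ?_ hρ0.le, (le_div_iff₀ hρ0).2 ?_⟩ <;>
      nlinarith [norm_sub_le z b, norm_nonneg z, norm_nonneg b,
        mul_nonneg (norm_nonneg z) (norm_nonneg b)]
  let Q : ℂ → ℝ := fun z => ‖(1 : ℂ)‖ ^ 2 + ‖(z - b) / ρ‖ ^ 2
  have hQ : SQ δ 1 Q := (SQ.const hδ 1 1).add hδ (SQ.sq hδ (K := 0) (D := (2 + ‖b‖) / ρ)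
    (fun z _ => by fun_prop) fun z _ => by
      rw [hn, pow_zero, one_mul, pow_one]; exact (hn1 z).1)
  have hQe : ∀ z, Q z = 1 + (‖z - b‖ / ρ) ^ 2 := fun z => by simp only [Q, hn, norm_one, one_pow]
  have hQ1 : ∀ z, 1 ≤ Q z := fun z => by rw [hQe]; exact le_add_of_nonneg_right (sq_nonneg _)
  let W : ℂ → ℝ := fun z => 1 * Real.log (Q z) + -1
  have hW : ∀ z, 0 < δ z → SHAt W z ∧ ContDiffAt ℝ 2 W z := fun z hz =>
    hQ.sh hδ hQ1 zero_le_one _ hz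
  have hWe : ∀ z, exp (W z) * exp 1 = Q z := fun z => by
    rw [← exp_add]; simp only [W, one_mul, neg_add_cancel_right]
    exact exp_log (one_pos.trans_le (hQ1 z))
  have e1 : 2 ≤ exp 1 := by linarith [Real.exp_one_gt_d9]
  have e2 : exp 1 ≤ 3 := by linarith [Real.exp_one_lt_d9]
  have hW0 : ∀ z, 0 ≤ W z → ρ ≤ ‖z - b‖ := fun z hz => by
    have h1 := hWe z
    rw [hQe] at h1
    have h2 : 1 ^ 2 ≤ (‖z - b‖ / ρ) ^ 2 := by nlinarith [one_le_exp hz]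
    simpa [le_div_iff₀ hρ0] using (sq_le_sq₀ zero_le_one (by positivity)).1 h2
  have hW1 : ∀ z, W z ≤ 1 → ‖z - b‖ ≤ 3 * ρ := fun z hz => by
    have h1 := hWe z
    rw [hQe] at h1
    have h2 : (‖z - b‖ / ρ) ^ 2 ≤ 3 ^ 2 := by nlinarith [exp_le_exp.2 hz, exp_pos (W z)]
    simpa [div_le_iff₀ hρ0] using (sq_le_sq₀ (by positivity) (by norm_num)).1 h2
  have hE : ∀ z, 1 + exp (W z) ≤ (2 * ((2 + ‖b‖) / ρ) * (1 + ‖z‖)) ^ 2 := fun z => by
    have h1 := hWe z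
    rw [hQe] at h1
    have h2 := pow_le_pow_left₀ (by positivity) (hn1 z).1 2
    nlinarith [(hn1 z).2, exp_pos (W z)]
  let Φ : ℂ → ℂ := fun z => (smoothTransition (W z) : ℂ) * (z - b)⁻¹
  have hΦb : Φ =ᶠ[𝓝 b] fun _ => 0 := by
    filter_upwards [ball_mem_nhds b hρ0] with y hy
    rw [mem_ball, dist_eq_norm] at hy
    simp only [Φ]
    rw [smoothTransition.zero_of_nonpos (le_of_not_ge fun h => absurd (hW0 y h) (not_le.2 hy))]
    simp
  have hΦ : ∀ z, 0 < δ z → ContDiffAt ℝ 1 Φ z := fun z hz => by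
    rcases eq_or_ne z b with rfl | hne
    · exact contDiffAt_const.congr_of_eventuallyEq hΦb
    · exact (Complex.ofRealCLM.contDiff.contDiffAt.comp z ((smoothTransition.contDiffAt
        (n := 1)).comp z ((hW z hz).2.of_le (by norm_num)))).mul
        ((contDiffAt_id.sub contDiffAt_const).inv (sub_ne_zero.2 hne))
  obtain ⟨w, hw, hw'⟩ := hs hδ (ψ := fun z => (4 : ℕ) * ψ z)
    (fun z hz => (hψ.sh z hz).const_mul (by positivity)) hW hΦ (c := b)
    (b := L / ρ * exp (4 - 2 * t)) (ρ := 3 * ρ) (by positivity) (by positivity) fun z hz h1 => by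
      have hne : z ≠ b := by
        rintro rfl; exact h1 (by rw [Db_congr hΦb, Db_const])
      have h2 := Db_cutoff ((hW z hz).2.differentiableAt two_ne_zero) (sig_hasDeriv (W z))
        (v := fun z => (z - b)⁻¹) ((differentiableAt_id.sub_const b).inv (sub_ne_zero.2 hne))
      have h3 : deriv smoothTransition (W z) ≠ 0 := fun h => h1 (by
        rw [h, zero_mul, zero_pow two_ne_zero, zero_mul] at h2
        simpa using h2)
      obtain ⟨h4, h5⟩ := sig'_mem h3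
      have h6 : z ∈ closedBall b (3 * ρ) := by rw [mem_closedBall, dist_eq_norm]; exact hW1 z h5
      refine ⟨h6, h4, h5, h2.trans_le ?_⟩
      have h7 := (hψ' z h6).resolve_left (lt_irrefl _)
      have h8 : ‖(z - b)⁻¹‖ ≤ ρ⁻¹ := by rw [norm_inv]; exact inv_anti₀ hρ0 (hW0 z h4)
      have h9 : 1 ≤ exp (4 - 2 * t) * exp ((4 : ℕ) * ψ z) := by
        rw [← exp_add]; exact one_le_exp (by push_cast; linarith)
      have := sig'_nonneg (W z)
      refine mul_le_mul_of_nonneg_right (pow_le_pow_left₀ (by positivity) ?_ 2) (by positivity)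
      calc _ ≤ L * ρ⁻¹ * 1 := by rw [mul_one]; gcongr; exact hL' _
        _ ≤ L * ρ⁻¹ * (exp (4 - 2 * t) * exp ((4 : ℕ) * ψ z)) := by gcongr
        _ = _ := by ring
  refine ⟨w, hw, ?_, (hw' ω 4 1 (2 * ((2 + ‖b‖) / ρ)) (12 * ρ) (fun z => (z - b)⁻¹) hω hsub (by positivity)
    (fun z hz => (differentiableAt_id.sub_const b).inv
      (norm_pos_iff.1 (hz.trans_le (hωb z)))) (fun y hy => ?_) fun z hz y hy => ?_).mono ?_⟩
  · obtain ⟨K, D, hD⟩ := hψ.growth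
    have hD0 : 0 ≤ D := le_trans (by positivity) (hD b hb)
    exact Bt.tempered <| hw' δ (K * 4) 1 (D ^ 4 * (2 * ((2 + ‖b‖) / ρ))) ρ⁻¹ 0 hδ (fun _ h => h)
      (by positivity) (fun _ _ => differentiableAt_const _) (fun y hy => by
        rw [exp_nat_mul, pow_mul, ← mul_pow, pow_one, mul_assoc, mul_pow (D ^ 4)]
        gcongr
        · exact hD y hy
        · exact hE y) (fun z hz y _ => by
        have h1 : ‖Φ y‖ ≤ ρ⁻¹ := by
          rcases le_total 0 (W y) with h | h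
          · simp only [Φ, norm_mul, norm_inv, Complex.norm_real,
              Real.norm_of_nonneg (smoothTransition.nonneg _)]
            exact (mul_le_of_le_one_left (by positivity) (smoothTransition.le_one _)).trans
              (inv_anti₀ hρ0 (hW0 y h))
          · simp [Φ, smoothTransition.zero_of_nonpos h, hρ0.le]
        rw [Pi.zero_apply, sub_zero]
        exact (mul_le_of_le_one_left (norm_nonneg _) (pow_le_one₀ hz.le (hδ.le_one z))).trans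
          (h1.trans (le_mul_of_one_le_right (by positivity) (by simp))))
  · rw [exp_nat_mul, ← mul_pow, pow_one]
    refine (mul_le_of_le_one_left (by positivity) (pow_le_one₀ (by positivity)
      (pow_le_one₀ (by positivity) (hψ.mul_exp_le (hsub y hy))))).trans (hE y)
  · obtain ⟨a1, a2, -⟩ := hω.ball hz hy
    rcases le_total 1 (W y) with h | h
    · simp only [Φ, smoothTransition.one_of_one_le h]
      simp only [Complex.ofReal_one, one_mul, sub_self, norm_zero, mul_zero]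
      positivity
    · have h1 : ‖Φ y - (y - b)⁻¹‖ ≤ (ω y)⁻¹ := by
        rw [show Φ y - (y - b)⁻¹ = ((smoothTransition (W y) - 1 : ℝ) : ℂ) * (y - b)⁻¹ by
          simp only [Φ]; push_cast; ring, norm_mul, norm_inv, Complex.norm_real]
        refine (mul_le_of_le_one_left (by positivity) (abs_le.2 ⟨?_, ?_⟩)).trans
          (inv_anti₀ a1 (hωb y)) <;>
          linarith [smoothTransition.nonneg (W y), smoothTransition.le_one (W y)]
      have h2 : ω z * ‖Φ y - (y - b)⁻¹‖ ≤ 2 := by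
        calc _ ≤ 2 * ω y * (ω y)⁻¹ := by gcongr
          _ = 2 := by field_simp
      have h3 : ω z ≤ 6 * ρ := by linarith [hωb y, hW1 y h]
      calc _ = ω z ^ 3 * (ω z * (ω z * ‖Φ y - (y - b)⁻¹‖)) := by ring
        _ ≤ 1 * (6 * ρ * 2) := by gcongr; exact pow_le_one₀ hz.le (hω.le_one z)
        _ ≤ _ := by nlinarith [norm_nonneg z]
  · refine le_trans ?_ (ht'.trans (min_le_left _ _))
    have h1 : exp (4 - 2 * t) = exp 4 * exp (-t) * exp (-t) := by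
      rw [← exp_add, ← exp_add]; ring_nf
    have h2 : exp (-t) = 183 * ρ := by rw [hρ]; ring
    rw [h1, h2, add_mul]
    refine add_le_add (by linarith) (le_of_eq ?_)
    field_simp
    ring

/-- The Cauchy kernel with pole outside the hull is approximable at a fixed level. -/
lemma pole_ap (hδ : Wt δ) (hω : Wt ω) (hsub : ∀ z, 0 < ω z → 0 < δ z) {b : ℂ}
    (hb' : ¬ 0 < ω b) (h0 : 0 < δ b → ∀ t, ∃ ψ, Adm δ ω ψ ∧ t < ψ b) :
    Ap δ ω 6 fun z => (z - b)⁻¹ := by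
  intro ε hε
  by_cases hb : 0 < δ b
  swap
  · have h1 : ∀ y, δ y ≤ ‖y - b‖ := fun y => by linarith [hδ.lip y b, not_lt.1 hb]
    refine ⟨_, ⟨fun z hz => (differentiableAt_id.sub_const b).inv
      (norm_pos_iff.1 (hz.trans_le (h1 z))), 1, 1, fun z hz => ?_⟩, fun z hz => ?_⟩
    · simpa [← div_eq_mul_inv, div_le_one (hz.trans_le (h1 z))] using h1 z
    · simpa using hε.le
  by_cases hne : ∃ a, 0 < ω a
  swap
  · exact ⟨_, R0.const 0, fun z hz => absurd ⟨z, hz⟩ hne⟩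
  obtain ⟨a, ha⟩ := hne
  have h1 : ∀ y, 0 < ω y → y - b ≠ 0 := fun y hy =>
    norm_pos_iff.1 (by linarith [hω.lip y b, not_lt.1 hb'])
  have hu : Hol ω fun z => (z - b)⁻¹ := fun z hz => (differentiableAt_id.sub_const b).inv (h1 z hz)
  set C := ‖a - b‖ * (4 * 2 ^ (5 + (0 + 1)) * (2 + ‖a‖) * (1 + (1 + ‖a‖) / ω a ^ 5)) with hC
  have hC0 : 0 ≤ C := by positivity
  obtain ⟨w, hw, ⟨K, D, hD, hK⟩, h2⟩ := pole_tempered hδ hω hsub hb hb' (h0 hb)
    (η := ε / (C + 1)) (by positivity)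
  refine ⟨(b - a) • dslope w a, R0.smul ⟨hw.dslope hδ a, _, _, bt_zero.1 (dq1 hδ hw hK hD a)⟩ _,
    (((bt_zero.1 (dq1 hω (hu.sub (hw.weaken hsub)) h2 (by positivity) a)).smul (b - a)).mono hω
      le_rfl ?_).congr fun z hz => ?_⟩
  · have h3 := (le_div_iff₀' (pow_pos ha 5)).2 (h2 a ha)
    rw [norm_sub_rev]
    calc _ ≤ ‖a - b‖ * (4 * 2 ^ (5 + (0 + 1)) * (2 + ‖a‖) *
          (ε / (C + 1) + ε / (C + 1) * (1 + ‖a‖) ^ 1 / ω a ^ 5)) := by gcongr
      _ = C / (C + 1) * ε := by rw [hC]; ring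
      _ ≤ ε := mul_le_of_le_one_left hε.le ((div_le_one (by positivity)).2 (by linarith))
  · simp only [Pi.sub_apply, Pi.smul_apply, smul_eq_mul]
    rw [dslope_sub hu (hw.weaken hsub) a hz, mul_sub]
    congr 1
    rcases eq_or_ne z a with rfl | hza
    · rw [dslope_same, show deriv (fun z => (z - b)⁻¹) z = _ from
        (((hasDerivAt_id z).sub_const b).fun_inv (h1 z hz)).deriv]
      have := h1 z hz
      simp only [id]
      field_simp
      ring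
    · rw [dslope_of_ne _ hza, slope_def_field]
      have := h1 z hz
      have := h1 a ha
      have := sub_ne_zero.2 hza
      field_simp
      ring

end Pool.Agent.MP_26d9d0_an.H12
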