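import Mathlib.Data.Int.Star
import Pool.Agent.MP_26d9d0_an.h12.Pole

set_option autoImplicit false

open Filter Topology Metric Real Set

namespace Pool.Agent.MP_26d9d0_an.H12

variable {δ ω : ℂ → ℝ}

lemma telescope {v e : ℕ → ℂ} {E : ℝ} {k J : ℕ}
    (hv : ∀ l, v (l + 1) - v l = (2 * (1 / 2) ^ l : ℝ) * e l) (he : ∀ l < J, ‖e l‖ ≤ E) :
    ∀ l, k ≤ l → l ≤ J → ‖v l - v k‖ ≤ 4 * E * ((1 / 2) ^ k - (1 / 2) ^ l) := by
  intro l hl
  induction l, hl using Nat.le_induction with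
  | base => simp
  | succ l hl ih =>
    intro hJ
    have h1 := ih (by omega)
    have h2 : ‖v (l + 1) - v l‖ ≤ 2 * (1 / 2) ^ l * E := by
      rw [hv, norm_mul, Complex.norm_real, Real.norm_of_nonneg (by positivity)]
      gcongr; exact he l (by omega)
    have h3 := norm_sub_le_norm_sub_add_norm_sub (v (l + 1)) (v l) (v k)
    rw [pow_succ]
    linarith

lemma le_of_sq_pow {a b : ℝ} {n : ℕ} (hn : 0 < n) (hb : 0 ≤ b) (h : (a ^ n) ^ 2 ≤ (b ^ n) ^ 2) :
    a ≤ b := by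
  rw [← pow_mul, ← pow_mul] at h
  exact le_of_pow_le_pow_left₀ (by omega) hb h

lemma weight_bound {d X x a D D' A : ℝ} {K K' c : ℕ} (hd : 0 < d) (hX : 0 ≤ X) (hA : 0 ≤ A)
    (h1 : d ^ K * exp a ≤ D) (h2 : d ^ K' * exp X ≤ D' * x) :
    (d ^ (K * c + K' * 3) * exp (c * a + 2 * X)) ^ 2 * (1 + exp (X + -A)) ≤
      (D ^ c * (2 * D' ^ 3) * x ^ 3) ^ 2 := by
  have h3 : 1 + exp (X + -A) ≤ (2 * exp X) ^ 2 := by
    nlinarith [one_le_exp hX, exp_le_exp.2 (show X + -A ≤ X by linarith)]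
  have h4 : exp (c * a + 2 * X) = exp a ^ c * exp X ^ 2 := by
    rw [exp_add, exp_nat_mul, ← exp_nat_mul X 2]; norm_num
  calc _ ≤ (d ^ (K * c + K' * 3) * exp (c * a + 2 * X)) ^ 2 * (2 * exp X) ^ 2 := by gcongr
    _ = ((d ^ K * exp a) ^ c * (2 * (d ^ K' * exp X) ^ 3)) ^ 2 := by rw [h4]; ring
    _ ≤ (D ^ c * (2 * (D' * x) ^ 3)) ^ 2 := by
      have : 0 ≤ D := le_trans (by positivity) h1
      gcongr
    _ = _ := by ring

/-- Tempered approximation at a level that only depends on the growth. -/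
theorem apx (hδ : Wt δ) (hω : Wt ω) (hsub : ∀ z, 0 < ω z → 0 < δ z) {U : ℂ → ℂ} (hU : Hol ω U)
    {M c : ℕ} (hM : 0 < M) (hc : 0 < c) {C : ℝ} (hC : 0 < C) (hAp : Ap δ ω M U)
    (h0 : ∀ z, 0 < δ z → ¬ 0 < ω z → ∀ t, ∃ ψ, Adm δ ω ψ ∧ t < ψ z)
    (h1 : ∀ z, 0 < ω z → ∃ ψ, Adm δ ω ψ ∧ ‖U z‖ ≤ C * exp (c * ψ z)) {η : ℝ} (hη : 0 < η) :
    ∃ w, Hol δ w ∧ (∃ K D, 0 ≤ D ∧ Bt δ K 3 D w) ∧ Bt ω (c + 4) 3 η (U - w) := by
  classical
  obtain ⟨C1, hC1, hs⟩ := solve'
  obtain ⟨L, hL, hL'⟩ := sig'_bound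
  choose v hv hv' using fun k : ℕ => hAp (((1 / 2) ^ k) ^ 2) (by positivity)
  let e : ℕ → ℂ → ℂ := fun k => ((2 * (1 / 2) ^ k : ℝ) : ℂ)⁻¹ • (v (k + 1) - v k)
  have he : ∀ k, R0 δ (e k) := fun k => ((hv _).sub hδ (hv _)).smul _
  have he1 : ∀ k z, v (k + 1) z - v k z = (2 * (1 / 2) ^ k : ℝ) * e k z := fun k z => by
    simp only [e, Pi.smul_apply, Pi.sub_apply, smul_eq_mul]
    rw [mul_inv_cancel_left₀ (Complex.ofReal_ne_zero.2 (by positivity))]
  have he2 : ∀ k, Bd ω M ((1 / 2) ^ k) (e k) := fun k =>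
    ((((hv' k).sub (hv' (k + 1))).smul ((2 * (1 / 2) ^ k : ℝ) : ℂ)⁻¹).mono hω le_rfl (by
      rw [norm_inv, Complex.norm_real, Real.norm_of_nonneg (by positivity),
        inv_mul_le_iff₀ (by positivity), pow_succ (1 / 2 : ℝ) k]
      nlinarith [sq_nonneg ((1 / 2 : ℝ) ^ k)])).congr fun z _ => by simp [e]
  set C' := C + 4 with hC'
  set T := 2 ^ c * (4 * C') / η with hT
  have hT0 : 0 < T := by positivity
  obtain ⟨A, hA, hA'⟩ := exists_exp_le (C := C1 * (L * C') * exp 1 * 2 ^ (1 * c + 1 * 3 + 3) *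
    (1 ^ c * (2 * 3 ^ 3))) (half_pos hη) (12 * T)
  have hA0 : 0 ≤ A := by linarith
  set R := exp (A + 1) with hR
  have hR0 : 0 < R := exp_pos _
  obtain ⟨N, hN1, hN2, hN3⟩ := finite_cover_balls_of_compact
    ((isCompact_closedBall (0 : ℂ) R).inter_right hδ.isOpen.isClosed_compl) (inv_pos.2 hR0)
  lift N to Finset ℂ using hN2
  have hNδ : ∀ a ∈ N, ∀ z, δ z ≤ ‖z - a‖ := fun a ha z => by
    have : ¬ 0 < δ a := (hN1 ha).2
    linarith [hδ.lip z a, not_lt.1 this]
  have hNω : ∀ a ∈ N, ∀ z, ω z ≤ ‖z - a‖ := fun a ha z => by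
    have : ¬ 0 < ω a := fun h => (hN1 ha).2 (hsub a h)
    linarith [hω.lip z a, not_lt.1 this]
  set p := N.card + 4 with hp
  set q := M * p with hq
  have hp0 : 0 < p := by omega
  have hq0 : 0 < q := Nat.mul_pos hM hp0
  have hinv : ∀ {ω : ℂ → ℝ} {a z : ℂ}, 0 < ω z → ω z ≤ ‖z - a‖ →
      ω z ^ q * ‖(z - a)⁻¹ ^ q‖ ≤ 1 := fun hz h => by
    rw [norm_pow, ← mul_pow, norm_inv]
    exact pow_le_one₀ (by positivity) (mul_inv_le_one_of_le₀ h (norm_nonneg _))
  have hone : ∀ z : ℂ, (1 : ℝ) ≤ (1 + ‖z‖) ^ q := fun z => one_le_pow₀ (by simp)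
  have hzq : ∀ z : ℂ, ‖z ^ q‖ ≤ (1 + ‖z‖) ^ q := fun z => by rw [norm_pow]; gcongr; linarith
  let Q : ℕ → ℂ → ℝ := fun J z => ‖(1 : ℂ)‖ ^ 2 + ‖z ^ q‖ ^ 2 + ∑ a ∈ N, ‖(z - a)⁻¹ ^ q‖ ^ 2 +
    ∑ k ∈ Finset.range J, ‖e k z ^ p‖ ^ 2
  have hQ : ∀ J, SQ δ q (Q J) := fun J =>
    (((SQ.const hδ q 1).add hδ (SQ.sq hδ (K := 0) (D := 1) (fun z _ => by fun_prop)
      fun z _ => by simpa using hzq z)).add hδ (SQ.sum hδ N fun a ha => SQ.sq hδ (K := q) (D := 1)
        (fun z hz => ((differentiableAt_id.sub_const a).inv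
          (norm_pos_iff.1 (hz.trans_le (hNδ a ha z)))).pow q)
        fun z hz => (hinv hz (hNδ a ha z)).trans (by simpa using hone z))).add hδ
      (SQ.sum hδ _ fun k _ => by
        obtain ⟨h2, K, D, h3⟩ := he k
        refine SQ.sq hδ (K := K * p) (D := |D| ^ p) (fun z hz => (h2 z hz).pow p) fun z hz => ?_
        rw [norm_pow, pow_mul, ← mul_pow]
        exact (pow_le_pow_left₀ (by positivity) ((h3 z hz).trans (le_abs_self D)) p).trans
          (le_mul_of_one_le_right (by positivity) (hone z)))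
  have s1 : ∀ z, 0 ≤ ∑ a ∈ N, ‖(z - a)⁻¹ ^ q‖ ^ 2 := fun z => by positivity
  have s2 : ∀ J z, 0 ≤ ∑ k ∈ Finset.range J, ‖e k z ^ p‖ ^ 2 := fun J z => by positivity
  have hQ1 : ∀ J z, 1 ≤ Q J z := fun J z => by
    simp only [Q, norm_one, one_pow]; linarith [s1 z, s2 J z, sq_nonneg ‖z ^ q‖]
  let X : ℕ → ℂ → ℝ := fun J z => ((q * 2 : ℕ) : ℝ)⁻¹ * Real.log (Q J z)
  have hX0 : ∀ J z, 0 ≤ X J z := fun J z => mul_nonneg (by positivity) (Real.log_nonneg (hQ1 J z))
  have hXe : ∀ J z, (exp (X J z) ^ q) ^ 2 = Q J z := fun J z => by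
    rw [← pow_mul, ← exp_nat_mul, mul_inv_cancel_left₀ (by positivity),
      exp_log (one_pos.trans_le (hQ1 J z))]
  have hW : ∀ J z, 0 < δ z → SHAt (fun z => X J z + -A) z ∧ ContDiffAt ℝ 2 (fun z => X J z + -A) z :=
    fun J z hz => (hQ J).sh hδ (hQ1 J) (by positivity) _ hz
  have hXω : ∀ J y, 0 < ω y → ω y ^ 1 * exp (X J y) ≤ 3 * (1 + ‖y‖) := by
    intro J y hy
    refine le_of_sq_pow hq0 (by positivity) ?_
    rw [pow_one, mul_pow, mul_pow, hXe]
    have a1 : ω y ^ q ≤ 1 := pow_le_one₀ hy.le (hω.le_one y)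
    have a2 : (ω y ^ q) ^ 2 * ∑ a ∈ N, ‖(y - a)⁻¹ ^ q‖ ^ 2 ≤ N.card := by
      rw [Finset.mul_sum]
      refine (Finset.sum_le_card_nsmul N _ 1 fun a ha => ?_).trans (by simp)
      rw [← mul_pow]
      exact pow_le_one₀ (by positivity) (hinv hy (hNω a ha y))
    have a3 : (ω y ^ q) ^ 2 * ∑ k ∈ Finset.range J, ‖e k y ^ p‖ ^ 2 ≤ 2 := by
      rw [Finset.mul_sum]
      refine (Finset.sum_le_sum fun k _ => ?_).trans (sum_geometric_two_le J)
      rw [← mul_pow, norm_pow, hq, pow_mul, ← mul_pow, ← pow_mul]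
      have a4 := he2 k y hy
      exact (pow_le_of_le_one (by positivity) (a4.trans (pow_le_one₀ (by norm_num) (by norm_num)))
        (by omega)).trans a4
    have a4 : ((N.card + 4 : ℕ) : ℝ) ≤ (3 ^ q) ^ 2 := by
      have : N.card + 4 ≤ (3 ^ q) ^ 2 := by
        have a5 : q < 3 ^ q := Nat.lt_pow_self (by norm_num)
        have a6 : p ≤ q := Nat.le_mul_of_pos_left p hM
        nlinarith
      exact_mod_cast this
    have a5 : (ω y ^ q) ^ 2 ≤ 1 := pow_le_one₀ (by positivity) a1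
    have a6 : (ω y ^ q) ^ 2 * ‖y ^ q‖ ^ 2 ≤ ((1 + ‖y‖) ^ q) ^ 2 :=
      (mul_le_of_le_one_left (by positivity) a5).trans (by gcongr; exact hzq y)
    have a7 : (1 : ℝ) ≤ ((1 + ‖y‖) ^ q) ^ 2 := one_le_pow₀ (hone y)
    have a8 : (0 : ℝ) ≤ N.card := Nat.cast_nonneg _
    rw [mul_pow 3, mul_pow]
    push_cast at a4
    simp only [Q, norm_one, one_pow]
    nlinarith
  let K0 : Set ℂ := closedBall 0 R ∩ ⋂ a ∈ N, {z | R⁻¹ ≤ ‖z - a‖}
  have hK0 : IsCompact K0 := (isCompact_closedBall 0 R).inter_right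
    (isClosed_biInter fun a _ => isClosed_le continuous_const (by fun_prop))
  have hK0S : ∀ z ∈ K0, 0 < δ z := by
    intro z hz
    by_contra h
    obtain ⟨a, ha, h2⟩ := mem_iUnion₂.1 (hN3 ⟨hz.1, h⟩)
    have h3 : R⁻¹ ≤ ‖z - a‖ := mem_iInter₂.1 hz.2 a ha
    rw [mem_ball, dist_eq_norm] at h2
    linarith
  have hsmall : ∀ J z, 0 < δ z → X J z + -A ≤ 1 → z ∈ K0 ∧ ∀ k < J, ‖e k z‖ ≤ R ^ M := by
    intro J z hz h
    have a1 : Q J z ≤ (R ^ q) ^ 2 := by
      rw [← hXe]; gcongr; exact exp_le_exp.2 (by linarith)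
    simp only [Q, norm_one, one_pow] at a1
    refine ⟨⟨mem_closedBall_zero_iff.2 (le_of_sq_pow hq0 hR0.le ?_),
      mem_iInter₂.2 fun a ha => ?_⟩, fun k hk => le_of_sq_pow hp0 (by positivity) ?_⟩
    · rw [← norm_pow]; linarith [s1 z, s2 J z]
    · refine inv_le_of_inv_le₀ (hz.trans_le (hNδ a ha z)) (le_of_sq_pow hq0 hR0.le ?_)
      rw [← norm_inv, ← norm_pow]
      linarith [s2 J z, sq_nonneg ‖z ^ q‖, Finset.single_le_sum
        (f := fun a => ‖(z - a)⁻¹ ^ q‖ ^ 2) (fun _ _ => sq_nonneg _) ha]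
    · rw [← norm_pow, ← pow_mul R]
      linarith [s1 z, sq_nonneg ‖z ^ q‖, Finset.single_le_sum
        (f := fun k => ‖e k z ^ p‖ ^ 2) (fun _ _ => sq_nonneg _) (Finset.mem_range.2 hk)]
  have hlim : ∀ {a b : ℝ}, 0 < b → ∀ᶠ k : ℕ in atTop, a * (1 / 2) ^ k ≤ b := fun {a b} hb => by
    have := (tendsto_pow_atTop_nhds_zero_of_lt_one (r := (1 / 2 : ℝ)) (by norm_num)
      (by norm_num)).const_mul a
    exact this.eventually (ge_mem_nhds (by simpa using hb))
  obtain ⟨k0, hk0⟩ := (hlim (a := 4 * R ^ M) one_pos).exists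
  have hclose : ∀ J z, k0 ≤ J → 0 < δ z → X J z + -A ≤ 1 → ‖v J z - v k0 z‖ ≤ 1 := by
    intro J z hJ hz h
    have := telescope (v := fun k => v k z) (k := k0) (fun l => he1 l z) (hsmall J z hz h).2 J hJ
      le_rfl
    have h2 : 0 ≤ 4 * R ^ M * (1 / 2) ^ J := by positivity
    linarith
  have hg : ∀ {x s : ℝ}, 0 < x → ((c : ℝ)⁻¹ * Real.log (x / C') < s ↔ x < C' * exp (c * s)) :=
    fun hx => by
      rw [inv_mul_lt_iff₀ (by exact_mod_cast hc), Real.log_lt_iff_lt_exp (by positivity),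
        div_lt_iff₀' (by positivity)]
  have hmono : ∀ z, Monotone fun J => X J z + -A := fun z J J' h => by
    refine add_le_add_left (mul_le_mul_of_nonneg_left (Real.log_le_log
      (one_pos.trans_le (hQ1 J z)) (add_le_add_right ?_ _)) (by positivity)) _
    exact Finset.sum_le_sum_of_subset_of_nonneg (Finset.range_mono h) fun _ _ _ => sq_nonneg _
  obtain ⟨J1, ψ, hψ, hψ'⟩ := exists_adm_compact hδ hω hK0 hK0S
    (g := fun z => (c : ℝ)⁻¹ * Real.log ((‖v k0 z‖ + 1) / C'))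
    (fun z hz => (continuousAt_const.mul (((((hv k0).1 z (hK0S z hz)).continuousAt.norm.add
      continuousAt_const).div_const _).log
        (by simp only [Pi.add_apply]; positivity))).continuousWithinAt)
    (W := fun J z => X J z + -A) (fun J z hz => (hW J z (hK0S z hz)).1.cont.continuousWithinAt)
    (fun z _ => hmono z) (a := 1) fun z hz => by
      by_cases h2 : ∃ J, 1 < X J z + -A
      · exact Or.inl h2
      push Not at h2
      right
      by_cases hz' : 0 < ω z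
      swap
      · exact h0 z (hK0S z hz) hz' _
      obtain ⟨ψ, h3, h4⟩ := h1 z hz'
      refine ⟨ψ, h3, (hg (by positivity)).2 ?_⟩
      obtain ⟨l, h5, h6⟩ := ((hlim (a := 1) (pow_pos hz' M)).and (eventually_ge_atTop k0)).exists
      have h7 : ‖U z - v l z‖ ≤ 1 := by
        refine le_of_mul_le_mul_left ((hv' l z hz').trans ?_) (pow_pos hz' M)
        have : (1 / 2 : ℝ) ^ l ≤ 1 := pow_le_one₀ (by norm_num) (by norm_num)
        nlinarith [pow_pos (by norm_num : (0 : ℝ) < 1 / 2) l]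
      have h8 := hclose l z h6 (hK0S z hz) (h2 l)
      have h9 : 1 ≤ exp (c * ψ z) :=
        one_le_exp (mul_nonneg (Nat.cast_nonneg c) (h3.nonneg z (hK0S z hz)))
      linarith [norm_le_norm_add_norm_sub (v l z) (v k0 z), norm_le_norm_add_norm_sub (U z) (v l z)]
  obtain ⟨J, hJ0, hJ1, hJ2⟩ := ((hlim (a := (2 * T) ^ M) (half_pos hη)).and
    ((eventually_ge_atTop k0).and (eventually_ge_atTop J1))).exists
  have hvJ : ∀ z, 0 < δ z → X J z + -A ≤ 1 → ‖v J z‖ ≤ C' * exp (c * ψ z) := by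
    intro z hz h
    have h2 := (hg (by positivity)).1 ((hψ' z (hsmall J z hz h).1).resolve_left
      (not_lt.2 ((hmono z hJ2).trans h)))
    linarith [hclose J z hJ1 hz h, norm_le_norm_add_norm_sub' (v J z) (v k0 z)]
  let σ : ℝ → ℝ := fun s => 1 - smoothTransition s
  let Φ : ℂ → ℂ := fun z => (σ (X J z + -A) : ℂ) * v J z
  have hΦ1 : ∀ z, 0 < δ z → ‖Φ z‖ ≤ C' * exp (c * ψ z) := by
    intro z hz
    rcases le_total (X J z + -A) 1 with h | h
    · simp only [Φ, norm_mul, Complex.norm_real]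
      refine (mul_le_of_le_one_left (norm_nonneg _) (abs_le.2 ⟨?_, ?_⟩)).trans (hvJ z hz h) <;>
        simp only [σ] <;>
        linarith [smoothTransition.nonneg (X J z + -A), smoothTransition.le_one (X J z + -A)]
    · simp only [Φ, σ, smoothTransition.one_of_one_le h]
      simp only [sub_self, Complex.ofReal_zero, zero_mul, norm_zero]
      positivity
  obtain ⟨w, hw, hw'⟩ := hs hδ (ψ := fun z => c * ψ z + 2 * X J z) (Φ := Φ)
    (fun z hz => ((hψ.sh z hz).const_mul (Nat.cast_nonneg c)).add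
      ((((hW J z hz).1.add (SHAt.const A z)).congr
        (Eventually.of_forall fun y => by simp)).const_mul zero_le_two)) (hW J)
    (fun z hz => (Complex.ofRealCLM.contDiff.contDiffAt.comp z ((contDiffAt_const.sub
      (smoothTransition.contDiffAt (n := 1))).comp z ((hW J z hz).2.of_le (by norm_num)))).mul
      (((hv J).1.analyticAt hδ hz).contDiffAt.restrict_scalars ℝ)) (c := 0)
    (b := L * C' * exp (-(2 * A))) (ρ := R) (by positivity) hR0.le fun z hz h2 => by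
      have h3 := Db_cutoff (σ := σ) ((hW J z hz).2.differentiableAt two_ne_zero)
        ((sig_hasDeriv (X J z + -A)).const_sub 1) ((hv J).1 z hz)
      have h4 : deriv smoothTransition (X J z + -A) ≠ 0 := fun h => h2 (by
        rw [h, neg_zero, zero_mul, zero_pow two_ne_zero, zero_mul] at h3
        simpa using h3)
      obtain ⟨h5, h6⟩ := sig'_mem h4
      refine ⟨(hsmall J z hz h6).1.1, h5, h6, h3.trans_le ?_⟩
      have := sig'_nonneg (X J z + -A)
      rw [neg_mul, neg_sq]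
      refine mul_le_mul_of_nonneg_right (pow_le_pow_left₀ (by positivity) ?_ 2) (by positivity)
      calc _ ≤ L * (C' * exp (c * ψ z)) := by
            gcongr
            · exact hL' _
            · exact hvJ z hz h6
        _ ≤ L * (C' * exp (-(2 * A) + (c * ψ z + 2 * X J z))) := by gcongr; linarith
        _ = _ := by rw [exp_add]; ring
  refine ⟨w, hw, ?_, ?_⟩
  · obtain ⟨K, D, hD⟩ := hψ.growth
    obtain ⟨K', D', hD'⟩ := (hQ J).growth
    have hXδ : ∀ y, 0 < δ y → δ y ^ K' * exp (X J y) ≤ max 1 D' * (1 + ‖y‖) := fun y hy => by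
      refine le_of_sq_pow hq0 (by positivity) ?_
      rw [mul_pow, mul_pow, hXe, mul_pow, mul_pow]
      refine le_trans (mul_le_mul_of_nonneg_right ?_ ((hQ J).nonneg y)) ((hD' y hy).trans
        (mul_le_mul_of_nonneg_right ?_ (by positivity)))
      · rw [← pow_mul]
        exact pow_le_of_le_one (by positivity) (pow_le_one₀ hy.le (hδ.le_one y)) (by omega)
      · rw [← pow_mul]
        exact (le_max_right _ _).trans (le_self_pow₀ (le_max_left _ _) (by omega))
    refine Bt.tempered <| hw' δ (K * c + K' * 3) 3 (|D| ^ c * (2 * max 1 D' ^ 3))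
      (2 ^ (K * c + 0) * (C' * |D| ^ c * 1)) 0 hδ (fun _ h => h) (by positivity)
      (fun _ _ => differentiableAt_const _) (fun y hy => weight_bound hy (hX0 J y) hA0
        ((hD y hy).trans (le_abs_self D)) (hXδ y hy)) fun z hz y hy => ?_
    have h2 : Bt δ (K * c) 0 (C' * |D| ^ c) Φ := fun y hy => by
      refine (mul_le_mul_of_nonneg_left (hΦ1 y hy) (by positivity)).trans ?_
      rw [exp_nat_mul, pow_mul, mul_left_comm, ← mul_pow, pow_zero, mul_one]
      gcongr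
      exact (hD y hy).trans (le_abs_self D)
    rw [Pi.zero_apply, sub_zero]
    refine le_trans (mul_le_mul_of_nonneg_right (pow_le_pow_of_le_one hz.le (hδ.le_one z)
      (by omega)) (norm_nonneg _)) ((h2.ball hδ (by positivity) hz hy).trans ?_)
    rw [pow_zero]
    exact le_mul_of_one_le_right (by positivity) (one_le_pow₀ (by simp))
  · have h2 := hw' ω (1 * c + 1 * 3) 3 (1 ^ c * (2 * 3 ^ 3)) (η / 2) U hω hsub (by positivity) hU
      (fun y hy => weight_bound hy (hX0 J y) hA0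
        (by simpa using hψ.mul_exp_le (hsub y hy)) (hXω J y hy)) fun z hz y hy => ?_
    · rw [show 1 * c + 1 * 3 + 1 = c + 4 by ring] at h2
      refine h2.mono (le_trans (add_le_add_right (le_of_eq_of_le ?_ hA') _) (by linarith))
      have : exp (-(2 * A)) * R = exp 1 * exp (-A) := by
        rw [hR, ← exp_add, ← exp_add]; ring_nf
      linear_combination C1 * (L * C') * 2 ^ (1 * c + 1 * 3 + 3) * (1 ^ c * (2 * 3 ^ 3)) * this
    rw [show 1 * c + 1 * 3 + 1 = c + 4 by ring]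
    obtain ⟨a1, a2, a3⟩ := hω.ball hz hy
    have a4 : 1 + ‖z‖ ≤ (1 + ‖z‖) ^ 3 := le_self_pow₀ (by simp) (by norm_num)
    rcases le_or_gt (T * ω z) (1 + ‖z‖) with h3 | h3
    · have h4 : ∀ (a : ℂ) (y : ℂ) (ψ : ℂ → ℝ), 0 < ω y → Adm δ ω ψ → ‖a‖ ≤ C' * exp (c * ψ y) →
          ω y ^ c * ‖a‖ ≤ C' := fun a y ψ hy h4 h5 => by
        refine (mul_le_mul_of_nonneg_left h5 (by positivity)).trans ?_
        rw [exp_nat_mul, mul_left_comm, ← mul_pow]
        exact mul_le_of_le_one_right (by positivity)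
          (pow_le_one₀ (by positivity) (h4.mul_exp_le (hsub y hy)))
      have h5 : Bd ω c (C' + C') (Φ - U) := Bd.sub
        (fun y hy => h4 _ y ψ hy hψ (hΦ1 y (hsub y hy))) fun y hy => by
          obtain ⟨ψ, h5, h6⟩ := h1 y hy
          exact h4 _ y ψ hy h5 (h6.trans (by gcongr; linarith))
      have h6 := (bt_zero.2 h5).ball hω (by positivity) hz hy
      simp only [add_zero, pow_zero, mul_one, Pi.sub_apply] at h6
      have h7 : ω z ^ 4 ≤ ω z := pow_le_of_le_one hz.le (hω.le_one z) (by norm_num)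
      calc _ = ω z ^ 4 * (ω z ^ c * ‖Φ y - U y‖) := by ring
        _ ≤ ω z * (2 ^ c * (C' + C')) := by gcongr
        _ = η / 2 * (T * ω z) := by rw [hT]; field_simp; ring
        _ ≤ _ := by gcongr; linarith
    · have h4 : exp (X J y) ≤ exp A := by
        refine le_trans (le_of_mul_le_mul_left ?_ a1) (hA.trans
          ((le_add_of_nonneg_right zero_le_one).trans (add_one_le_exp A)))
        have := hXω J y a1
        rw [pow_one] at this
        nlinarith
      have h5 : Φ y = v J y := by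
        simp [Φ, σ, smoothTransition.zero_of_nonpos
          (show X J y + -A ≤ 0 by linarith [exp_le_exp.1 h4])]
      have h6 := (bt_zero.2 (hv' J)).ball hω (by positivity) hz hy
      simp only [add_zero, pow_zero, mul_one, Pi.sub_apply] at h6
      have h7 : 1 ≤ (T * ω z) ^ M := one_le_pow₀ (by linarith [norm_nonneg z])
      have h8 : ((1 / 2 : ℝ) ^ J) ^ 2 ≤ (1 / 2) ^ J := pow_le_of_le_one (by positivity)
        (pow_le_one₀ (by norm_num) (by norm_num)) two_ne_zero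
      rw [h5, norm_sub_rev]
      calc _ ≤ (T * ω z) ^ M * ‖U y - v J y‖ := by
            gcongr; exact (pow_le_one₀ hz.le (hω.le_one z)).trans h7
        _ = T ^ M * (ω z ^ M * ‖U y - v J y‖) := by rw [mul_pow]; ring
        _ ≤ T ^ M * (2 ^ M * (1 / 2) ^ J) := 
            mul_le_mul_of_nonneg_left (h6.trans (by gcongr)) (by positivity)
        _ = (2 * T) ^ M * (1 / 2) ^ J := by rw [mul_pow]; ring
        _ ≤ η / 2 := hJ0
        _ ≤ _ := le_mul_of_one_le_right (by positivity) (by linarith [norm_nonneg z])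

end Pool.Agent.MP_26d9d0_an.H12
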