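import Pool.Agent.MP_26d9d0_an.h12.Dual
import Pool.Agent.MP_26d9d0_an.h12.Apx

set_option autoImplicit false

open Filter Topology Metric Real Set

namespace Pool.Agent.MP_26d9d0_an.H12

variable {δ δ' ω : ℂ → ℝ}

lemma eq_zero_of_le {a : ℂ} {C : ℝ} (h : ∀ ε > 0, ‖a‖ ≤ C * ε) : a = 0 := by
  refine norm_le_zero_iff.1 (le_of_forall_pos_le_add fun η hη => ?_)
  have h1 := h (η / (|C| + 1)) (by positivity)
  have h2 : |C| * (η / (|C| + 1)) ≤ η := by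
    rw [← mul_div_assoc, div_le_iff₀ (by positivity)]; nlinarith
  have h3 : C * (η / (|C| + 1)) ≤ |C| * (η / (|C| + 1)) := by gcongr; exact le_abs_self C
  linarith

/-- `ω^K |q| (1 + |z|) ≤ C` on `{ω > 0}`. -/
def Dec (ω : ℂ → ℝ) (K : ℕ) (C : ℝ) (q : ℂ → ℂ) : Prop :=
  ∀ z, 0 < ω z → ω z ^ K * ‖q z‖ * (1 + ‖z‖) ≤ C

lemma dec_iff {K : ℕ} {C : ℝ} {q : ℂ → ℂ} :
    Dec ω K C q ↔ Bd ω K C fun z => q z * (1 + ‖z‖ : ℝ) := by
  simp only [Dec, Bd, norm_mul, Complex.norm_real, mul_assoc,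
    Real.norm_of_nonneg (add_nonneg zero_le_one (norm_nonneg _))]

lemma Dec.bd {K : ℕ} {C : ℝ} {q : ℂ → ℂ} (h : Dec ω K C q) : Bd ω K C q := fun z hz =>
  (le_mul_of_one_le_right (by positivity) (by simp)).trans (h z hz)

lemma dec_dslope (hω : Wt ω) {M : ℕ} {η : ℝ} {h : ℂ → ℂ} (hh : Hol ω h) (hb : Bd ω M η h)
    (b : ℂ) : ∃ C, Dec ω (M + 1) C (dslope h b) := by
  refine ⟨(2 + ‖b‖) * (4 * 2 ^ (M + 0) * (|η| * (1 + ‖(0 : ℂ)‖) ^ 0 + ‖h b‖)), fun z hz => ?_⟩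
  calc _ ≤ ω z ^ (M + 1) * ‖dslope h b z‖ * ((2 + ‖b‖) * max 1 ‖z - b‖) := by
        gcongr; exact one_add_norm_le z b
    _ = (2 + ‖b‖) * (ω z ^ (M + 1) * ‖dslope h b z‖ * max 1 ‖z - b‖) := by ring
    _ ≤ _ := mul_le_mul_of_nonneg_left (dq hω hh (bt_zero.2 (hb.mono hω le_rfl (le_abs_self η)))
        (abs_nonneg η) b hz) (by positivity)

lemma Bt.mul_dec {N K : ℕ} {c C : ℝ} {w q : ℂ → ℂ} (hw : Bt ω N 3 c w) (hc : 0 ≤ c)
    (hq : Dec ω K C q) : Bd ω (N + K * 3) (c * C ^ 3) (w * q ^ 3) := fun z hz => by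
  have h1 := pow_le_pow_left₀ (by positivity) (hq z hz) 3
  calc _ = ω z ^ N * ‖w z‖ * (ω z ^ K * ‖q z‖) ^ 3 := by
        simp only [Pi.mul_apply, Pi.pow_apply, norm_mul, norm_pow]; ring
    _ ≤ c * (1 + ‖z‖) ^ 3 * (ω z ^ K * ‖q z‖) ^ 3 := 
        mul_le_mul_of_nonneg_right (hw z hz) (by positivity)
    _ = c * (ω z ^ K * ‖q z‖ * (1 + ‖z‖)) ^ 3 := by ring
    _ ≤ _ := by gcongr

/-- Elements of `O(δ)` with decay at infinity. -/
def PP (hδ : Wt δ) (δ' : ℂ → ℝ) (M : ℕ) : Submodule ℂ (ℂ → ℂ) where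
  carrier := {q | Hol δ q ∧ (∃ K C, Dec δ K C q) ∧ ∃ C, Dec δ' M C q}
  add_mem' := by
    rintro q q' ⟨h1, ⟨K, C, h2⟩, D, h3⟩ ⟨h1', ⟨K', C', h2'⟩, D', h3'⟩
    rw [dec_iff] at h2 h2' h3 h3'
    exact ⟨fun z hz => (h1 z hz).add (h1' z hz), ⟨K + K', C + C', dec_iff.2
      (((h2.mono hδ (by omega) le_rfl).add (h2'.mono hδ (by omega) le_rfl)).congr
        fun z _ => by simp [add_mul])⟩, D + D', dec_iff.2
      ((h3.add h3').congr fun z _ => by simp [add_mul])⟩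
  zero_mem' := ⟨fun _ _ => differentiableAt_const _, ⟨0, 0, fun z _ => by simp⟩, 0,
    fun z _ => by simp⟩
  smul_mem' := by
    rintro a q ⟨h1, ⟨K, C, h2⟩, D, h3⟩
    rw [dec_iff] at h2 h3
    exact ⟨fun z hz => (h1 z hz).const_smul a, ⟨K, _, dec_iff.2 ((h2.smul a).congr
      fun z _ => by simp [mul_assoc])⟩, _, dec_iff.2 ((h3.smul a).congr
      fun z _ => by simp [mul_assoc])⟩

/-- `O(δ)` as a submodule. -/
def RR (hδ : Wt δ) : Submodule ℂ (ℂ → ℂ) where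
  carrier := {v | R0 δ v}
  add_mem' := fun h h' => R0.add hδ h h'
  zero_mem' := R0.const 0
  smul_mem' := fun a _ h => R0.smul h a

lemma bd_one (hω : Wt ω) (K : ℕ) : Bd ω K 1 1 := fun z hz => by
  simpa using pow_le_one₀ hz.le (hω.le_one z)

lemma peak_case (hδ' : Wt δ') {M0 N M2 : ℕ} (hδ : Wt δ)
    (hp : ∀ ε > 0, ∃ q ∈ PP hδ δ' (M0 + 1), Bd δ' (M0 + 2) ε (1 - q)) {u : ℂ → ℂ} {c : ℝ}
    (hc : 0 < c) (hu : Bd δ' N c u) (h : ∀ η > 0, ∃ w, Hol δ w ∧ (∃ K D, 0 ≤ D ∧ Bt δ K 3 D w) ∧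
      Bt δ' M2 3 η (u - w)) : Ap δ δ' (N + M2 + (M0 + 2) * 3) u := by
  intro ε hε
  set e := min 1 (ε / (14 * c)) with he
  have he0 : 0 < e := lt_min one_pos (by positivity)
  obtain ⟨q, ⟨h1, ⟨K, C, h2⟩, D, h3⟩, h4⟩ := hp e he0
  obtain ⟨w, h5, ⟨K', D', hD', h6⟩, h7⟩ := h (ε / (2 * (|D| ^ 3 + 1))) (by positivity)
  refine ⟨w * q ^ 3, ⟨fun z hz => (h5 z hz).mul ((h1 z hz).pow 3), _, _, h6.mul_dec hD' h2⟩, ?_⟩
  have h8 : Bd δ' (M0 + 2) 2 q := (((bd_one hδ' _).sub h4).mono hδ' le_rfl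
    (by linarith [min_le_left 1 (ε / (14 * c))])).congr fun z _ => by simp
  have h9 := (hu.mul h4).mul ((((bd_one hδ' (M0 + 2 + (M0 + 2))).add
    (h8.mono hδ' (by omega) le_rfl))).add (h8.mul h8))
  have h10 := h7.mul_dec (by positivity) (C := |D|) fun z hz => (h3 z hz).trans (le_abs_self D)
  refine (((h9.mono hδ' (by omega) (c' := ε / 2) ?_).add
    (h10.mono hδ' (by omega) (c' := ε / 2) ?_)).mono hδ' le_rfl (by linarith)).congr
    fun z _ => by simp; ring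
  · have := (le_div_iff₀ (by positivity)).1 (min_le_right 1 (ε / (14 * c)))
    linarith
  · rw [div_mul_eq_mul_div, div_le_div_iff₀ (by positivity) (by norm_num)]
    nlinarith

lemma avg_bd (hω : Wt ω) {N : ℕ} {c η Γ a : ℝ} {m : ℕ} {p : ℕ → ℝ} {U : ℂ → ℂ} (hU : Hol ω U)
    (hc : 0 ≤ c) (hb : Bd ω N c U) (hp : ∀ i, 0 < p i) (hΓ : 0 ≤ Γ)
    (hs : ∀ z, ω z * ∑ i ∈ Finset.range m, p i * (‖z‖ / max 1 ‖z - (a + i : ℝ)‖) ≤ η)
    {B : Finset ℕ} (hB : B ⊆ Finset.range m) {γ : ℕ → ℂ}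
    (hγ : ∀ i ∈ B, ‖γ i‖ * (c + ‖U (a + i : ℝ)‖) ≤ Γ * p i) :
    Bd ω (N + 2) (4 * 2 ^ N * Γ * η) (∑ i ∈ B, γ i • fun z => z * dslope U (a + i : ℝ) z) := by
  intro z hz
  calc _ ≤ ω z ^ (N + 2) * ∑ i ∈ B, ‖γ i‖ * (‖z‖ * ‖dslope U (a + i : ℝ) z‖) := by
        rw [Finset.sum_apply]
        gcongr
        exact (norm_sum_le _ _).trans (le_of_eq (by simp))
    _ ≤ ∑ i ∈ B, 4 * 2 ^ N * Γ * (ω z * (p i * (‖z‖ / max 1 ‖z - (a + i : ℝ)‖))) := by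
        rw [Finset.mul_sum]
        refine Finset.sum_le_sum fun i hi => ?_
        have h1 := dq hω hU (bt_zero.2 hb) hc (a + i : ℝ) hz
        have h2 : 0 < max 1 ‖z - (a + i : ℝ)‖ := lt_max_of_lt_left one_pos
        rw [pow_zero, mul_one, add_zero, ← le_div_iff₀ h2] at h1
        calc _ = ω z * ‖z‖ * ‖γ i‖ * (ω z ^ (N + 1) * ‖dslope U (a + i : ℝ) z‖) := by ring
          _ ≤ ω z * ‖z‖ * ‖γ i‖ * (4 * 2 ^ N * (c + ‖U (a + i : ℝ)‖) / max 1 ‖z - (a + i : ℝ)‖) := by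
              gcongr
          _ = 4 * 2 ^ N * (ω z * ‖z‖ / max 1 ‖z - (a + i : ℝ)‖) *
              (‖γ i‖ * (c + ‖U (a + i : ℝ)‖)) := by ring
          _ ≤ 4 * 2 ^ N * (ω z * ‖z‖ / max 1 ‖z - (a + i : ℝ)‖) * (Γ * p i) :=
              mul_le_mul_of_nonneg_left (hγ i hi) (by positivity)
          _ = _ := by ring
    _ ≤ 4 * 2 ^ N * Γ * (ω z * ∑ i ∈ Finset.range m, p i * (‖z‖ / max 1 ‖z - (a + i : ℝ)‖)) := by
        rw [← Finset.mul_sum, ← Finset.mul_sum]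
        gcongr
        intro i _ _
        have := hp i
        positivity
    _ ≤ _ := by gcongr; exact hs z

lemma mul_dslope (U : ℂ → ℂ) (b : ℂ) :
    (fun z => z * dslope U b z) = U - U b • (1 : ℂ → ℂ) + b • dslope U b := by
  funext z
  have := sub_smul_dslope U b z
  simp only [smul_eq_mul, Pi.add_apply, Pi.sub_apply, Pi.smul_apply, Pi.one_apply] at this ⊢
  linear_combination this

lemma lagrange {a b d : ℝ} {x y z : ℂ} (ha : 1 ≤ a) (hb : 2 * a ≤ b) (hd : 2 * b ≤ d)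
    (h : ((b : ℂ) - d)⁻¹ * (((a : ℂ) - b)⁻¹ * (x - y) - ((a : ℂ) - d)⁻¹ * (x - z)) = 0)
    (hx : ‖1 + a * x‖ ≤ 1 / 8) (hy : ‖1 + b * y‖ ≤ 1 / 8) (hz : ‖1 + d * z‖ ≤ 1 / 8) : False := by
  have h1 : (b : ℂ) - d ≠ 0 := by exact_mod_cast (by linarith : b - d ≠ 0)
  have h2 : (a : ℂ) - b ≠ 0 := by exact_mod_cast (by linarith : a - b ≠ 0)
  have h3 : (a : ℂ) - d ≠ 0 := by exact_mod_cast (by linarith : a - d ≠ 0)
  field_simp at h
  have h4 : (((b - a) * (d - a) * (d - b) : ℝ) : ℂ) = (b * d * (d - b) : ℝ) * (1 + a * x) -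
      (a * d * (d - a) : ℝ) * (1 + b * y) + (a * b * (b - a) : ℝ) * (1 + d * z) := by
    push_cast
    linear_combination (a * b * d : ℂ) * h
  have p1 : 0 < b - a := by linarith
  have p2 : 0 < d - a := by linarith
  have p3 : 0 < d - b := by linarith
  have pa : 0 < a := by linarith
  have pb : 0 < b := by linarith
  have pd : 0 < d := by linarith
  have h5 := (congrArg norm h4).trans_le ((norm_add_le _ _).trans
    (add_le_add_left (norm_sub_le _ _) _))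
  simp only [norm_mul, Complex.norm_real, Real.norm_of_nonneg, p1.le, p2.le, p3.le, pa.le, pb.le,
    pd.le] at h5
  have e1 : b * d * (d - b) * ‖1 + a * x‖ ≤ 2 * (b - a) * (2 * (d - a)) * (d - b) * (1 / 8) := by
    gcongr <;> linarith
  have e2 : a * d * (d - a) * ‖1 + b * y‖ ≤ (b - a) * (2 * (d - b)) * (d - a) * (1 / 8) := by
    gcongr <;> linarith
  have e3 : a * b * (b - a) * ‖1 + d * z‖ ≤ (d - a) * (d - b) * (b - a) * (1 / 8) := by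
    gcongr <;> linarith
  have : 0 < (b - a) * (d - a) * (d - b) := by positivity
  linarith

end Pool.Agent.MP_26d9d0_an.H12
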