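import Mathlib.RingTheory.Flat.TorsionFree
import Mathlib.NumberTheory.Harmonic.Bounds
import Mathlib.RingTheory.SimpleRing.Principal
import Pool.Agent.MP_26d9d0_an.h12.DQ

set_option autoImplicit false

open Filter Topology Metric Real Set

namespace Pool.Agent.MP_26d9d0_an.H12

lemma hb_point {X : Type*} [AddCommGroup X] [Module ℂ X] (q : Seminorm ℂ X) (x : X) :
    ∃ g : X →ₗ[ℂ] ℂ, g x = q x ∧ ∀ y, ‖g y‖ ≤ q y := by
  rcases eq_or_ne x 0 with rfl | hx
  · exact ⟨0, by simp, fun y => by simp⟩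
  have H : ∀ c : ℂ, c • x = 0 → RingHom.id ℂ c • (q x : ℂ) = 0 := fun c hc => by
    simp [(smul_eq_zero.1 hc).resolve_right hx]
  obtain ⟨g, h1, h2⟩ := Module.Dual.exists_extension_of_le_seminorm (Submodule.span ℂ {x})
    (LinearPMap.mkSpanSingleton' x (q x : ℂ) H).toFun (p := q) (by
      rintro ⟨y, hy⟩
      obtain ⟨a, rfl⟩ := Submodule.mem_span_singleton.1 hy
      refine (congrArg norm (LinearPMap.mkSpanSingleton'_apply x (q x : ℂ) H a hy)).trans_le ?_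
      simp [map_smul_eq_mul, abs_of_nonneg (apply_nonneg q x)])
  exact ⟨g, (h1 ⟨x, Submodule.mem_span_singleton_self x⟩).trans
    (LinearPMap.mkSpanSingleton'_apply_self x _ H _), h2⟩

lemma le_mul_csInf {A : Set ℝ} (hA : A.Nonempty) {t k : ℝ} (hk : 0 ≤ k) (h : ∀ c ∈ A, t ≤ k * c) :
    t ≤ k * sInf A := by
  refine le_of_forall_pos_le_add fun ε hε => ?_
  obtain ⟨c, hc, h1⟩ := exists_lt_of_csInf_lt hA
    (lt_add_of_pos_right (sInf A) (by positivity : 0 < ε / (k + 1)))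
  have h2 : k * (ε / (k + 1)) ≤ ε := by
    rw [← mul_div_assoc, div_le_iff₀ (by positivity)]; nlinarith
  nlinarith [h c hc]

/-- Separation by a functional bounded at level `M`. -/
lemma hb0 {ω : ℂ → ℝ} {M : ℕ} (Y : Submodule ℂ (ℂ → ℂ)) {x : ℂ → ℂ} {c : ℝ} (hx : Bd ω M c x)
    (hn : ¬ ∀ ε > 0, ∃ y ∈ Y, Bd ω M ε (x - y)) :
    ∃ (l : (ℂ → ℂ) →ₗ[ℂ] ℂ) (C : ℝ), 0 < C ∧ (∀ f c, 0 ≤ c → Bd ω M c f → ‖l f‖ ≤ C * c) ∧
      (∀ y ∈ Y, ∀ c, Bd ω M c y → l y = 0) ∧ l x = 1 := by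
  let X : Submodule ℂ (ℂ → ℂ) :=
    { carrier := {f | ∃ c, Bd ω M c f}
      add_mem' := fun ⟨_, h⟩ ⟨_, h'⟩ => ⟨_, h.add h'⟩
      zero_mem' := ⟨0, fun z _ => by simp⟩
      smul_mem' := fun a _ ⟨_, h⟩ => ⟨_, h.smul a⟩ }
  let A : X → Set ℝ := fun f => {c | 0 ≤ c ∧ ∃ y ∈ Y, Bd ω M c (f.1 - y)}
  have hne : ∀ f, (A f).Nonempty := fun ⟨f, c, h⟩ =>
    ⟨|c|, abs_nonneg c, 0, Y.zero_mem, fun z hz => by simpa using (h z hz).trans (le_abs_self c)⟩
  have hbd : ∀ f, BddBelow (A f) := fun f => ⟨0, fun c hc => hc.1⟩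
  have h0 : ∀ f, 0 ≤ sInf (A f) := fun f => le_csInf (hne f) fun c hc => hc.1
  let q : Seminorm ℂ X := Seminorm.ofSMulLE (fun f => sInf (A f))
    (le_antisymm (csInf_le (hbd 0) ⟨le_rfl, 0, Y.zero_mem, fun z _ => by simp⟩) (h0 0))
    (fun f g => by
      rw [← sub_le_iff_le_add]
      refine le_csInf (hne f) fun c ⟨h1, y, hy, h2⟩ => ?_
      rw [sub_le_comm]
      refine le_csInf (hne g) fun c' ⟨h1', y', hy', h2'⟩ => ?_
      rw [sub_le_iff_le_add']
      exact csInf_le (hbd _) ⟨add_nonneg h1 h1', y + y', Y.add_mem hy hy',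
        (h2.add h2').congr fun z _ => by simp; ring⟩)
    (fun a f => le_mul_csInf (hne f) (norm_nonneg a) fun c ⟨h1, y, hy, h2⟩ =>
      csInf_le (hbd _) ⟨by positivity, a • y, Y.smul_mem a hy,
        (h2.smul a).congr fun z _ => by simp; ring⟩)
  have hq : 0 < q ⟨x, c, hx⟩ := by
    push Not at hn
    obtain ⟨ε, hε, hn⟩ := hn
    refine hε.trans_le (le_csInf (hne _) fun c ⟨_, y, hy, h2⟩ => ?_)
    by_contra h
    exact hn y hy fun z hz => (h2 z hz).trans (not_le.1 h).le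
  obtain ⟨g, h1, h2⟩ := hb_point q ⟨x, c, hx⟩
  obtain ⟨G, hG⟩ := LinearMap.exists_extend g
  have h3 : ∀ f : X, G f.1 = g f := fun f => LinearMap.congr_fun hG f
  refine ⟨((q ⟨x, c, hx⟩)⁻¹ : ℝ) • G, (q ⟨x, c, hx⟩)⁻¹, by positivity, fun f c' hc hf => ?_,
    fun y hy c' hy' => ?_, ?_⟩
  · rw [LinearMap.smul_apply, norm_smul, Real.norm_of_nonneg (by positivity), h3 ⟨f, c', hf⟩]
    gcongr
    exact (h2 _).trans (csInf_le (hbd _) ⟨hc, 0, Y.zero_mem, by simpa using hf⟩)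
  · rw [LinearMap.smul_apply, h3 ⟨y, c', hy'⟩, norm_le_zero_iff.1 ((h2 ⟨y, c', hy'⟩).trans
      (csInf_le (hbd _) ⟨le_rfl, y, hy, fun z _ => by simp⟩)), smul_zero]
  · rw [LinearMap.smul_apply, h3 ⟨x, c, hx⟩, h1, Complex.real_smul, ← Complex.ofReal_mul,
      inv_mul_cancel₀ hq.ne', Complex.ofReal_one]

lemma log_le_sum_inv {a : ℝ} (ha : 0 < a) (m : ℕ) :
    Real.log (a + m) - Real.log a ≤ ∑ i ∈ Finset.range m, (a + i)⁻¹ := by
  induction m with
  | zero => simp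
  | succ m ih =>
    rw [Finset.sum_range_succ]
    have h1 : Real.log (a + (m + 1 : ℕ)) - Real.log (a + m) ≤ (a + m)⁻¹ := by
      rw [← Real.log_div (by positivity) (by positivity)]
      refine (Real.log_le_sub_one_of_pos (by positivity)).trans (le_of_eq ?_)
      push_cast; field_simp; ring
    linarith

lemma sum_inv_max_le (m : ℕ) (y : ℝ) :
    ∑ i ∈ Finset.range m, (max 1 |y - i|)⁻¹ ≤ 3 * (1 + Real.log m) := by
  refine (sum_abs_le (g := fun d => (max 1 d)⁻¹) (fun a b hab =>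
    inv_anti₀ (lt_max_of_lt_left one_pos) (max_le_max le_rfl hab)) m y).trans ?_
  have h1 := harmonic_le_one_add_log m
  simp only [harmonic, Rat.cast_sum, Rat.cast_inv, Rat.cast_natCast] at h1
  refine le_trans ?_ (mul_le_mul_of_nonneg_left h1 (by norm_num))
  rw [Finset.mul_sum]
  refine Finset.sum_le_sum fun j _ => (inv_anti₀ (by positivity) (half_ge j)).trans (le_of_eq ?_)
  push_cast; field_simp

/-- Averaging over far away points. -/
lemma avg_pts {ω : ℂ → ℝ} (hω : Wt ω) (hz : Tendsto ω (Bornology.cobounded ℂ) (𝓝 0)) {η : ℝ}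
    (hη : 0 < η) (R : ℝ) : ∃ (a : ℝ) (m : ℕ) (p : ℕ → ℝ), R ≤ a ∧ (∀ i, 0 < p i) ∧
      ∑ i ∈ Finset.range m, p i = 1 ∧
      ∀ z, ω z * ∑ i ∈ Finset.range m, p i * (‖z‖ / max 1 ‖z - (a + i : ℝ)‖) ≤ η := by
  obtain ⟨ρ, hρ, h1⟩ := (Metric.hasBasis_cobounded_compl_closedBall (0 : ℂ)).eventually_iff.1
    (hz.eventually (gt_mem_nhds (by positivity : 0 < η / 10)))
  obtain ⟨a, ha⟩ := exists_nat_ge (max (max R 3) (|ρ| + |ρ| / η + 1))
  have ha1 : R ≤ a := ((le_max_left _ _).trans (le_max_left _ _)).trans ha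
  have ha2 : (3 : ℝ) ≤ a := ((le_max_right _ _).trans (le_max_left _ _)).trans ha
  have ha3 : |ρ| + |ρ| / η + 1 ≤ a := (le_max_right _ _).trans ha
  have hl : 1 ≤ Real.log a := by
    rw [Real.le_log_iff_exp_le (by linarith)]; linarith [Real.exp_one_lt_d9]
  set Z := ∑ i ∈ Finset.range (a ^ 2), ((a : ℝ) + i)⁻¹ with hZ
  have hZ1 : Real.log a ≤ Z := by
    refine le_trans ?_ (log_le_sum_inv (by linarith) _)
    have : Real.log ((a : ℝ) ^ 2) ≤ Real.log (a + (a ^ 2 : ℕ)) :=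
      Real.log_le_log (by positivity) (by push_cast; linarith)
    rw [Real.log_pow] at this
    push_cast at this ⊢
    linarith
  have hZ0 : 0 < Z := by linarith
  have hs : ∑ i ∈ Finset.range (a ^ 2), ((a : ℝ) + i)⁻¹ / Z = 1 := by
    rw [← Finset.sum_div, div_self hZ0.ne']
  refine ⟨a, a ^ 2, fun i => ((a : ℝ) + i)⁻¹ / Z, ha1, fun i => by positivity, hs, fun z => ?_⟩
  by_cases hzρ : z ∈ closedBall (0 : ℂ) ρ
  · refine (mul_le_of_le_one_left (by positivity) (hω.le_one z)).trans ?_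
    refine le_of_le_of_eq ?_ (show (∑ i ∈ Finset.range (a ^ 2), ((a : ℝ) + i)⁻¹ / Z) * η = η by
      rw [hs, one_mul])
    rw [Finset.sum_mul]
    refine Finset.sum_le_sum fun i _ => mul_le_mul_of_nonneg_left ?_ (by positivity)
    have h2 : ‖z‖ ≤ |ρ| := (mem_closedBall_zero_iff.1 hzρ).trans (le_abs_self ρ)
    have h3 : |ρ| / η ≤ ‖z - (a + i : ℝ)‖ := by
      have := norm_le_norm_add_norm_sub z ((a + i : ℝ) : ℂ)
      rw [Complex.norm_real, Real.norm_of_nonneg (by positivity)] at this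
      linarith [Nat.cast_nonneg (α := ℝ) i]
    rw [div_le_iff₀ (lt_max_of_lt_left one_pos)]
    rw [div_le_iff₀' hη] at h3
    exact (h2.trans h3).trans (by gcongr; exact le_max_right _ _)
  · have h2 : ∑ i ∈ Finset.range (a ^ 2), ((a : ℝ) + i)⁻¹ / Z * (‖z‖ / max 1 ‖z - (a + i : ℝ)‖) ≤
        ∑ i ∈ Finset.range (a ^ 2), (((a : ℝ) + i)⁻¹ / Z + (max 1 |z.re - a - i|)⁻¹ / Z) := by
      refine Finset.sum_le_sum fun i _ => ?_
      have h3 : 0 < max 1 |z.re - a - i| := lt_max_of_lt_left one_pos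
      have h4 : max 1 |z.re - a - i| ≤ max 1 ‖z - (a + i : ℝ)‖ := max_le_max le_rfl (by
        simpa [sub_sub] using Complex.abs_re_le_norm (z - (a + i : ℝ)))
      have h5 : ‖z‖ / max 1 ‖z - (a + i : ℝ)‖ ≤ 1 + (a + i) / max 1 |z.re - a - i| := by
        have := norm_le_norm_add_norm_sub' z ((a + i : ℝ) : ℂ)
        rw [Complex.norm_real, Real.norm_of_nonneg (by positivity)] at this
        calc _ ≤ (max 1 ‖z - (a + i : ℝ)‖ + (a + i)) / max 1 ‖z - (a + i : ℝ)‖ := by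
              gcongr; linarith [le_max_right 1 ‖z - (a + i : ℝ)‖]
          _ = 1 + (a + i) / max 1 ‖z - (a + i : ℝ)‖ := by
              rw [add_div, div_self (h3.trans_le h4).ne']
          _ ≤ _ := by gcongr
      refine (mul_le_mul_of_nonneg_left h5 (by positivity)).trans (le_of_eq ?_)
      field_simp
    rw [Finset.sum_add_distrib, hs, ← Finset.sum_div] at h2
    have h3 : (∑ i ∈ Finset.range (a ^ 2), (max 1 |z.re - a - i|)⁻¹) / Z ≤ 9 := by
      rw [div_le_iff₀ hZ0]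
      refine (sum_inv_max_le _ _).trans ?_
      push_cast
      rw [Real.log_pow]
      push_cast
      linarith
    have h4 : ω z < η / 10 := h1 hzρ
    calc _ ≤ η / 10 * (1 + 9) := by gcongr; linarith
      _ = η := by ring

end Pool.Agent.MP_26d9d0_an.H12
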