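import Pool.Agent.MP_26d9d0_an.h12.Core

set_option autoImplicit false

open Filter Topology Metric Real Set

namespace Pool.Agent.MP_26d9d0_an.H12

variable {δ δ' ω : ℂ → ℝ}

lemma nonpeak_case (hδ : Wt δ) (hδ' : Wt δ') (hω : Wt ω) (hle : ∀ z, δ' z ≤ ω z)
    (hsub : ∀ z, 0 < ω z → 0 < δ z) (hz : Tendsto δ' (Bornology.cobounded ℂ) (𝓝 0))
    {M N M2 : ℕ} (hNM : N ≤ M)
    (hp : ¬ ∀ ε > 0, ∃ q ∈ PP hδ δ' (M + 1), Bd δ' (M + 2) ε (1 - q)) {U : ℂ → ℂ} {c : ℝ}
    (hc : 0 < c) (hU : Hol ω U) (hu : Bd δ' N c U) (hU0 : ∀ z, ¬ 0 < ω z → U z = 0)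
    (hAp : Ap δ ω M U) (hpole : ∀ b, ¬ 0 < ω b → Ap δ ω 6 fun z => (z - b)⁻¹)
    (h : ∀ η > 0, ∃ w, Hol δ w ∧ (∃ K D, 0 ≤ D ∧ Bt δ K 3 D w) ∧ Bt ω M2 3 η (U - w)) :
    Ap δ δ' (N + M2 + 6) U := by
  classical
  by_contra hn
  have hsub' : ∀ z, 0 < δ' z → 0 < ω z := fun z hz => hz.trans_le (hle z)
  have hU' : Hol δ' U := hU.weaken hsub'
  obtain ⟨l, Cl, hCl, l1, l2, l3⟩ := hb0 (PP hδ δ' (M + 1)) (bd_one hδ' (M + 2)) hp
  obtain ⟨μ, Cm, hCm, m1, m2, m3⟩ := hb0 (RR hδ) (M := N + M2 + 6)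
    (hu.mono hδ' (by omega) le_rfl) hn
  have mcongr : ∀ f g : ℂ → ℂ, (∀ z, 0 < δ' z → f z = g z) → μ f = μ g := fun f g hfg => by
    rw [← sub_eq_zero, ← map_sub, ← norm_le_zero_iff]
    simpa using m1 (f - g) 0 le_rfl fun z hz => by simp [hfg z hz]
  have mpole : ∀ b, ¬ 0 < ω b → μ (fun z => (z - b)⁻¹) = 0 := by
    intro b hb
    have h1 : Bd δ' 1 1 fun z => (z - b)⁻¹ := fun z hz => by
      rw [pow_one, norm_inv]
      exact mul_inv_le_one_of_le₀ (by linarith [hle z, hω.lip z b, not_lt.1 hb]) (norm_nonneg _)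
    refine eq_zero_of_le (C := Cm) fun ε hε => ?_
    obtain ⟨v, h2, h3⟩ := hpole b hb ε hε
    have h4 := (h3.weaken hle).mono hδ' (M := N + M2 + 6) (by omega) le_rfl
    have h5 := m1 _ ε hε.le h4
    rwa [map_sub, m2 v h2 _ (((h1.mono hδ' (by omega) le_rfl).sub h4).congr fun z _ => by simp),
      sub_zero] at h5
  have mT3 : ∀ a b d : ℂ, a ≠ b → a ≠ d → b ≠ d → μ (T3 U a b d) = 0 := by
    intro a b d hab had hbd
    obtain ⟨C, hC, hT⟩ := T3_bd hω hab had hbd M2
    let κ : ℂ → ℝ := fun a => (1 + ‖a‖) ^ 3 / ω a ^ M2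
    have hκ : ∀ a, 0 ≤ κ a := fun a => div_nonneg (by positivity) (pow_nonneg (hω.nonneg a) _)
    refine eq_zero_of_le (C := Cm * (C * (1 + κ a + κ b + κ d))) fun η hη => ?_
    obtain ⟨w, h1, ⟨K, D, hD, h2⟩, h3⟩ := h η hη
    let w' : ℂ → ℂ := fun z => if 0 < ω z then w z else 0
    have hw' : ∀ z, 0 < ω z → w' =ᶠ[𝓝 z] w := fun z hz => (hω.ev hz).mono fun y hy => if_pos hy
    have h4 : Hol ω w' := fun z hz => (h1 z (hsub z hz)).congr_of_eventuallyEq (hw' z hz)
    have h5 : ∀ e, ‖(U - w') e‖ ≤ κ e * η := fun e => by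
      by_cases he : 0 < ω e
      · simp only [κ, Pi.sub_apply, w', if_pos he]
        rw [div_mul_eq_mul_div, le_div_iff₀' (pow_pos he _), mul_comm _ η]
        exact h3 e he
      · simp only [Pi.sub_apply, w', if_neg he, hU0 e he, sub_zero, norm_zero]
        exact mul_nonneg (hκ e) hη.le
    have h6 := hT (U - w') ((1 + κ a + κ b + κ d) * η)
      (by have := hκ a; have := hκ b; have := hκ d; positivity) (hU.sub h4)
      ((h3.mono (by nlinarith [hκ a, hκ b, hκ d])).congr fun z hz => by simp [w', hz])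
      ((h5 a).trans (by nlinarith [hκ a, hκ b, hκ d]))
      ((h5 b).trans (by nlinarith [hκ a, hκ b, hκ d]))
      ((h5 d).trans (by nlinarith [hκ a, hκ b, hκ d]))
    have h7 : ∀ e, μ (dslope (U - w') e) = μ (dslope U e) - μ (dslope w e) := by
      intro e
      rw [mcongr _ (dslope U e - dslope w' e) fun z hz => dslope_sub hU h4 e (hsub' z hz), map_sub]
      congr 1
      by_cases he : 0 < ω e
      · refine mcongr _ _ fun z hz => ?_
        rcases eq_or_ne z e with rfl | hne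
        · rw [dslope_same, dslope_same, (hw' z he).deriv_eq]
        · simp [dslope_of_ne _ hne, slope_def_field, w', he, hsub' z hz]
      · rw [mcongr _ (dslope w e + w e • fun z => (z - e)⁻¹) fun z hz => ?_, map_add, map_smul,
          mpole e he, smul_zero, add_zero]
        have hne : z ≠ e := by rintro rfl; exact he (hsub' z hz)
        simp only [Pi.add_apply, Pi.smul_apply, dslope_of_ne _ hne, slope_def_field, w', he,
          hsub' z hz, if_true, if_false, smul_eq_mul]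
        ring
    have h8 : μ (T3 w a b d) = 0 := by
      obtain ⟨C1, -, hT1⟩ := T3_bd hδ hab had hbd K
      obtain ⟨C2, -, hT2⟩ := T3_bd hδ' hab had hbd (N + M2)
      have n1 := norm_nonneg (w a)
      have n2 := norm_nonneg (w b)
      have n3 := norm_nonneg (w d)
      refine m2 _ ⟨T3_hol hδ h1 a b d, _, _, hT1 w (D + ‖w a‖ + ‖w b‖ + ‖w d‖) (by positivity) h1
        (h2.mono (by linarith)) (by linarith) (by linarith) (by linarith)⟩ _
        ((hT2 w (c + η + ‖w a‖ + ‖w b‖ + ‖w d‖) (by positivity)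
          (h1.weaken fun z hz => hsub z (hsub' z hz)) (fun z hz => ?_) (by linarith) (by linarith)
          (by linarith)).mono hδ' (by omega) le_rfl)
      have e1 := (hu.mono hδ' (M := N + M2) (by omega) le_rfl) z hz
      have e2 : δ' z ^ (N + M2) * ‖(U - w) z‖ ≤ η * (1 + ‖z‖) ^ 3 :=
        (mul_le_mul_of_nonneg_right (pow_le_pow_of_le_one hz.le (hδ'.le_one z) (by omega))
          (norm_nonneg _)).trans (h3.weaken hle z hz)
      have e3 : (1 : ℝ) ≤ (1 + ‖z‖) ^ 3 := one_le_pow₀ (by simp)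
      have e4 := mul_le_mul_of_nonneg_left (norm_le_norm_add_norm_sub (U z) (w z))
        (pow_nonneg hz.le (N + M2))
      rw [Pi.sub_apply] at e2
      nlinarith
    have h9 : μ (T3 U a b d) = μ (T3 (U - w') a b d) := by
      simp only [T3, map_smul, map_sub, h7, smul_eq_mul] at h8 ⊢
      linear_combination h8
    rw [h9]
    refine (m1 _ _ (by have := hκ a; have := hκ b; have := hκ d; positivity)
      ((h6.weaken hle).mono hδ' (by omega) le_rfl)).trans (le_of_eq (by ring))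
  have ldsl : ∀ b, 0 < ω b → l (dslope U b) = 0 := by
    intro b hb
    refine eq_zero_of_le (C := Cl * (4 * 2 ^ M * (1 + (ω b ^ M)⁻¹))) fun ε hε => ?_
    obtain ⟨v, ⟨h1, K, D, h2⟩, h3⟩ := hAp ε hε
    have hv : Hol δ' v := h1.weaken fun z hz => hsub z (hsub' z hz)
    obtain ⟨D1, hD1⟩ := dec_dslope hδ' hv (((hu.mono hδ' hNM le_rfl).sub (h3.weaken hle)).congr
      fun z _ => by simp) b
    have h4 := l2 _ ⟨h1.dslope hδ b, ⟨_, dec_dslope hδ h1 h2 b⟩, _, hD1⟩ _
      (hD1.bd.mono hδ' (by omega) le_rfl)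
    have h5 := l1 (dslope U b - dslope v b) _ (by positivity)
      (((dq0 hδ' (hU'.sub hv) (h3.weaken hle) hε.le b).mono hδ' (by omega) le_rfl).congr
        fun z hz => (dslope_sub hU' hv b hz).symm)
    rw [map_sub, h4, sub_zero] at h5
    have h6 := (le_div_iff₀' (pow_pos hb M)).2 (h3 b hb)
    calc _ ≤ Cl * (4 * 2 ^ M * (ε + ε / ω b ^ M)) := h5.trans (by gcongr)
      _ = _ := by ring
  have mone : μ 1 = 0 := m2 1 (R0.const 1) _ (bd_one hδ' _)
  have good : ∀ R : ℝ, ∃ b : ℝ, R ≤ b ∧ ‖1 + b * μ (dslope U b)‖ ≤ 1 / 8 := by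
    intro R
    set H := 4 * ‖l U‖ + 1 with hH
    have hH1 : 1 ≤ H := by linarith [norm_nonneg (l U)]
    obtain ⟨a, m, p, ha, hp, hs, hs'⟩ := avg_pts hδ' hz (η := min (1 / (16 * Cl * 2 ^ N * (c + 1)))
      (1 / (64 * Cm * 2 ^ N * (c + H)))) (lt_min (by positivity) (by positivity)) R
    set η := min (1 / (16 * Cl * 2 ^ N * (c + 1))) (1 / (64 * Cm * 2 ^ N * (c + H))) with hη
    have hη0 : 0 < η := lt_min (by positivity) (by positivity)
    have hη1 := (le_div_iff₀ (by positivity)).1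
      (min_le_left _ _ : η ≤ 1 / (16 * Cl * 2 ^ N * (c + 1)))
    have hη2 := (le_div_iff₀ (by positivity)).1
      (min_le_right _ _ : η ≤ 1 / (64 * Cm * 2 ^ N * (c + H)))
    let B := (Finset.range m).filter fun i : ℕ => H < ‖U (a + i : ℝ)‖
    let G := (Finset.range m).filter fun i : ℕ => ¬ H < ‖U (a + i : ℝ)‖
    have hBG : ∑ i ∈ B, p i + ∑ i ∈ G, p i = 1 := by
      rw [Finset.sum_filter_add_sum_filter_not, hs]
    have hB : ∑ i ∈ B, p i ≤ 1 / 2 := by
      have h1 : ∀ i ∈ B, H < ‖U (a + i : ℝ)‖ := fun i hi => (Finset.mem_filter.1 hi).2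
      have h2 := l1 _ _ (by positivity) ((avg_bd hδ' hU' hc.le hu hp (Γ := c + 1) (by positivity)
        hs' (B := B) (Finset.filter_subset _ _) (γ := fun i => p i / U (a + i : ℝ)) fun i hi => by
          have := h1 i hi
          have := hp i
          rw [norm_div, Complex.norm_real, Real.norm_of_nonneg (hp i).le, div_mul_eq_mul_div,
            div_le_iff₀ (by linarith)]
          nlinarith [mul_pos hc (hp i)]).mono hδ' (M := M + 2) (by omega) le_rfl)
      have h3 : ((∑ i ∈ B, p i : ℝ) : ℂ) = ∑ i ∈ B, p i / U (a + i : ℝ) * l U -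
          l (∑ i ∈ B, (p i / U (a + i : ℝ)) • fun z => z * dslope U (a + i : ℝ) z) := by
        rw [map_sum, ← Finset.sum_sub_distrib, Complex.ofReal_sum]
        refine Finset.sum_congr rfl fun i hi => ?_
        have h4 : U (a + i : ℝ) ≠ 0 := norm_pos_iff.1 (by linarith [h1 i hi])
        have h5 : 0 < ω (a + i : ℝ) := by
          by_contra h5; exact h4 (hU0 _ h5)
        rw [map_smul, mul_dslope, map_add, map_sub, map_smul, map_smul, l3, ldsl _ h5]
        simp only [smul_eq_mul]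
        field_simp
        ring
      have h4 : ‖∑ i ∈ B, p i / U (a + i : ℝ) * l U‖ ≤ ∑ i ∈ B, p i / 4 := by
        refine norm_sum_le_of_le _ fun i hi => ?_
        have := h1 i hi
        rw [norm_mul, norm_div, Complex.norm_real, Real.norm_of_nonneg (hp i).le,
          div_mul_eq_mul_div, div_le_div_iff₀ (by linarith) (by norm_num)]
        nlinarith [hp i]
      have h5 := (congrArg norm h3).trans_le (norm_sub_le _ _)
      rw [Complex.norm_real, Real.norm_of_nonneg (Finset.sum_nonneg fun i _ => (hp i).le)] at h5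
      rw [← Finset.sum_div] at h4
      linarith
    choose θ hθ hθ' using fun i : ℕ =>
      Complex.exists_norm_eq_mul_self (1 + (a + i : ℝ) * μ (dslope U (a + i : ℝ)))
    have h2 := m1 _ _ (by positivity) ((avg_bd hδ' hU' hc.le hu hp (Γ := c + H) (by positivity)
      hs' (B := G) (Finset.filter_subset _ _) (γ := fun i => p i * θ i) fun i hi => by
        have := not_lt.1 (Finset.mem_filter.1 hi).2
        rw [norm_mul, hθ, Complex.norm_real, Real.norm_of_nonneg (hp i).le]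
        nlinarith [hp i]).mono hδ' (M := N + M2 + 6) (by omega) le_rfl)
    have h3 : μ (∑ i ∈ G, (p i * θ i) • fun z => z * dslope U (a + i : ℝ) z) =
        (∑ i ∈ G, p i * ‖1 + (a + i : ℝ) * μ (dslope U (a + i : ℝ))‖ : ℝ) := by
      rw [map_sum, Complex.ofReal_sum]
      refine Finset.sum_congr rfl fun i _ => ?_
      rw [map_smul, mul_dslope, map_add, map_sub, map_smul, map_smul, m3, mone, Complex.ofReal_mul,
        hθ']
      simp only [smul_eq_mul]
      ring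
    rw [h3, Complex.norm_real] at h2
    obtain ⟨i, -, hi⟩ := Finset.exists_le_of_sum_le (s := G)
      (f := fun i => p i * ‖1 + (a + i : ℝ) * μ (dslope U (a + i : ℝ))‖)
      (g := fun i => p i * (1 / 8)) (Finset.nonempty_of_sum_ne_zero (f := p) (by linarith)) (by
        rw [← Finset.sum_mul]
        linarith [Real.le_norm_self
          (∑ i ∈ G, p i * ‖1 + (a + i : ℝ) * μ (dslope U (a + i : ℝ))‖)])
    exact ⟨a + i, by linarith [Nat.cast_nonneg (α := ℝ) i], le_of_mul_le_mul_left hi (hp i)⟩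
  obtain ⟨a, ha, ha'⟩ := good 1
  obtain ⟨b, hb, hb'⟩ := good (2 * a)
  obtain ⟨d, hd, hd'⟩ := good (2 * b)
  refine lagrange ha hb hd ?_ ha' hb' hd'
  simpa [T3] using mT3 a b d (by exact_mod_cast (by linarith : a ≠ b))
    (by exact_mod_cast (by linarith : a ≠ d)) (by exact_mod_cast (by linarith : b ≠ d))

/-- The level of approximation only depends on the growth of the limit. -/
theorem core (hδ : Wt δ) (hδ' : Wt δ') (hle : ∀ z, δ' z ≤ δ z)
    (hz : Tendsto δ' (Bornology.cobounded ℂ) (𝓝 0)) (N : ℕ) :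
    ∃ M1, ∀ (M : ℕ) (c : ℝ) (u : ℂ → ℂ), Bd δ' N c u → Ap δ δ' M u → Ap δ δ' M1 u := by
  have hω := wt_hull (δ := δ) hδ'
  have key : ∀ (M : ℕ) (c : ℝ) (u : ℂ → ℂ), Bd δ' N c u → Ap δ δ' M u → ∃ U : ℂ → ℂ,
      (∀ z, 0 < δ' z → U z = u z) ∧ (∀ z, ¬ 0 < hull δ δ' z → U z = 0) ∧ Hol (hull δ δ') U ∧
      Ap δ (hull δ δ') (M + (N + 1)) U ∧ ∀ η > 0, ∃ w, Hol δ w ∧ (∃ K D, 0 ≤ D ∧ Bt δ K 3 D w) ∧
        Bt (hull δ δ') (2 * (N + 1) + 4) 3 η (U - w) := by
    intro M c u h1 h2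
    obtain ⟨U, e1, e2, e3, e4, e5⟩ := exists_ext hδ hδ' hle (N := N + 1) (M := M + (N + 1))
      (c := |c| + 1) (by omega) (by omega) (by positivity)
      (h1.mono hδ' (by omega) (by linarith [le_abs_self c])) (h2.mono hδ' (by omega))
    refine ⟨U, e1, e2, e3, e4, fun η hη => apx hδ hω (fun z => pos_of_hull) e3 (by omega)
      (by omega) (C := (|c| + 1) * exp ((N + 1 : ℕ) * 5)) (by positivity) e4
      (fun z h3 h4 t => ?_) (fun z h3 => ?_) hη⟩
    · obtain ⟨ψ, h5, h6⟩ := exists_gt_of_hull hδ hδ' hle h3 h4 t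
      exact ⟨ψ, h5.hull, h6⟩
    · obtain ⟨ψ, h5, h6⟩ := exists_gt_phi (δ := δ) hδ' (z := z) (a := phi δ δ' z - 1 / 2)
        (by linarith)
      refine ⟨ψ, h5.hull, (e5 z h3).trans ?_⟩
      rw [mul_assoc, ← exp_add]
      gcongr
      push_cast
      nlinarith [Nat.cast_nonneg (α := ℝ) N]
  by_cases hp : ∃ M0, ∀ ε > 0, ∃ q ∈ PP hδ δ' (M0 + 1), Bd δ' (M0 + 2) ε (1 - q)
  · obtain ⟨M0, hp⟩ := hp
    refine ⟨_, fun M c u h1 h2 => peak_case hδ' hδ hp (c := |c| + 1) (M2 := 2 * (N + 1) + 4)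
      (by positivity) (h1.mono hδ' le_rfl (by linarith [le_abs_self c])) fun η hη => ?_⟩
    obtain ⟨U, e1, -, -, -, e5⟩ := key M c u h1 h2
    obtain ⟨w, h3, h4, h5⟩ := e5 η hη
    exact ⟨w, h3, h4, (h5.weaken (le_hull hδ' hle)).congr fun z hz => by simp [e1 z hz]⟩
  · refine ⟨N + (2 * (N + 1) + 4) + 6, fun M c u h1 h2 ε hε => ?_⟩
    obtain ⟨U, e1, e2, e3, e4, e5⟩ := key M c u h1 h2
    obtain ⟨v, h3, h4⟩ := nonpeak_case hδ hδ' hω (le_hull hδ' hle) (fun z => pos_of_hull) hz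
      (N := N) (by omega) (fun h => hp ⟨_, h⟩) (c := |c| + 1) (by positivity) e3
      ((h1.mono hδ' le_rfl (by linarith [le_abs_self c])).congr e1) e2 e4
      (fun b hb => pole_ap hδ hω (fun z => pos_of_hull) hb fun h3 t => by
        obtain ⟨ψ, h5, h6⟩ := exists_gt_of_hull hδ hδ' hle h3 hb t
        exact ⟨ψ, h5.hull, h6⟩) e5 ε hε
    exact ⟨v, h3, h4.congr fun z hz => by simp [e1 z hz]⟩

end Pool.Agent.MP_26d9d0_an.H12
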