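import Pool.Agent.MP_26d9d0_an.h12.Top
import Pool.Agent.MP_26d9d0_an.h12.NonPeak
import Pool.Agent.MP_26d9d0_an.Main

set_option autoImplicit false

open Filter Topology Metric Set
open scoped ENNReal NNReal

namespace Pool.Agent.MP_26d9d0_an.H12

/-- The identification of `ℂ^1` with `ℂ`. -/
noncomputable def ee : Cn 1 ≃L[ℂ] ℂ := PiLp.equivOfUnique 2 ℂ fun _ : Fin 1 => ℂ

lemma norm_ee (x : Cn 1) : ‖ee x‖ = ‖x‖ := by
  rw [EuclideanSpace.norm_eq]; simp [ee, PiLp.equivOfUnique]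

lemma norm_ee_symm (z : ℂ) : ‖ee.symm z‖ = ‖z‖ := by rw [← norm_ee, ee.apply_symm_apply]

/-- The rescaled weight on `ℂ`. -/
noncomputable def nw (κ : ℝ) (δ : Weight 1) (z : ℂ) : ℝ := κ * δ.toFun (ee.symm z)

open Classical in
/-- Extension by zero of a function on `S_δ`. -/
noncomputable def io (δ : Weight 1) : (δ.S → ℂ) →ₗ[ℂ] ℂ → ℂ where
  toFun f z := if h : ee.symm z ∈ δ.S then f ⟨_, h⟩ else 0
  map_add' f g := funext fun z => by by_cases h : ee.symm z ∈ δ.S <;> simp [h]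
  map_smul' a f := funext fun z => by by_cases h : ee.symm z ∈ δ.S <;> simp [h]

variable {κ : ℝ} {δ δ' : Weight 1}

lemma io_apply (f : δ.S → ℂ) {z : ℂ} (h : ee.symm z ∈ δ.S) : io δ f z = f ⟨_, h⟩ := dif_pos h

lemma nw_pos (hκ : 0 < κ) {z : ℂ} : 0 < nw κ δ z ↔ ee.symm z ∈ δ.S := mul_pos_iff_of_pos_left hκ

lemma bd_iff (hκ : 0 < κ) {N : ℕ} {c : ℝ} {f : δ.S → ℂ} :
    Bd (nw κ δ) N c (io δ f) ↔ ∀ z : δ.S, δ.toFun z ^ N * ‖f z‖ ≤ c / κ ^ N := by
  refine ⟨fun h z => ?_, fun h z hz => ?_⟩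
  · have h1 : ee.symm (ee z) ∈ δ.S := by simp
    have := h _ ((nw_pos hκ).2 h1)
    rw [io_apply f h1] at this
    rw [le_div_iff₀' (pow_pos hκ N), ← mul_assoc, ← mul_pow]
    simpa [nw] using this
  · have := h ⟨_, (nw_pos hκ).1 hz⟩
    rwa [le_div_iff₀' (pow_pos hκ N), ← mul_assoc, ← mul_pow, ← io_apply f] at this

lemma wt_nw (hκ : 0 < κ) {K : ℝ≥0} (hK : LipschitzWith K δ.toFun) (h1 : κ * K ≤ 1)
    (h2 : ∀ z, κ * δ.toFun z ≤ 1) : Wt (nw κ δ) := by
  refine ⟨fun x y => ?_, fun x => mul_nonneg hκ.le (δ.nonneg _), fun x => h2 _⟩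
  have h3 := hK.le_add_mul (ee.symm x) (ee.symm y)
  rw [dist_eq_norm, ← map_sub, norm_ee_symm] at h3
  unfold nw
  nlinarith [mul_le_mul_of_nonneg_left h3 hκ.le, norm_nonneg (x - y)]

lemma tendsto_nw (κ : ℝ) (δ : Weight 1) : Tendsto (nw κ δ) (Bornology.cobounded ℂ) (𝓝 0) := by
  have h1 : Tendsto ee.symm (Bornology.cobounded ℂ) (Bornology.cobounded (Cn 1)) := by
    rw [← tendsto_norm_atTop_iff_cobounded]
    simpa [norm_ee_symm] using tendsto_norm_cobounded_atTop (E := ℂ)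
  have := (δ.tendsto_zero.comp h1).const_mul κ
  rwa [mul_zero] at this

lemma r0_io (hκ : 0 < κ) (hw : Wt (nw κ δ)) (f : O δ) : R0 (nw κ δ) (io δ f.1) := by
  obtain ⟨N, ⟨U, hU, hf⟩, h⟩ := f.2
  obtain ⟨C, hC⟩ := (wnorm_lt_top_iff _ _ _).1 h
  refine ⟨fun z hz => ?_, N, C * κ ^ N, (bd_iff hκ).2 fun z => by
    rw [mul_div_cancel_right₀ _ (pow_pos hκ N).ne']; exact hC z⟩
  have hS : IsOpen δ.S := isOpen_lt continuous_const δ.continuous_toFun
  refine ((hU.differentiableAt (hS.mem_nhds ((nw_pos hκ).1 hz))).comp z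
    ee.symm.differentiableAt).congr_of_eventuallyEq ?_
  filter_upwards [hw.ev hz] with y hy
  rw [io_apply _ ((nw_pos hκ).1 hy), hf]
  rfl

lemma exists_O (hκ : 0 < κ) {y : ℂ → ℂ} (h : R0 (nw κ δ) y) :
    ∃ f : O δ, (∀ z, f.1 z = y (ee z)) ∧ ∀ z, 0 < nw κ δ z → io δ f.1 z = y z := by
  obtain ⟨h1, N, c, h2⟩ := h
  have h3 : ∀ z, 0 < nw κ δ z → io δ (fun z : δ.S => y (ee z)) z = y z := fun z hz => by
    rw [io_apply _ ((nw_pos hκ).1 hz)]; simp
  refine ⟨⟨fun z : δ.S => y (ee z), N, ⟨fun x => y (ee x), fun x hx => ?_, fun _ => rfl⟩,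
    (wnorm_lt_top_iff _ _ _).2 ⟨_, (bd_iff hκ).1 (h2.congr h3)⟩⟩, fun _ => rfl, h3⟩
  exact ((h1 _ ((nw_pos hκ).2 (by simpa using hx))).comp x
    ee.differentiableAt).differentiableWithinAt

lemma continuous_of_bound {n : ℕ} {δ : Weight n} (g : O δ →ₗ[ℂ] ℂ)
    (h : ∀ N, ∃ C, 0 < C ∧ ∀ (f : O δ) (c : ℝ), 0 < c →
      (∀ z : δ.S, δ.toFun z ^ N * ‖f.1 z‖ ≤ c) → ‖g f‖ ≤ C * c) :
    @Continuous _ _ (topO δ) _ g := by
  refine continuous_iff_le_induced.2 (sInf_le ⟨topologicalAddGroup_induced g,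
    continuousSMul_induced g, LocallyConvexSpace.induced (g.restrictScalars ℝ), fun N => ?_⟩)
  obtain ⟨C, hC, h1⟩ := h N
  refine continuous_induced_rng.2 (continuous_def.2 fun s hs u hu => ?_)
  obtain ⟨η, hη, h2⟩ := Metric.isOpen_iff.1 hs _ hu
  refine ⟨ENNReal.ofReal (η / (2 * C)), ENNReal.ofReal_pos.2 (by positivity), fun v hv => h2 ?_⟩
  have h3 := h1 (v.1 - u.1) (η / (2 * C)) (by positivity) fun z =>
    (ENNReal.ofReal_le_ofReal_iff (by positivity)).1 ((le_iSup (fun z : δ.S =>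
      ENNReal.ofReal (δ.toFun z ^ N * ‖(v.1 - u.1).1 z‖)) z).trans hv.le)
  rw [map_sub] at h3
  rw [mem_ball, dist_eq_norm]
  refine h3.trans_lt ?_
  rw [mul_div_assoc', div_lt_iff₀ (by positivity)]
  nlinarith

/-- In one variable the topological closure of `R` consists of bornological limits. -/
theorem closure_subset_L (δ δ' : Weight 1) (h : ∀ z, δ'.toFun z ≤ δ.toFun z) {K K' : ℝ≥0}
    (hK : LipschitzWith K δ.toFun) (hK' : LipschitzWith K' δ'.toFun) :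
    @closure _ (topO δ') (R δ δ' h) ⊆ L δ δ' h := by
  obtain ⟨b, hb⟩ := δ.exists_bound
  set κ : ℝ := (K + K' + |b| + 1)⁻¹ with hκ'
  have hκ : 0 < κ := by positivity
  have hκ1 : ∀ x : ℝ, x ≤ K + K' + |b| + 1 → κ * x ≤ 1 := fun x hx => by
    rw [hκ', inv_mul_le_iff₀ (by positivity), mul_one]; exact hx
  have hb' : ∀ z, κ * δ.toFun z ≤ 1 := fun z =>
    hκ1 _ (by linarith [hb z, le_abs_self b, K.2, K'.2, K.coe_nonneg, K'.coe_nonneg])
  have hw : Wt (nw κ δ) := wt_nw hκ hK (hκ1 _ (by linarith [abs_nonneg b, K'.coe_nonneg])) hb'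
  have hle : ∀ z, nw κ δ' z ≤ nw κ δ z := fun z => mul_le_mul_of_nonneg_left (h _) hκ.le
  have hw' : Wt (nw κ δ') := wt_nw hκ hK' (hκ1 _ (by linarith [abs_nonneg b, K.coe_nonneg]))
    fun z => (mul_le_mul_of_nonneg_left (h _) hκ.le).trans (hb' z)
  let L' : Submodule ℂ (O δ') :=
    { carrier := {f | ∃ M, Ap (nw κ δ) (nw κ δ') M (io δ' f.1)}
      add_mem' := by
        rintro f g ⟨M, hf⟩ ⟨M', hg⟩
        refine ⟨M + M', fun ε hε => ?_⟩
        obtain ⟨v, h1, h2⟩ := hf.mono hw' (Nat.le_add_right M M') _ (half_pos hε)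
        obtain ⟨v', h1', h2'⟩ := hg.mono hw' (Nat.le_add_left M' M) _ (half_pos hε)
        exact ⟨v + v', h1.add hw h1', ((h2.add h2').mono hw' le_rfl (by linarith)).congr
          fun z _ => by simp; ring⟩
      zero_mem' := ⟨0, fun ε hε => ⟨_, R0.const 0, fun z _ => by simpa using hε.le⟩⟩
      smul_mem' := by
        rintro a f ⟨M, hf⟩
        refine ⟨M, fun ε hε => ?_⟩
        obtain ⟨v, h1, h2⟩ := hf (ε / (‖a‖ + 1)) (by positivity)
        refine ⟨a • v, h1.smul a, ((h2.smul a).mono hw' le_rfl ?_).congr fun z _ => by simp; ring⟩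
        rw [mul_div_assoc', div_le_iff₀ (by positivity)]
        nlinarith }
  have hRL : ∀ f ∈ R δ δ' h, f ∈ L' := by
    rintro f ⟨u, hu, h1⟩
    refine ⟨0, fun ε hε => ⟨_, r0_io hκ hw ⟨u, hu⟩, fun z hz => ?_⟩⟩
    rw [Pi.sub_apply, io_apply _ ((nw_pos hκ).1 hz), io_apply _ ((nw_pos hκ).1
      (hz.trans_le (hle z))), h1]
    simpa using hε.le
  have hLL : ∀ f ∈ L', f ∈ L δ δ' h := by
    rintro f ⟨M, hf⟩
    choose v hv hv' using fun k : ℕ => hf (1 / ((k : ℝ) + 1)) (by positivity)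
    obtain ⟨h1, N, c, h2⟩ := r0_io hκ hw' f
    choose u hu hu' using fun k => exists_O hκ (δ := δ') (y := v k)
      ⟨(hv k).1.weaken fun z hz => hz.trans_le (hle z), _, _,
        ((h2.mono hw' (Nat.le_add_right N M) le_rfl).sub
          ((hv' k).mono hw' (Nat.le_add_left M N) le_rfl)).congr fun z _ => by simp⟩
    refine ⟨M, u, fun k => ?_, ?_⟩
    · obtain ⟨w, h3, -⟩ := exists_O hκ (hv k)
      exact ⟨w.1, w.2, fun z => by rw [hu, h3]⟩
    · have h3 : Tendsto (fun k : ℕ => ENNReal.ofReal (1 / ((k : ℝ) + 1) / κ ^ M)) atTop (𝓝 0) := by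
        simpa using ENNReal.tendsto_ofReal
          (tendsto_one_div_add_atTop_nhds_zero_nat.div_const (κ ^ M))
      refine tendsto_of_tendsto_of_tendsto_of_le_of_le tendsto_const_nhds h3
        (fun _ => zero_le) fun k => iSup_le fun z => ENNReal.ofReal_le_ofReal ?_
      exact (bd_iff hκ).1 ((hv' k).neg.congr fun z hz => by simp [hu' k z hz]) z
  intro u hu
  by_contra hn
  obtain ⟨g, h1, h2, h3⟩ := sep (V := O δ') (B := fun N c f => Bd (nw κ δ') N c (io δ' f.1))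
    (fun h h' => by simpa using h.add h') (fun a h => by simpa using h.smul a)
    (fun h hN hc => h.mono hw' hN hc) (fun f => (r0_io hκ hw' f).2)
    (fun N z _ => by simp)
    (fun N c x hc hx => by
      obtain ⟨y, e1, e2, e3⟩ := montel hw' (tendsto_nw κ δ') hc
        (fun k => (r0_io hκ hw' (x k)).1) hx
      obtain ⟨f, -, hf⟩ := exists_O hκ ⟨e1, _, _, e2⟩
      exact ⟨f, e2.congr hf, fun ε hε => (e3 ε hε).mono fun k hk =>
        hk.congr fun z hz => by simp [hf z hz]⟩) L'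
    (fun N c y hy => by
      obtain ⟨M1, hM⟩ := core hw hw' hle (tendsto_nw κ δ') N
      refine ⟨M1 + N, fun ε hε => ?_⟩
      obtain ⟨l, ⟨M, e1⟩, e2, e3⟩ := hy _ (half_pos hε)
      obtain ⟨v, e4, e5⟩ := hM M c _ e2 e1 _ (half_pos hε)
      exact ⟨v, e4, (((e3.mono hw' (Nat.le_add_left N M1) le_rfl).add
        (e5.mono hw' (Nat.le_add_right M1 N) le_rfl)).mono hw' le_rfl (by linarith)).congr
        fun z _ => by simp⟩) (fun h => hn (hLL u h))
  have h4 := continuous_of_bound g fun N => by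
    obtain ⟨C, hC, h4⟩ := h3 N
    refine ⟨C * κ ^ N, by positivity, fun f c hc hf => (h4 f (c * κ ^ N) (by positivity)
      ((bd_iff hκ).2 fun z => ?_)).trans_eq (by ring)⟩
    rw [mul_div_cancel_right₀ _ (pow_pos hκ N).ne']; exact hf z
  let := topO δ'
  exact h2 (closure_minimal (t := g ⁻¹' {0}) (fun f hf => h1 f (hRL f hf))
    (isClosed_singleton.preimage h4) hu)

lemma R_subset_L {n : ℕ} (δ δ' : Weight n) (h : ∀ z, δ'.toFun z ≤ δ.toFun z) :
    R δ δ' h ⊆ L δ δ' h := fun f hf => ⟨0, fun _ => f, fun _ => hf, by simp [onorm, wnorm]⟩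

lemma L_subset_closure {n : ℕ} (δ δ' : Weight n) (h : ∀ z, δ'.toFun z ≤ δ.toFun z) :
    L δ δ' h ⊆ @closure _ (topO δ') (R δ δ' h) := by
  rintro f ⟨N, u, h1, h2⟩
  obtain ⟨M, hM⟩ := f.2
  obtain ⟨b, hb⟩ := δ'.exists_bound
  obtain ⟨k0, hk0⟩ := eventually_atTop.1 (h2.eventually (gt_mem_nhds ENNReal.zero_lt_top))
  refine mem_closure_of_bound δ' _ f (M + N) (E_mono δ' (Nat.le_add_right M N) hM)
    (fun k => u (k + k0)) (fun k => @subset_closure _ (topO δ') _ _ (h1 _))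
    (fun k => b ^ M * (onorm δ' N (u (k + k0) - f)).toReal) ?_ fun k z => ?_
  · simpa using (((ENNReal.tendsto_toReal ENNReal.zero_ne_top).comp h2).comp
      (tendsto_add_atTop_nat k0)).const_mul (b ^ M)
  · have h3 := (ENNReal.ofReal_le_iff_le_toReal (hk0 (k + k0) (by omega)).ne).1
      (le_iSup (fun z : δ'.S =>
        ENNReal.ofReal (δ'.toFun z ^ N * ‖(u (k + k0) - f).1 z‖)) z)
    have h0 := δ'.nonneg z
    rw [pow_add, mul_assoc]
    exact mul_le_mul (pow_le_pow_left₀ h0 (hb z) M) h3 (by positivity)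
      (pow_nonneg (h0.trans (hb z)) M)

end Pool.Agent.MP_26d9d0_an.H12
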