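import Pool.Agent.MP_26d9d0_an.h12.Dual

set_option autoImplicit false

open Filter Topology Metric Real Set

namespace Pool.Agent.MP_26d9d0_an.H12

/-- Montel compactness between consecutive levels. -/
lemma montel {ω : ℂ → ℝ} (hω : Wt ω) (hz : Tendsto ω (Bornology.cobounded ℂ) (𝓝 0)) {N : ℕ}
    {c : ℝ} (hc : 0 ≤ c) {x : ℕ → ℂ → ℂ} (h1 : ∀ k, Hol ω (x k)) (h2 : ∀ k, Bd ω N c (x k)) :
    ∃ y, Hol ω y ∧ Bd ω N c y ∧ ∀ ε > 0, ∀ᶠ k in hyperfilter ℕ, Bd ω (N + 1) ε (x k - y) := by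
  have hb : ∀ k z, 0 < ω z → ‖x k z‖ ≤ c / ω z ^ N := fun k z hz =>
    (le_div_iff₀' (pow_pos hz N)).2 (h2 k z hz)
  have hl : ∀ z, 0 < ω z → ∃ a, Tendsto (fun k => x k z) (hyperfilter ℕ) (𝓝 a) := fun z hz => by
    obtain ⟨a, -, ha⟩ := (isCompact_closedBall (0 : ℂ) (c / ω z ^ N)).ultrafilter_le_nhds
      ((hyperfilter ℕ).map fun k => x k z) (by
        rw [le_principal_iff, Ultrafilter.mem_coe, Ultrafilter.mem_map]
        exact univ_mem' fun k => mem_closedBall_zero_iff.2 (hb k z hz))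
    exact ⟨a, ha⟩
  choose! y hy using hl
  have h3 : Bd ω N c y := fun z hz =>
    le_of_tendsto' ((hy z hz).norm.const_mul _) fun k => h2 k z hz
  have h4 : ∀ ε > 0, ∀ᶠ k in hyperfilter ℕ, Bd ω (N + 1) ε (x k - y) := by
    intro ε hε
    set t := ε / (2 * c + 1) with ht
    have ht0 : 0 < t := by positivity
    obtain ⟨ρ, -, hρ⟩ := (Metric.hasBasis_cobounded_compl_closedBall (0 : ℂ)).eventually_iff.1
      (hz.eventually (gt_mem_nhds ht0))
    set D := 4 * 2 ^ N * (c + c / t ^ N) with hD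
    have hD0 : 0 ≤ D := by positivity
    obtain ⟨T, hT1, hT2, hT3⟩ := finite_cover_balls_of_compact
      ((isCompact_closedBall (0 : ℂ) ρ).inter_right (isClosed_le continuous_const hω.cont :
        IsClosed {z | t ≤ ω z})) (by positivity : 0 < ε / (3 * (D + 1)))
    have hlip : ∀ b, t ≤ ω b → ∀ z, 0 < ω z → ∀ k,
        ω z ^ (N + 1) * ‖x k z - x k b‖ ≤ ‖z - b‖ * D := by
      intro b hb' z hz k
      have e1 := dq0 hω (h1 k) (h2 k) hc b z hz
      have e2 : ‖x k b‖ ≤ c / t ^ N := (hb k b (ht0.trans_le hb')).trans (by gcongr)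
      rw [← sub_smul_dslope, norm_smul, mul_left_comm]
      exact mul_le_mul_of_nonneg_left (e1.trans (by rw [hD]; gcongr)) (norm_nonneg _)
    have hev : ∀ᶠ k in hyperfilter ℕ, ∀ b ∈ T, ‖x k b - y b‖ ≤ ε / 3 :=
      (eventually_all_finite hT2).2 fun b hb' =>
        (tendsto_iff_norm_sub_tendsto_zero.1 (hy b (ht0.trans_le (hT1 hb').2))).eventually
          (ge_mem_nhds (by positivity))
    filter_upwards [hev] with k hk z hz
    rcases le_or_gt t (ω z) with h5 | h5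
    · have h6 : z ∈ closedBall (0 : ℂ) ρ := by
        by_contra h; exact absurd (hρ h) (not_lt.2 h5)
      obtain ⟨b, hb', h7⟩ := mem_iUnion₂.1 (hT3 ⟨h6, h5⟩)
      have h8 : t ≤ ω b := (hT1 hb').2
      rw [mem_ball, dist_eq_norm, lt_div_iff₀ (by positivity)] at h7
      have e1 := hlip b h8 z hz k
      have e2 : ω z ^ (N + 1) * ‖y z - y b‖ ≤ ‖z - b‖ * D :=
        le_of_tendsto' (((hy z hz).sub (hy b (ht0.trans_le h8))).norm.const_mul _) (hlip b h8 z hz)
      have e3 : ω z ^ (N + 1) * ‖x k b - y b‖ ≤ ε / 3 :=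
        (mul_le_of_le_one_left (norm_nonneg _) (pow_le_one₀ hz.le (hω.le_one z))).trans (hk b hb')
      have e4 : ‖(x k - y) z‖ ≤ ‖x k z - x k b‖ + ‖x k b - y b‖ + ‖y z - y b‖ := by
        rw [show (x k - y) z = x k z - x k b + (x k b - y b) - (y z - y b) by simp]
        exact (norm_sub_le _ _).trans (add_le_add_left (norm_add_le _ _) _)
      nlinarith [mul_le_mul_of_nonneg_left e4 (pow_nonneg hz.le (N + 1)), norm_nonneg (z - b)]
    · have e1 := ((h2 k).sub h3) z hz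
      rw [ht, lt_div_iff₀ (by positivity)] at h5
      rw [pow_succ']
      nlinarith [mul_le_mul_of_nonneg_left e1 hz.le]
  refine ⟨y, ?_, h3, h4⟩
  choose k hk using fun j : ℕ => (h4 (1 / ((j : ℝ) + 1)) (by positivity)).exists
  exact hol_of_approx hω (fun j => h1 (k j)) tendsto_one_div_add_atTop_nhds_zero_nat
    fun j => (hk j).neg.congr fun z _ => by simp

/-- Separation in an inductive limit with compact linking maps. -/
lemma sep {V : Type*} [AddCommGroup V] [Module ℂ V] {B : ℕ → ℝ → V → Prop}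
    (hadd : ∀ {N c c' f g}, B N c f → B N c' g → B N (c + c') (f + g))
    (hsmul : ∀ {N c f} (a : ℂ), B N c f → B N (‖a‖ * c) (a • f))
    (hmono : ∀ {N M c c' f}, B N c f → N ≤ M → c ≤ c' → B M c' f)
    (hex : ∀ f, ∃ N c, B N c f) (hzero : ∀ N, B N 0 0)
    (hmon : ∀ N c (x : ℕ → V), 0 ≤ c → (∀ k, B N c (x k)) →
      ∃ y, B N c y ∧ ∀ ε > 0, ∀ᶠ k in hyperfilter ℕ, B (N + 1) ε (x k - y))
    (L : Submodule ℂ V) (hcl : ∀ N c y, (∀ ε > 0, ∃ l ∈ L, B N c l ∧ B N ε (y - l)) → y ∈ L)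
    {u : V} (hu : u ∉ L) :
    ∃ g : V →ₗ[ℂ] ℂ, (∀ l ∈ L, g l = 0) ∧ g u ≠ 0 ∧
      ∀ N, ∃ C, 0 < C ∧ ∀ f c, 0 < c → B N c f → ‖g f‖ ≤ C * c := by
  have hsub : ∀ {N c c' f g}, B N c f → B N c' g → B N (c + c') (f - g) := fun h h' => by
    simpa [sub_eq_add_neg] using hadd h (hsmul (-1) h')
  let P : ℕ → Set V → Prop := fun n C => (∀ l ∈ L, ∀ f ∈ C, u ≠ l + f) ∧ 0 ∈ C ∧
    (∀ f ∈ C, ∀ g ∈ C, ∀ a b : ℂ, ‖a‖ + ‖b‖ ≤ 1 → a • f + b • g ∈ C) ∧ (∃ c, ∀ f ∈ C, B n c f) ∧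
    ∀ x : ℕ → V, (∀ k, x k ∈ C) → ∃ y ∈ C, ∀ ε > 0, ∀ᶠ k in hyperfilter ℕ, B n ε (x k - y)
  have h0 : P 0 {0} := ⟨fun l hl f hf h => hu (by rw [h, hf, add_zero]; exact hl), rfl,
    fun f hf g hg a b _ => by rw [hf, hg]; simp, ⟨0, fun f hf => by rw [hf]; exact hzero 0⟩,
    fun x hx => ⟨0, rfl, fun ε hε => Eventually.of_forall fun k => by
      rw [hx k, sub_zero]; exact hmono (hzero 0) le_rfl hε.le⟩⟩
  have hstep : ∀ n C, P n C → ∃ C', P (n + 1) C' ∧ C ⊆ C' ∧ ∃ ε > 0, ∀ f, B n ε f → f ∈ C' := by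
    rintro n C ⟨p1, p2, p3, ⟨c, p4⟩, p5⟩
    have : ∃ ε > 0, ∀ l ∈ L, ∀ f ∈ C, ∀ e, B n ε e → u ≠ l + (f + e) := by
      by_contra hn
      push Not at hn
      choose l hl f hf e he hh using fun k : ℕ => hn (1 / ((k : ℝ) + 1)) (by positivity)
      obtain ⟨y, hy, h1⟩ := p5 f hf
      obtain ⟨N, c', h2⟩ := hex u
      refine p1 (u - y) (hcl (N + n) (c' + (c + 1)) _ fun ε hε => ?_) y hy (by simp)
      obtain ⟨k, h3, h4⟩ := ((h1 (ε / 2) (half_pos hε)).and (Nat.hyperfilter_le_atTop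
        (tendsto_one_div_add_atTop_nhds_zero_nat.eventually (ge_mem_nhds (half_pos hε))))).exists
      refine ⟨l k, hl k, ?_, ?_⟩
      · have h5 := hsub (hmono h2 (Nat.le_add_right N n) le_rfl) (hmono (hadd (p4 _ (hf k)) (he k))
          (Nat.le_add_left n N) (add_le_add_right (Nat.one_div_le_one_div (Nat.zero_le k)) c))
        rw [hh k] at h5
        simpa using h5
      · have h5 := hmono (hadd h3 (he k)) (Nat.le_add_left n N) (c' := ε) (by linarith)
        rwa [show u - y - l k = f k - y + e k by rw [hh k]; abel]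
    obtain ⟨ε, hε, h1⟩ := this
    refine ⟨{g | ∃ f ∈ C, ∃ e, B n ε e ∧ g = f + e}, ⟨?_, ⟨0, p2, 0, hmono (hzero n) le_rfl hε.le,
      by simp⟩, ?_, ⟨c + ε, ?_⟩, fun x hx => ?_⟩,
      fun f hf => ⟨f, hf, 0, hmono (hzero n) le_rfl hε.le, by simp⟩, ε, hε,
      fun e he => ⟨0, p2, e, he, by simp⟩⟩
    · rintro l hl _ ⟨f, hf, e, he, rfl⟩; exact h1 l hl f hf e he
    · rintro _ ⟨f, hf, e, he, rfl⟩ _ ⟨f', hf', e', he', rfl⟩ a b hab
      exact ⟨_, p3 f hf f' hf' a b hab, _, hmono (hadd (hsmul a he) (hsmul b he')) le_rfl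
        (by nlinarith), by module⟩
    · rintro _ ⟨f, hf, e, he, rfl⟩; exact hmono (hadd (p4 f hf) he) (Nat.le_succ n) le_rfl
    · choose f hf e he hh using hx
      obtain ⟨y, hy, h2⟩ := p5 f hf
      obtain ⟨y', hy', h3⟩ := hmon n ε e hε.le he
      refine ⟨y + y', ⟨y, hy, y', hy', rfl⟩, fun η hη => ?_⟩
      filter_upwards [h2 _ (half_pos hη), h3 _ (half_pos hη)] with k h4 h5
      have h6 := hadd (hmono h4 (Nat.le_succ n) le_rfl) h5
      rwa [add_halves, show f k - y + (e k - y') = x k - (y + y') by rw [hh k]; abel] at h6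
  choose step hs1 hs2 hs3 using hstep
  let s : (n : ℕ) → {C // P n C} := fun n =>
    Nat.rec ⟨{0}, h0⟩ (fun n C => ⟨step n C.1 C.2, hs1 n C.1 C.2⟩) n
  have hsm : Monotone fun n => (s n).1 := monotone_nat_of_le_succ fun n => hs2 n _ (s n).2
  choose ε hε hε' using fun n => hs3 n _ (s n).2
  let A : V → Set ℝ := fun f => {t | 0 ≤ t ∧ ∃ l ∈ L, ∃ n, ∃ g ∈ (s n).1, f = l + (t : ℂ) • g}
  have hA : ∀ N f c, 0 < c → B N c f → c / ε N ∈ A f := fun N f c hc hf => by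
    have := hε N
    refine ⟨by positivity, 0, L.zero_mem, N + 1, ((ε N / c : ℝ) : ℂ) • f,
      hε' N _ (hmono (hsmul _ hf) le_rfl (le_of_eq ?_)), ?_⟩
    · rw [Complex.norm_real, Real.norm_of_nonneg (by positivity)]; field_simp
    · rw [zero_add, smul_smul, ← Complex.ofReal_mul, div_mul_div_cancel₀ this.ne', div_self hc.ne']
      simp
  have hne : ∀ f, (A f).Nonempty := fun f => by
    obtain ⟨N, c, h⟩ := hex f
    exact ⟨_, hA N f (|c| + 1) (by positivity) (hmono h le_rfl (by linarith [le_abs_self c]))⟩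
  have hbd : ∀ f, BddBelow (A f) := fun f => ⟨0, fun c hc => hc.1⟩
  have hL : ∀ l ∈ L, sInf (A l) ≤ 0 := fun l hl =>
    csInf_le (hbd l) ⟨le_rfl, l, hl, 0, 0, (s 0).2.2.1, by simp⟩
  let q : Seminorm ℂ V := Seminorm.ofSMulLE (fun f => sInf (A f))
    (le_antisymm (hL 0 L.zero_mem) (le_csInf (hne 0) fun c hc => hc.1))
    (fun f f' => by
      rw [← sub_le_iff_le_add]
      refine le_csInf (hne f) fun t ⟨h1, l, hl, n, g, hg, h2⟩ => ?_
      rw [sub_le_comm]
      refine le_csInf (hne f') fun t' ⟨h1', l', hl', n', g', hg', h2'⟩ => ?_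
      rw [sub_le_iff_le_add']
      refine csInf_le (hbd _) ⟨add_nonneg h1 h1', l + l', L.add_mem hl hl', n + n', _,
        (s (n + n')).2.2.2.1 g (hsm (Nat.le_add_right n n') hg) g' (hsm (Nat.le_add_left n' n) hg')
          ((t / (t + t') : ℝ) : ℂ) ((t' / (t + t') : ℝ) : ℂ) ?_, ?_⟩
      · rw [Complex.norm_real, Complex.norm_real, Real.norm_of_nonneg (by positivity),
          Real.norm_of_nonneg (by positivity), ← add_div]
        exact div_self_le_one _
      · rw [h2, h2', smul_add, smul_smul, smul_smul, ← Complex.ofReal_mul, ← Complex.ofReal_mul]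
        rcases eq_or_ne (t + t') 0 with h | h
        · obtain rfl : t = 0 := by linarith
          obtain rfl : t' = 0 := by linarith
          simp
        · rw [mul_div_cancel₀ _ h, mul_div_cancel₀ _ h]; abel)
    (fun a f => le_mul_csInf (hne f) (norm_nonneg a) fun t ⟨h1, l, hl, n, g, hg, h2⟩ => by
      refine csInf_le (hbd _) ⟨by positivity, a • l, L.smul_mem a hl, n, _,
        (s n).2.2.2.1 g hg g hg (a / ‖a‖) 0 ?_, ?_⟩
      · simpa using div_self_le_one _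
      · rcases eq_or_ne a 0 with rfl | h
        · simp
        · have : (‖a‖ : ℂ) ≠ 0 := by simpa using h
          rw [h2, zero_smul, add_zero, smul_add, smul_smul, smul_smul]
          congr 2; push_cast; field_simp)
  obtain ⟨g, h1, h2⟩ := hb_point q u
  refine ⟨g, fun l hl => norm_le_zero_iff.1 ((h2 l).trans (hL l hl)), ?_,
    fun N => ⟨(ε N)⁻¹, inv_pos.2 (hε N), fun f c hc hf => (h2 f).trans
      ((csInf_le (hbd f) (hA N f c hc hf)).trans_eq (div_eq_inv_mul _ _))⟩⟩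
  have h3 : 1 ≤ q u := le_csInf (hne u) fun t ⟨h1, l, hl, n, g, hg, h2⟩ => by
    by_contra h
    refine (s n).2.1 l hl _ ((s n).2.2.2.1 g hg g hg t 0 ?_) (by simpa using h2)
    simpa [abs_of_nonneg h1] using (not_le.1 h).le
  rw [h1]
  exact_mod_cast (one_pos.trans_le h3).ne'

end Pool.Agent.MP_26d9d0_an.H12
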